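import Mathlib

/-! # A semilocal ring

`exists_semilocal`: let `T` be the finite set of the primes of `𝓞 E` which contain `𝔞 𝓞 E`
(`𝔞 𝓞 E ≠ 0`) and one more nonzero prime (so that `T` is not empty), `M` the complement of the union of the
primes in `T`, a submonoid (`Ideal.primeCompl`, infimum), `O = Localization M`, a Dedekind domain
(`IsLocalization.isDedekindDomain`) with finitely many primes (`IsLocalization.orderIsoOfPrime`, prime
avoidance `Ideal.subset_union_prime`), so a principal ideal domain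
(`IsPrincipalIdealRing.of_finite_primes` or `IsPrincipalIdealRing.of_isDedekindDomain_of_finite...`).
If `x ∈ 𝓞 K` lies in `𝔞 O` then `m x ∈ 𝔞 𝓞 E` for some `m ∈ M`; `m` lies in no prime which contains
`𝔞 𝓞 E`, so it is a unit modulo `𝔞 𝓞 E`, and `x ∈ 𝔞 𝓞 E ∩ 𝓞 K = 𝔞`
(`Ideal.comap_map_eq_self_of_faithfullyFlat` or the corresponding lemma for Dedekind domains, or:
`𝔞 = ∏ 𝔭 ^ k`, and valuations). -/

set_option autoImplicit false

noncomputable section

namespace Pool.Agent.OneM74

open NumberField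

/-- The case of the unit ideal. -/
private theorem semilocal_top {K E : Type} [Field K] [NumberField K] [Field E] [NumberField E]
    (i : K →+* E) :
    ∃ (O : Type) (_ : CommRing O) (_ : IsDomain O) (_ : IsPrincipalIdealRing O)
      (_ : Algebra O E) (_ : IsFractionRing O E) (j : 𝓞 K →+* O),
      (∀ x : 𝓞 K, algebraMap O E (j x) = i (x : K)) ∧
        ((⊤ : Ideal (𝓞 K)).map j).comap j = ⊤ := by
  refine ⟨E, inferInstance, inferInstance, inferInstance, inferInstance, inferInstance,
    i.comp (algebraMap (𝓞 K) K), fun x => rfl, ?_⟩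
  rw [Ideal.map_top, Ideal.comap_top]

private theorem finite_above {R : Type} [CommRing R] (𝔠 : Ideal R) [Finite (R ⧸ 𝔠)] :
    ({J : Ideal R | 𝔠 ≤ J}).Finite := by
  have h1 : Finite (Ideal (R ⧸ 𝔠)) :=
    Finite.of_injective (fun I : Ideal (R ⧸ 𝔠) => (I : Set (R ⧸ 𝔠))) SetLike.coe_injective
  refine (Set.finite_range (fun I : Ideal (R ⧸ 𝔠) => I.comap (Ideal.Quotient.mk 𝔠))).subset ?_
  intro J hJ
  refine ⟨J.map (Ideal.Quotient.mk 𝔠), ?_⟩
  show Ideal.comap _ (Ideal.map _ J) = J
  rw [Ideal.comap_map_of_surjective' _ Ideal.Quotient.mk_surjective, Ideal.mk_ker, sup_eq_left]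
  exact hJ

theorem exists_semilocal {K E : Type} [Field K] [NumberField K] [Field E] [NumberField E]
    (i : K →+* E) (𝔞 : Ideal (𝓞 K)) (h𝔞 : 𝔞 ≠ ⊥) :
    ∃ (O : Type) (_ : CommRing O) (_ : IsDomain O) (_ : IsPrincipalIdealRing O)
      (_ : Algebra O E) (_ : IsFractionRing O E) (j : 𝓞 K →+* O),
      (∀ x : 𝓞 K, algebraMap O E (j x) = i (x : K)) ∧ (𝔞.map j).comap j = 𝔞 := by
  classical
  by_cases htop : 𝔞 = ⊤
  · subst htop
    exact semilocal_top i
  let : Algebra K E := i.toAlgebra
  have hff : Module.FaithfullyFlat (𝓞 K) (𝓞 E) := inferInstance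
  set 𝔠 : Ideal (𝓞 E) := 𝔞.map (algebraMap (𝓞 K) (𝓞 E)) with h𝔠
  have hcomap : 𝔠.comap (algebraMap (𝓞 K) (𝓞 E)) = 𝔞 :=
    Ideal.comap_map_eq_self_of_faithfullyFlat 𝔞
  have h𝔠top : 𝔠 ≠ ⊤ := by
    intro h
    rw [h, Ideal.comap_top] at hcomap
    exact htop hcomap.symm
  have h𝔠bot : 𝔠 ≠ ⊥ := by
    intro h
    apply h𝔞
    rw [← hcomap, h]
    exact Ideal.comap_bot_of_injective _ (FaithfulSMul.algebraMap_injective (𝓞 K) (𝓞 E))
  have hfq : Finite (𝓞 E ⧸ 𝔠) := Ideal.finiteQuotientOfFreeOfNeBot 𝔠 h𝔠bot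
  let M : Submonoid (𝓞 E) :=
    { carrier := {m | m - 1 ∈ 𝔠}
      one_mem' := by
        show (1 : 𝓞 E) - 1 ∈ 𝔠
        rw [sub_self]
        exact 𝔠.zero_mem
      mul_mem' := by
        intro a b ha hb
        show a * b - 1 ∈ 𝔠
        have h1 : a * b - 1 = a * (b - 1) + (a - 1) := by ring
        rw [h1]
        exact 𝔠.add_mem (𝔠.mul_mem_left _ hb) ha }
  have hMmem : ∀ m, m ∈ M ↔ m - 1 ∈ 𝔠 := fun m => Iff.rfl
  have hM : M ≤ nonZeroDivisors (𝓞 E) := by
    intro m hm
    rw [mem_nonZeroDivisors_iff_ne_zero]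
    rintro rfl
    apply h𝔠top
    rw [Ideal.eq_top_iff_one, ← neg_mem_iff]
    rw [hMmem, zero_sub] at hm
    exact hm
  have hdom : IsDomain (Localization M) := IsLocalization.isDomain_localization hM
  have hded : IsDedekindDomain (Localization M) :=
    IsLocalization.isDedekindDomain (𝓞 E) hM (Localization M)
  have hfin : ({I : Ideal (Localization M) | I.IsPrime}).Finite := by
    refine Set.Finite.of_finite_image (f := fun I => Ideal.under (𝓞 E) I) ?_ ?_
    · refine ((finite_above 𝔠).union (Set.finite_singleton ⊥)).subset ?_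
      rintro _ ⟨I, hI, rfl⟩
      have h1 := (IsLocalization.isPrime_iff_isPrime_disjoint M (Localization M) I).1 hI
      by_cases h2 : Ideal.under (𝓞 E) I = ⊥
      · exact Or.inr h2
      · left
        show 𝔠 ≤ Ideal.under (𝓞 E) I
        by_contra h3
        have hmax : (Ideal.under (𝓞 E) I).IsMaximal := h1.1.isMaximal h2
        have h4 : Ideal.under (𝓞 E) I ⊔ 𝔠 = ⊤ := by
          refine hmax.1.2 _ ?_
          refine lt_of_le_of_ne le_sup_left fun h => h3 ?_
          rw [h]
          exact le_sup_right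
        have h5 : (1 : 𝓞 E) ∈ Ideal.under (𝓞 E) I ⊔ 𝔠 := by
          rw [h4]
          exact Submodule.mem_top
        obtain ⟨p, hp, c, hc, hpc⟩ := Submodule.mem_sup.1 h5
        have h6 : p ∈ M := by
          rw [hMmem, ← hpc, sub_add_cancel_left]
          exact 𝔠.neg_mem hc
        exact Set.disjoint_left.1 h1.2 h6 hp
    · intro I _ J _ hIJ
      have h1 := IsLocalization.map_under M (Localization M) I
      have h2 := IsLocalization.map_under M (Localization M) J
      rw [← h1, ← h2]
      exact congrArg _ hIJ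
  have hpid : IsPrincipalIdealRing (Localization M) := IsPrincipalIdealRing.of_finite_primes hfin
  let halg : Algebra (Localization M) E :=
    IsLocalization.localizationAlgebraOfSubmonoidLe (Localization M) E M (nonZeroDivisors (𝓞 E)) hM
  have hst : IsScalarTower (𝓞 E) (Localization M) E :=
    IsLocalization.localization_isScalarTower_of_submonoid_le (Localization M) E M
      (nonZeroDivisors (𝓞 E)) hM
  have hfr : IsFractionRing (Localization M) E :=
    IsFractionRing.isFractionRing_of_isDomain_of_isLocalization M (Localization M) E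
  refine ⟨Localization M, inferInstance, hdom, hpid, halg, hfr,
    (algebraMap (𝓞 E) (Localization M)).comp (algebraMap (𝓞 K) (𝓞 E)), fun x => ?_, ?_⟩
  · rw [RingHom.comp_apply, ← IsScalarTower.algebraMap_apply (𝓞 E) (Localization M) E]
    rfl
  · rw [← Ideal.map_map, ← Ideal.comap_comap, ← h𝔠]
    have h1 : (𝔠.map (algebraMap (𝓞 E) (Localization M))).comap
        (algebraMap (𝓞 E) (Localization M)) = 𝔠 := by
      refine le_antisymm ?_ Ideal.le_comap_map
      intro x hx
      rw [Ideal.mem_comap, IsLocalization.algebraMap_mem_map_algebraMap_iff M] at hx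
      obtain ⟨m, hm, hmx⟩ := hx
      have h2 : x = m * x - (m - 1) * x := by ring
      rw [h2]
      exact 𝔠.sub_mem hmx (𝔠.mul_mem_right _ hm)
    rw [h1, hcomap]

end Pool.Agent.OneM74
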