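import Pool.Agent.W_7742m_h74.MLat
import Pool.Agent.W_7742m_h74.MSem
import Pool.Agent.W_7742z_h74.Fin

/-! # Reductions of a representation over a number field; products

`exists_mod`: take `O`, `j` from `exists_semilocal` and `R₀` from `exists_lattice` (the image of `R` is
finite, as its kernel is open in a compact group), `A = O ⧸ 𝔞 O`, `ι` the composition of `j` with the
quotient map, its kernel is the preimage of `𝔞 O`, that is `𝔞`; `r` is `R₀` modulo `𝔞 O`
(`RingHom.mapMatrix`, `MonoidHom.toHomUnits`).  If `tr R(g) = i x` then `tr R₀(g) = j x` (`algebraMap` is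
injective) and `tr r(g) = ι x`.

`exists_prod`: `A = ∀ l, A l`, `ι = RingHom.pi ι`, `r g` has the entries `l ↦ r_l(g) a b`; its kernel is the
intersection of the finitely many open kernels, the exceptional set is contained in the union of the
exceptional sets (`Pool.Agent.OneP74.density_union'`, induction over the finite index set; if `m = 0` the
ring is the zero ring and everything is trivial). -/

set_option autoImplicit false

noncomputable section

namespace Pool.Agent.OneM74

open NumberField Pool.Agent.Cheb Pool.Agent.GalSide Pool.Agent.H74V Pool.Agent.OneI74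

theorem exists_mod {K E : Type} [Field K] [NumberField K] [Field E] [NumberField E] (i : K →+* E)
    {n : ℕ} (R : AbsGal ℚ →* GL (Fin n) E) (hR : IsOpen (R.ker : Set (AbsGal ℚ)))
    (𝔞 : Ideal (𝓞 K)) (h𝔞 : 𝔞 ≠ ⊥) :
    ∃ (A : Type) (_ : CommRing A) (ι : 𝓞 K →+* A) (r : AbsGal ℚ →* GL (Fin n) A),
      RingHom.ker ι = 𝔞 ∧ IsOpen (r.ker : Set (AbsGal ℚ)) ∧
      ∀ (g : AbsGal ℚ) (x : 𝓞 K), (R g).val.trace = i (x : K) → (r g).val.trace = ι x := by
  classical
  obtain ⟨O, iO1, iO2, iO3, iO4, iO5, j, hj1, hj2⟩ := exists_semilocal i 𝔞 h𝔞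
  have hfin : (Set.range ((Units.coeHom (Matrix (Fin n) (Fin n) E)).comp R)).Finite := by
    have hq : Finite (AbsGal ℚ ⧸ R.ker) := Subgroup.quotient_finite_of_isOpen _ hR
    have hr : Finite R.range := Finite.of_equiv _ (QuotientGroup.quotientKerEquivRange R).toEquiv
    have h1 : (Set.range R).Finite := by
      rw [← MonoidHom.coe_range]
      exact Set.toFinite _
    refine (h1.image (fun u : GL (Fin n) E => (u : Matrix (Fin n) (Fin n) E))).subset ?_
    rintro _ ⟨g, rfl⟩
    exact ⟨R g, ⟨g, rfl⟩, rfl⟩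
  obtain ⟨R₀, hR₀⟩ := exists_lattice (O := O)
    ((Units.coeHom (Matrix (Fin n) (Fin n) E)).comp R) hfin
  have hker : ∀ g, R g = 1 → R₀ g = 1 := fun g hg => (hR₀ g).2 (by
    rw [MonoidHom.comp_apply, hg]
    rfl)
  refine ⟨O ⧸ 𝔞.map j, inferInstance, (Ideal.Quotient.mk (𝔞.map j)).comp j,
    ((((Ideal.Quotient.mk (𝔞.map j)).mapMatrix : Matrix (Fin n) (Fin n) O →+* _) :
      Matrix (Fin n) (Fin n) O →* Matrix (Fin n) (Fin n) (O ⧸ 𝔞.map j)).comp R₀).toHomUnits,
    ?_, ?_, ?_⟩
  · rw [← RingHom.comap_ker, Ideal.mk_ker]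
    exact hj2
  · refine Subgroup.isOpen_mono (H₁ := R.ker) (fun g hg => ?_) hR
    rw [MonoidHom.mem_ker] at hg ⊢
    refine Units.ext ?_
    rw [MonoidHom.coe_toHomUnits, MonoidHom.comp_apply, hker g hg]
    exact map_one _
  · intro g x hx
    have h1 : (R₀ g).trace = j x := by
      refine IsFractionRing.injective O E ?_
      rw [(hR₀ g).1, hj1 x]
      exact hx
    rw [MonoidHom.coe_toHomUnits, MonoidHom.comp_apply, RingHom.comp_apply, ← h1]
    exact (AddMonoidHom.map_trace (Ideal.Quotient.mk (𝔞.map j)).toAddMonoidHom (R₀ g)).symm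

theorem exists_prod {K : Type} [Field K] [NumberField K] {n : ℕ} (π : SatakeSystem K n)
    (Fr : Nat.Primes → AbsGal ℚ) {m : ℕ} (A : Fin m → Type) [∀ l, CommRing (A l)]
    (ι : ∀ l, 𝓞 K →+* A l) (r : ∀ l, AbsGal ℚ →* GL (Fin n) (A l))
    (hr : ∀ l, IsOpen ((r l).ker : Set (AbsGal ℚ)))
    (hc : ∀ l, Congruent π Fr (ι l) fun g => (r l g).val.trace)
    (hint : ∀ p : Nat.Primes, π.Good p → ∃ x : 𝓞 K, (x : K) = (π.A p).trace) :
    ∃ (A' : Type) (_ : CommRing A') (ι' : 𝓞 K →+* A') (r' : AbsGal ℚ →* GL (Fin n) A'),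
      RingHom.ker ι' = ⨅ l, RingHom.ker (ι l) ∧ IsOpen (r'.ker : Set (AbsGal ℚ)) ∧
      (∀ g, r' g = 1 ↔ ∀ l, r l g = 1) ∧ Congruent π Fr ι' fun g => (r' g).val.trace := by
  classical
  let rM : AbsGal ℚ →* Matrix (Fin n) (Fin n) (∀ l, A l) :=
    { toFun := fun g => Matrix.of fun a b l => (r l g).val a b
      map_one' := by
        ext a b l
        simp only [map_one, Units.val_one, Matrix.of_apply, Matrix.one_apply]
        split_ifs <;> rfl
      map_mul' := fun g h => by
        ext a b l
        simp only [map_mul, Units.val_mul, Matrix.of_apply, Matrix.mul_apply, Finset.sum_apply,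
          Pi.mul_apply] }
  have hone : ∀ g, rM.toHomUnits g = 1 ↔ ∀ l, r l g = 1 := by
    intro g
    constructor
    · intro h l
      have h1 : rM g = 1 := by
        have := congrArg Units.val h
        rwa [MonoidHom.coe_toHomUnits] at this
      refine Units.ext ?_
      ext a b
      have h2 := congrFun (congrFun (congrFun h1 a) b) l
      change (r l g).val a b = _ at h2
      rw [h2, Units.val_one]
      simp only [Matrix.one_apply]
      split_ifs <;> rfl
    · intro h
      refine Units.ext ?_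
      rw [MonoidHom.coe_toHomUnits]
      ext a b l
      change (r l g).val a b = _
      rw [h l, Units.val_one]
      simp only [Units.val_one, Matrix.one_apply]
      split_ifs <;> rfl
  refine ⟨∀ l, A l, inferInstance, RingHom.pi ι, rM.toHomUnits, ?_, ?_, hone, ?_⟩
  · ext x
    simp only [RingHom.mem_ker, Submodule.mem_iInf]
    constructor
    · intro h l
      exact congrFun h l
    · intro h
      funext l
      exact h l
  · have h1 : ((rM.toHomUnits.ker : Subgroup (AbsGal ℚ)) : Set (AbsGal ℚ)) =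
        ⋂ l, ((r l).ker : Set (AbsGal ℚ)) := by
      ext g
      simp only [SetLike.mem_coe, MonoidHom.mem_ker, Set.mem_iInter]
      exact hone g
    rw [h1]
    exact isOpen_iInter_of_finite hr
  · have hempty : HasDensity (∅ : Set Nat.Primes) 0 := by
      unfold HasDensity primeSum
      simp
    have hsets : ∀ S : Finset (Fin m), HasDensity (⋃ l ∈ S, {p : Nat.Primes |
        ¬ ∃ x : 𝓞 K, (x : K) = (π.A p).trace ∧ (r l (Fr p)).val.trace = ι l x}) 0 := by
      intro S
      induction S using Finset.induction_on with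
      | empty => simpa using hempty
      | insert l S _ ih =>
        refine Pool.Agent.OneP74.density_union' (hc l) ih ?_
        rw [Finset.set_biUnion_insert]
    refine Pool.Agent.OneP74.density_union (hsets Finset.univ)
      (Pool.Agent.OneP74.finite_level π.level_pos) ?_
    intro p hp
    by_contra hnot
    rw [Set.mem_union, not_or] at hnot
    obtain ⟨hn1, hn2⟩ := hnot
    refine hp ?_
    obtain ⟨x, hx⟩ := hint p ⟨p.2, hn2⟩
    refine ⟨x, hx, ?_⟩
    funext l
    have h3 : ∃ y : 𝓞 K, (y : K) = (π.A p).trace ∧ (r l (Fr p)).val.trace = ι l y := by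
      by_contra h4
      exact hn1 (Set.mem_iUnion₂.2 ⟨l, Finset.mem_univ _, h4⟩)
    obtain ⟨y, hy1, hy2⟩ := h3
    have hyx : y = x := by
      apply RingOfIntegers.ext
      rw [hy1, hx]
    subst hyx
    rw [RingHom.pi_apply, ← hy2]
    change (Matrix.trace (rM (Fr p))) l = _
    simp only [Matrix.trace, Matrix.diag_apply, Finset.sum_apply]
    rfl

end Pool.Agent.OneM74
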