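import Pool.Agent.W_7742m_h74.USta
import Pool.Agent.W_7742m_h74.MMod

/-! # Reductions of a representation over a number field; products

`exists_poly`: the coefficients of the characteristic polynomial are integral (`π.integral`).

`exists_mod_ch`: as `exists_mod` in `MMod.lean`, with `O`, `j` from `exists_semilocal`, `R₀` from
`exists_lattice`, `A = O ⧸ 𝔞 O`, `r` is `R₀` modulo `𝔞 O`.  The traces of the powers of `R₀(g)` (as a matrix
over `E`) and of `R(g)` are equal (`exists_lattice` for `g ^ k`), so the characteristic polynomials are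
equal (`DZ74.charpoly_eq_of_traces` after an embedding of `E` in `ℂ`).  If
`char R(g) = i P` then `char R₀(g) = j P` (`algebraMap O E` is injective; `Matrix.charpoly_map`) and
`char r(g) = ι P`.  If `R g = 1` then `R₀ g = 1` and `r g = 1`.

`exists_prod_at`: as `exists_prod` in `MMod.lean`: `A' = ∀ l, A l`, `ι' = RingHom.pi ι`, `r' g` has the
entries `l ↦ r_l(g) a b`; its kernel is the intersection of the kernels.  The polynomials `P` for the
different `l` are equal (`algebraMap (𝓞 K) K` is injective); if `m = 0` use `exists_poly`.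
`Matrix.charpoly_map` for the projections `Pi.evalRingHom`. -/

set_option autoImplicit false

noncomputable section

namespace Pool.Agent.OneM74

open NumberField Pool.Agent.Cheb Pool.Agent.GalSide Pool.Agent.H74V Pool.Agent.OneI74

theorem UMod_empty : HasDensity ∅ 0 := by
  unfold HasDensity
  have h : ∀ s, primeSum ∅ s = 0 := by
    intro s
    unfold primeSum
    simp
  simp only [h, zero_div]
  exact tendsto_const_nhds

theorem UMod_union {J : Type} [Finite J] (A : J → Set Nat.Primes)
    (h : ∀ j, HasDensity (A j) 0) : HasDensity (⋃ j, A j) 0 := by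
  classical
  have := Fintype.ofFinite J
  have h1 : ∀ F : Finset J, HasDensity (⋃ j ∈ F, A j) 0 := by
    intro F
    induction F using Finset.induction_on with
    | empty => simpa using UMod_empty
    | insert a F _ ih =>
      refine Pool.Agent.OneP74.density_union' (h a) ih ?_
      rw [Finset.set_biUnion_insert]
  simpa using h1 Finset.univ

theorem exists_poly {K : Type} [Field K] [NumberField K] {n : ℕ} (π : SatakeSystem K n)
    {p : Nat.Primes} (hp : π.Good p) :
    ∃ P : Polynomial (𝓞 K), P.map (algebraMap (𝓞 K) K) = (π.A p).charpoly := by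
  rw [← Polynomial.mem_lifts, Polynomial.lifts_iff_coeff_lifts]
  intro k
  exact ⟨⟨_, π.integral p hp.1 hp.2 k⟩, rfl⟩

/-- The reduction of a matrix modulo an ideal. -/
theorem UMod_trace {A B : Type} [CommRing A] [CommRing B] (f : A →+* B) {n : ℕ}
    (M : Matrix (Fin n) (Fin n) A) : (f.mapMatrix M).trace = f M.trace := by
  rw [Matrix.trace, Matrix.trace, map_sum]
  rfl

/-- The integral trace. -/
theorem UMod_int {K : Type} [Field K] [NumberField K] {n : ℕ} (hn : 0 < n) (π : SatakeSystem K n)
    {p : Nat.Primes} (hp : π.Good p) : ∃ x : 𝓞 K, (x : K) = (π.A p).trace := by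
  have : Nonempty (Fin n) := ⟨⟨0, hn⟩⟩
  obtain ⟨P, hP⟩ := exists_poly π hp
  refine ⟨-P.coeff (Fintype.card (Fin n) - 1), ?_⟩
  rw [Matrix.trace_eq_neg_charpoly_coeff, ← hP, Polynomial.coeff_map]
  rfl

theorem exists_mod_ch {K E : Type} [Field K] [NumberField K] [Field E] [NumberField E] (i : K →+* E)
    {n : ℕ} (R : AbsGal ℚ →* GL (Fin n) E) (hR : IsOpen (R.ker : Set (AbsGal ℚ)))
    (𝔞 : Ideal (𝓞 K)) (h𝔞 : 𝔞 ≠ ⊥) :
    ∃ (A : Type) (_ : CommRing A) (ι : 𝓞 K →+* A) (r : AbsGal ℚ →* GL (Fin n) A),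
      RingHom.ker ι = 𝔞 ∧ R.ker ≤ r.ker ∧
      (∀ (g : AbsGal ℚ) (x : 𝓞 K), (R g).val.trace = i (x : K) → (r g).val.trace = ι x) ∧
      ∀ (g : AbsGal ℚ) (P : Polynomial (𝓞 K)),
        (R g).val.charpoly = (P.map (algebraMap (𝓞 K) K)).map i →
          (r g).val.charpoly = P.map ι := by
  classical
  obtain ⟨O, _, _, _, _, _, j, hj, hcomap⟩ := exists_semilocal i 𝔞 h𝔞
  have hfin : Finite (AbsGal ℚ ⧸ R.ker) := Subgroup.quotient_finite_of_isOpen R.ker hR
  obtain ⟨R', hR'⟩ : ∃ R' : AbsGal ℚ →* Matrix (Fin n) (Fin n) E, ∀ g, R' g = (R g).val :=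
    ⟨(Units.coeHom _).comp R, fun _ => rfl⟩
  have hrange : (Set.range R').Finite := by
    have h1 : Set.range R' ⊆ Set.range (fun x : AbsGal ℚ ⧸ R.ker => R' x.out) := by
      rintro _ ⟨g, rfl⟩
      refine ⟨QuotientGroup.mk g, ?_⟩
      obtain ⟨h, hh⟩ := QuotientGroup.mk_out_eq_mul R.ker g
      show R' (QuotientGroup.mk g : AbsGal ℚ ⧸ R.ker).out = R' g
      rw [hh, hR', hR', map_mul, MonoidHom.mem_ker.1 h.2, mul_one]
    exact (Set.finite_range _).subset h1
  obtain ⟨R₀, hR₀⟩ := exists_lattice (O := O) R' hrange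
  have hinj : Function.Injective (algebraMap O E) := IsFractionRing.injective O E
  obtain ⟨q, hq⟩ : ∃ q : O →+* O ⧸ 𝔞.map j, q = Ideal.Quotient.mk (𝔞.map j) := ⟨_, rfl⟩
  obtain ⟨r, hr⟩ : ∃ r : AbsGal ℚ →* GL (Fin n) (O ⧸ 𝔞.map j),
      ∀ g, (r g).val = q.mapMatrix (R₀ g) :=
    ⟨MonoidHom.toHomUnits ((q.mapMatrix : _ →+* _).toMonoidHom.comp R₀), fun _ => rfl⟩
  have hcp : ∀ g, (R₀ g).charpoly.map (algebraMap O E) = (R g).val.charpoly := by
    intro g
    have e0 : (R₀ g).charpoly.map (algebraMap O E) =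
        ((algebraMap O E).mapMatrix (R₀ g)).charpoly := (Matrix.charpoly_map _ _).symm
    rw [e0]
    apply Pool.Agent.DZ74.charpoly_eq_of_traces
    intro k _ _
    rw [← map_pow, ← map_pow, UMod_trace, (hR₀ (g ^ k)).1, hR', map_pow]
    rfl
  refine ⟨O ⧸ 𝔞.map j, inferInstance, q.comp j, r, ?_, ?_, ?_, ?_⟩
  · rw [← RingHom.comap_ker, hq, Ideal.mk_ker, hcomap]
  · intro g hg
    rw [MonoidHom.mem_ker] at hg ⊢
    apply Units.ext
    rw [hr, (hR₀ g).2 (by rw [hR', hg]; rfl), map_one]
    rfl
  · intro g x hx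
    have h1 : (R₀ g).trace = j x := by
      apply hinj
      rw [(hR₀ g).1, hR', hx, hj]
    rw [hr, UMod_trace, h1]
    rfl
  · intro g P hP
    have h1 : (R₀ g).charpoly = P.map j := by
      apply Polynomial.map_injective _ hinj
      rw [hcp, hP, Polynomial.map_map, Polynomial.map_map]
      congr 1
      ext x
      exact (hj x).symm
    have h2 : (r g).val.charpoly = (R₀ g).charpoly.map q := by
      rw [hr]
      exact Matrix.charpoly_map _ _
    rw [h2, h1, Polynomial.map_map]

theorem exists_prod_at {K : Type} [Field K] [NumberField K] {n : ℕ} (hn : 0 < n)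
    (π : SatakeSystem K n) (Fr : Nat.Primes → AbsGal ℚ) {m : ℕ} (𝔞 : Fin m → Ideal (𝓞 K))
    {p : Nat.Primes} (hp : π.Good p) (h : ∀ l, HasModOn π Fr {p} (𝔞 l)) :
    HasModOn π Fr {p} (⨅ l, 𝔞 l) := by
  classical
  choose A inst ι r hker hopen hcong hat using h
  obtain ⟨r', hr'⟩ : ∃ r' : AbsGal ℚ →* GL (Fin n) (∀ l, A l),
      ∀ g l, ((Pi.evalRingHom A l).mapMatrix (r' g).val) = (r l g).val := by
    let r₁ : AbsGal ℚ →* Matrix (Fin n) (Fin n) (∀ l, A l) :=
      { toFun := fun g => Matrix.of fun a b l => (r l g).val a b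
        map_one' := by
          ext a b l
          show (r l 1).val a b = (1 : Matrix (Fin n) (Fin n) (∀ l, A l)) a b l
          rw [map_one, Units.val_one, Matrix.one_apply, Matrix.one_apply]
          split_ifs <;> rfl
        map_mul' := fun g h => by
          ext a b l
          rw [Matrix.mul_apply, Finset.sum_apply]
          show (r l (g * h)).val a b = _
          rw [map_mul, Units.val_mul, Matrix.mul_apply]
          rfl }
    exact ⟨MonoidHom.toHomUnits r₁, fun g l => rfl⟩
  have hone : ∀ g, (∀ l, r l g = 1) → r' g = 1 := by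
    intro g hg
    apply Units.ext
    ext a b l
    have h1 : (r' g).val a b l = ((Pi.evalRingHom A l).mapMatrix (r' g).val) a b := rfl
    rw [h1, hr', hg l, Units.val_one, Units.val_one, Matrix.one_apply, Matrix.one_apply]
    split_ifs <;> rfl
  refine ⟨∀ l, A l, inferInstance, RingHom.pi ι, r', ?_, ?_, ?_, ?_⟩
  · ext x
    rw [RingHom.mem_ker, Ideal.mem_iInf]
    constructor
    · intro hx l
      rw [← hker l, RingHom.mem_ker]
      exact congrFun hx l
    · intro hx
      funext l
      have h1 := hx l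
      rw [← hker l, RingHom.mem_ker] at h1
      exact h1
  · have h1 : IsOpen (⋂ l, ((r l).ker : Set (AbsGal ℚ))) := isOpen_iInter_of_finite hopen
    have h2 : IsOpen ((⨅ l, (r l).ker : Subgroup (AbsGal ℚ)) : Set (AbsGal ℚ)) := by
      rw [Subgroup.coe_iInf]
      exact h1
    exact Subgroup.isOpen_mono (H₁ := ⨅ l, (r l).ker) (fun g hg => by
      rw [MonoidHom.mem_ker]
      apply hone
      intro l
      exact MonoidHom.mem_ker.1 ((Subgroup.mem_iInf.1 hg) l)) h2
  · refine Pool.Agent.OneP74.density_union (UMod_union _ hcong)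
      (Pool.Agent.OneP74.finite_level π.level_pos) ?_
    intro p' hp'
    by_cases hpl : (p' : ℕ) ∣ π.level
    · exact Or.inr hpl
    · left
      by_contra hcon
      rw [Set.mem_iUnion, not_exists] at hcon
      apply hp'
      obtain ⟨x, hx⟩ := UMod_int hn π (p := p') ⟨p'.2, hpl⟩
      refine ⟨x, hx, ?_⟩
      funext l
      have h1 := hcon l
      have h2 : ∃ x : 𝓞 K, (x : K) = (π.A p').trace ∧ (r l (Fr p')).val.trace = ι l x :=
        not_not.1 h1
      obtain ⟨y, hy1, hy2⟩ := h2
      have hxy : y = x := by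
        apply RingOfIntegers.ext
        rw [hy1, hx]
      subst hxy
      have h3 := UMod_trace (Pi.evalRingHom A l) (r' (Fr p')).val
      rw [hr', hy2] at h3
      exact h3.symm
  · intro p' hp'
    rw [Set.mem_singleton_iff] at hp'
    subst hp'
    refine ⟨fun 𝔓 h𝔓 hp𝔓 g hg => ?_, ?_⟩
    · rw [MonoidHom.mem_ker]
      apply hone
      intro l
      exact MonoidHom.mem_ker.1 ((hat l _ rfl).1 𝔓 h𝔓 hp𝔓 hg)
    · obtain ⟨P, hP⟩ := exists_poly π hp
      refine ⟨P, hP, ?_⟩
      ext k l
      obtain ⟨Q, hQ1, hQ2⟩ := (hat l _ rfl).2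
      have hQP : Q = P := by
        apply Polynomial.map_injective _ (RingOfIntegers.coe_injective (K := K))
        exact hQ1.trans hP.symm
      subst hQP
      have h3 : ((Pi.evalRingHom A l).mapMatrix (r' (Fr p')).val).charpoly =
          (r' (Fr p')).val.charpoly.map (Pi.evalRingHom A l) := Matrix.charpoly_map _ _
      rw [hr', hQ2] at h3
      have h4 := congrArg (fun F => Polynomial.coeff F k) h3
      simp only [Polynomial.coeff_map] at h4
      rw [Polynomial.coeff_map]
      exact h4.symm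

end Pool.Agent.OneM74
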