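import Mathlib

/-!
# Adjoints of Hecke operators, abstractly

`G` is a countable group acting on the measure space `X` by measure preserving maps, `M` is a
countable set of measure preserving maps `act δ` of `X` (`δ ∈ M`), on which `G` acts from the left
(`gm`), with an involution `ι` such that `act (ι δ)` is inverse to `act δ`.

Put `S δ = ∫ w(x) w(act δ x) H(δ, x) dμ` (`w` real valued: `(w x).toReal`).

1. For almost all `x` we have `∑_g w(g • act (r i) x) = 1` (`act (r i)` is measure preserving, so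
   the exceptional null set is pulled back to a null set), so
   `∫ w(x) H(r i, x) = ∫ ∑_g w(x) w(g • act (r i) x) H(gm g (r i), x) = ∑_g S (gm g (r i))`;
   the exchange is allowed because `∫ ∑_g w(x) w(g • act (r i) x) ‖H‖ ≤ C ∫ w < ∞`.
   (In the same way `∑_i ∑_g ‖S (gm g (r i))‖ ≤ card R * C ∫ w < ∞`.)
2. By bijectivity of `(g, i) ↦ gm g (r i)`, `∑_i ∫ w H(r i, ·) = ∑_{δ ∈ M} S δ`.
3. Substituting `x = act (ι δ) y` (`MeasurePreserving` with measurable inverse `act δ`):
   `S δ = ∫ w(act (ι δ) y) w(y) H(δ, act (ι δ) y) dμ(y)` and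
   `H(δ, act (ι δ) y) = H(ι (ι δ), act (ι δ) y) = κ conj (H(ι δ, y))`, so `S δ = κ conj (S (ι δ))`.
4. `∑_δ S δ = κ ∑_δ conj (S (ι δ)) = κ conj (∑_δ S δ)` (`ι` is a bijection of `M`).
-/

set_option autoImplicit false

noncomputable section

namespace Pool.Agent.Maass74

open MeasureTheory ENNReal ComplexConjugate

/-- The masses of the overlaps. -/
lemma AdjA_mass {X : Type} [MeasurableSpace X] (μ : Measure X)
    {G : Type} [Group G] [Countable G] [MulAction G X]
    (hG : ∀ g : G, MeasurePreserving (fun x : X => g • x) μ μ)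
    (T : X → X) (hT : MeasurePreserving T μ μ)
    (w : X → ℝ≥0∞) (hw : Measurable w) (hw1 : ∀ᵐ x ∂μ, ∑' g : G, w (g • x) = 1) :
    ∑' g : G, ∫⁻ x, w x * w (g • T x) ∂μ = ∫⁻ x, w x ∂μ := by
  rw [← lintegral_tsum]
  · refine lintegral_congr_ae ?_
    filter_upwards [hT.quasiMeasurePreserving.ae hw1] with x hx
    rw [ENNReal.tsum_mul_left, hx, mul_one]
  · intro g
    exact (hw.mul (hw.comp ((hG g).measurable.comp hT.measurable))).aemeasurable

/-- Integrability of the overlap integrals. -/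
lemma AdjA_int {X : Type} [MeasurableSpace X] (μ : Measure X) (w : X → ℝ≥0∞) (hw : Measurable w)
    (u : X → X) (hu : Measurable u) (H : X → ℂ) (hH : Measurable H) {C : ℝ}
    (hHb : ∀ x, ‖H x‖ ≤ C) (ha : ∫⁻ x, w x * w (u x) ∂μ ≠ ∞) :
    Integrable (fun x => ((w x).toReal : ℂ) * ((w (u x)).toReal : ℂ) * H x) μ ∧
      ∫ x, ‖((w x).toReal : ℂ) * ((w (u x)).toReal : ℂ) * H x‖ ∂μ ≤
        C * (∫⁻ x, w x * w (u x) ∂μ).toReal := by
  have hm : Measurable (fun x => w x * w (u x)) := hw.mul (hw.comp hu)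
  have hi : Integrable (fun x => (w x * w (u x)).toReal) μ :=
    integrable_toReal_of_lintegral_ne_top hm.aemeasurable ha
  have hi2 : Integrable (fun x => C * (w x * w (u x)).toReal) μ := hi.const_mul C
  have hb : ∀ x, ‖((w x).toReal : ℂ) * ((w (u x)).toReal : ℂ) * H x‖ ≤
      C * (w x * w (u x)).toReal := by
    intro x
    rw [norm_mul, norm_mul, Complex.norm_real, Complex.norm_real,
      Real.norm_of_nonneg ENNReal.toReal_nonneg, Real.norm_of_nonneg ENNReal.toReal_nonneg,
      ENNReal.toReal_mul, mul_comm C]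
    exact mul_le_mul_of_nonneg_left (hHb x)
      (mul_nonneg ENNReal.toReal_nonneg ENNReal.toReal_nonneg)
  have hmeas : Measurable (fun x => ((w x).toReal : ℂ) * ((w (u x)).toReal : ℂ) * H x) := by
    have h1 : Measurable (fun x => ((w x).toReal : ℂ)) :=
      Complex.measurable_ofReal.comp hw.ennreal_toReal
    have h2 : Measurable (fun x => ((w (u x)).toReal : ℂ)) :=
      Complex.measurable_ofReal.comp (hw.comp hu).ennreal_toReal
    exact (h1.mul h2).mul hH
  have hint : Integrable (fun x => ((w x).toReal : ℂ) * ((w (u x)).toReal : ℂ) * H x) μ :=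
    hi2.mono' hmeas.aestronglyMeasurable (Filter.Eventually.of_forall hb)
  refine ⟨hint, ?_⟩
  calc ∫ x, ‖((w x).toReal : ℂ) * ((w (u x)).toReal : ℂ) * H x‖ ∂μ
      ≤ ∫ x, C * (w x * w (u x)).toReal ∂μ := integral_mono hint.norm hi2 hb
    _ = C * (∫⁻ x, w x * w (u x) ∂μ).toReal := by
        rw [integral_const_mul, integral_toReal hm.aemeasurable (ae_lt_top hm ha)]

theorem adjoint_abstract {X : Type} [MeasurableSpace X] (μ : Measure X)
    {G : Type} [Group G] [Countable G] [MulAction G X]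
    (hG : ∀ g : G, MeasurePreserving (fun x : X => g • x) μ μ)
    {M : Type} [Countable M] (act : M → X → X) (hact : ∀ δ, MeasurePreserving (act δ) μ μ)
    (gm : G → M → M) (hgm : ∀ g δ x, act (gm g δ) x = g • act δ x)
    (ι : M → M) (hι : ∀ δ, ι (ι δ) = δ) (hιact : ∀ δ x, act (ι δ) (act δ x) = x)
    (H : M → X → ℂ) (hHm : ∀ δ, Measurable (H δ)) (hHg : ∀ g δ x, H (gm g δ) x = H δ x)
    (κ : ℂ) (hHι : ∀ δ x, H (ι δ) (act δ x) = κ * conj (H δ x))
    {C : ℝ} (hHb : ∀ δ x, ‖H δ x‖ ≤ C)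
    (w : X → ℝ≥0∞) (hw : Measurable w) (hw1 : ∀ᵐ x ∂μ, ∑' g : G, w (g • x) = 1)
    (hwi : ∫⁻ x, w x ∂μ < ∞)
    {R : Type} [Fintype R] (r : R → M)
    (hr : Function.Bijective fun q : G × R => gm q.1 (r q.2)) :
    ∑ i, ∫ x, ((w x).toReal : ℂ) * H (r i) x ∂μ =
      κ * conj (∑ i, ∫ x, ((w x).toReal : ℂ) * H (r i) x ∂μ) := by
  classical
  have hHb' : ∀ δ x, ‖H δ x‖ ≤ |C| := fun δ x => (hHb δ x).trans (le_abs_self C)
  let a : M → ℝ≥0∞ := fun δ => ∫⁻ x, w x * w (act δ x) ∂μ
  let S : M → ℂ := fun δ => ∫ x, ((w x).toReal : ℂ) * ((w (act δ x)).toReal : ℂ) * H δ x ∂μ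
  let e : G × R ≃ M := Equiv.ofBijective _ hr
  have he : ∀ q : G × R, e q = gm q.1 (r q.2) := fun q => rfl
  have hai : ∀ i, ∑' g, a (gm g (r i)) = ∫⁻ x, w x ∂μ := by
    intro i
    rw [← AdjA_mass μ hG (act (r i)) (hact _) w hw hw1]
    refine tsum_congr fun g => ?_
    simp only [a, hgm]
  have hasum : ∑' δ, a δ ≠ ∞ := by
    rw [← e.tsum_eq a]
    have h1 : ∑' q : G × R, a (e q) = ∑' (g : G) (i : R), a (gm g (r i)) :=
      ENNReal.tsum_prod (f := fun (g : G) (i : R) => a (gm g (r i)))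
    rw [h1, ENNReal.tsum_comm]
    simp only [hai]
    rw [tsum_fintype, Finset.sum_const, nsmul_eq_mul]
    exact ENNReal.mul_ne_top (ENNReal.natCast_ne_top _) hwi.ne
  have ha : ∀ δ, a δ ≠ ∞ := fun δ => ENNReal.ne_top_of_tsum_ne_top hasum δ
  have hsa : Summable fun δ => (a δ).toReal := ENNReal.summable_toReal hasum
  have hI : ∀ δ, Integrable (fun x => ((w x).toReal : ℂ) * ((w (act δ x)).toReal : ℂ) * H δ x) μ ∧
      ∫ x, ‖((w x).toReal : ℂ) * ((w (act δ x)).toReal : ℂ) * H δ x‖ ∂μ ≤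
        |C| * (∫⁻ x, w x * w (act δ x) ∂μ).toReal := fun δ =>
    AdjA_int μ w hw (act δ) (hact δ).measurable (H δ) (hHm δ) (hHb' δ) (ha δ)
  have hS : Summable S := by
    refine Summable.of_norm_bounded (g := fun δ => |C| * (a δ).toReal) (hsa.mul_left _) fun δ => ?_
    exact (norm_integral_le_integral_norm _).trans (hI δ).2
  -- step 1
  have h1 : ∀ i, HasSum (fun g => S (gm g (r i))) (∫ x, ((w x).toReal : ℂ) * H (r i) x ∂μ) := by
    intro i
    have hinj : Function.Injective (fun g : G => gm g (r i)) := by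
      intro g g' hgg
      have := hr.1 (a₁ := (g, i)) (a₂ := (g', i)) hgg
      exact congrArg Prod.fst this
    have hs : Summable fun g : G => ∫ x, ‖((w x).toReal : ℂ) *
        ((w (act (gm g (r i)) x)).toReal : ℂ) * H (gm g (r i)) x‖ ∂μ := by
      refine Summable.of_nonneg_of_le (fun g => integral_nonneg fun x => norm_nonneg _)
        (fun g => (hI (gm g (r i))).2) ?_
      exact (hsa.comp_injective hinj).mul_left _
    have h2 := hasSum_integral_of_summable_integral_norm (fun g => (hI (gm g (r i))).1) hs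
    have h3 : ∫ x, ∑' g : G, ((w x).toReal : ℂ) * ((w (act (gm g (r i)) x)).toReal : ℂ) *
        H (gm g (r i)) x ∂μ = ∫ x, ((w x).toReal : ℂ) * H (r i) x ∂μ := by
      refine integral_congr_ae ?_
      filter_upwards [(hact (r i)).quasiMeasurePreserving.ae hw1] with x hx
      have h4 : ∀ g : G, ((w x).toReal : ℂ) * ((w (act (gm g (r i)) x)).toReal : ℂ) *
          H (gm g (r i)) x = ((w x).toReal : ℂ) * H (r i) x *
            (((w (g • act (r i) x)).toReal : ℝ) : ℂ) := by
        intro g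
        rw [hgm, hHg]
        ring
      simp only [h4]
      rw [tsum_mul_left, ← Complex.ofReal_tsum]
      have h5 : ∑' g : G, (w (g • act (r i) x)).toReal = 1 := by
        rw [← ENNReal.tsum_toReal_eq, hx, ENNReal.toReal_one]
        intro g
        exact ENNReal.ne_top_of_tsum_ne_top (by rw [hx]; exact ENNReal.one_ne_top) g
      rw [h5, Complex.ofReal_one, mul_one]
    rw [h3] at h2
    exact h2
  -- step 2
  have h2 : ∑' δ, S δ = ∑ i, ∫ x, ((w x).toReal : ℂ) * H (r i) x ∂μ := by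
    have hq : HasSum (fun q : G × R => S (e q)) (∑' δ, S δ) :=
      (e.hasSum_iff (f := S)).2 hS.hasSum
    have hg : HasSum (fun g : G => ∑ i, S (gm g (r i))) (∑' δ, S δ) :=
      hq.prod_fiberwise (fun g => hasSum_fintype (fun i : R => S (e (g, i))))
    have hg2 : HasSum (fun g : G => ∑ i, S (gm g (r i)))
        (∑ i, ∫ x, ((w x).toReal : ℂ) * H (r i) x ∂μ) := hasSum_sum fun i _ => h1 i
    exact hg.unique hg2
  -- step 3
  have h3 : ∀ δ, S (ι δ) = κ * conj (S δ) := by
    intro δ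
    have hmeas : Measurable (fun x => ((w x).toReal : ℂ) * ((w (act (ι δ) x)).toReal : ℂ) *
        H (ι δ) x) := by
      have e1 : Measurable (fun x => ((w x).toReal : ℂ)) :=
        Complex.measurable_ofReal.comp hw.ennreal_toReal
      have e2 : Measurable (fun x => ((w (act (ι δ) x)).toReal : ℂ)) :=
        Complex.measurable_ofReal.comp (hw.comp (hact (ι δ)).measurable).ennreal_toReal
      exact (e1.mul e2).mul (hHm _)
    have h4 : S (ι δ) = ∫ y, ((w (act δ y)).toReal : ℂ) *
        ((w (act (ι δ) (act δ y))).toReal : ℂ) * H (ι δ) (act δ y) ∂μ := by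
      have h5 := integral_map (μ := μ) (hact δ).measurable.aemeasurable
        (f := fun x => ((w x).toReal : ℂ) * ((w (act (ι δ) x)).toReal : ℂ) * H (ι δ) x)
        hmeas.aestronglyMeasurable
      rw [(hact δ).map_eq] at h5
      exact h5
    rw [h4]
    have h6 : ∀ y, ((w (act δ y)).toReal : ℂ) *
        ((w (act (ι δ) (act δ y))).toReal : ℂ) * H (ι δ) (act δ y) =
        κ * conj (((w y).toReal : ℂ) * ((w (act δ y)).toReal : ℂ) * H δ y) := by
      intro y
      rw [hιact, hHι, map_mul, map_mul, Complex.conj_ofReal, Complex.conj_ofReal]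
      ring
    simp only [h6]
    rw [integral_const_mul, integral_conj]
  -- step 4
  have hinv : Function.Involutive ι := hι
  have h4 : ∑' δ, S δ = κ * conj (∑' δ, S δ) := by
    calc ∑' δ, S δ = ∑' δ, S (ι δ) := ((hinv.toPerm ι).tsum_eq S).symm
      _ = ∑' δ, κ * conj (S δ) := tsum_congr h3
      _ = κ * conj (∑' δ, S δ) := by
        rw [tsum_mul_left, Complex.conj_tsum]
  rw [← h2]
  exact h4

end Pool.Agent.Maass74
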