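import Pool.Agent.W_7742m_h74.Defs

/-!
# Maass forms as periodic functions of two real variables

* `continuous_form`: `f z = coord f (Re z) (Im z)` (`ofComplex_apply`), and `coord f` is continuous
  on `y > 0`.
* `norm_smul`: for `γ ∈ Γ₀(N)` the lower right entry `d` is a unit modulo `N`
  (`a d - b c = 1`, `N ∣ c`), so `‖χ d‖ = 1` (`DirichletCharacter.unit_norm_eq_one`).
* `bounded`: `ModularGroup.exists_bound_of_subgroup_invariant_of_isBigO` with `t = 0`, applied to
  the function `z ↦ ‖f z‖` and `Γ = Γ₀(N)` (finite index: `instFiniteIndexGamma0`).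
* `isWave_coord`: `contDiff`, `eigenvalue` are the same; `periodic`: automorphy for `T`
  (`ModularGroup.T ∈ Γ₀(N)`, `χ 1 = 1`, `ModularGroup.coe_T_zpow_smul_eq`); `decay`: `cuspidal` for
  `γ = 1` (`isZeroAtImInfty_iff`); `bdd`: `bounded`.
-/

set_option autoImplicit false

noncomputable section

namespace Pool.Agent.Maass74

open UpperHalfPlane CongruenceSubgroup Filter Topology
open scoped MatrixGroups

theorem Frm_coord_eq (f : ℍ → ℂ) (z : ℍ) : coord f z.re z.im = f z := by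
  unfold coord
  have h : ((z.re : ℝ) : ℂ) + ((z.im : ℝ) : ℂ) * Complex.I = (z : ℂ) := Complex.re_add_im (z : ℂ)
  rw [h, ofComplex_apply]

theorem continuous_form {N : ℕ} {χ : DirichletCharacter ℂ N} {f : ℍ → ℂ}
    (hf : IsMaassCuspForm N χ f) : Continuous f := by
  have h1 : f = (fun q : ℝ × ℝ => coord f q.1 q.2) ∘ (fun z : ℍ => (z.re, z.im)) := by
    funext z
    exact (Frm_coord_eq f z).symm
  rw [h1]
  exact hf.contDiff.continuousOn.comp_continuous
    (UpperHalfPlane.continuous_re.prodMk UpperHalfPlane.continuous_im) (fun z => z.im_pos)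

theorem norm_smul_eq {N : ℕ} {χ : DirichletCharacter ℂ N} {f : ℍ → ℂ}
    (hf : IsMaassCuspForm N χ f) {γ : SL(2, ℤ)} (hγ : γ ∈ Gamma0 N) (z : ℍ) :
    ‖f (γ • z)‖ = ‖f z‖ := by
  rw [hf.automorphic γ hγ z, norm_mul]
  have hu : IsUnit ((γ 1 1 : ℤ) : ZMod N) := by
    have hc : ((γ 1 0 : ℤ) : ZMod N) = 0 := Gamma0_mem.1 hγ
    have hdet : γ 0 0 * γ 1 1 - γ 0 1 * γ 1 0 = 1 := by
      have h := γ.det_coe
      rw [Matrix.det_fin_two] at h
      exact h
    have h : ((γ 0 0 : ℤ) : ZMod N) * ((γ 1 1 : ℤ) : ZMod N) = 1 := by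
      have h1 := congrArg (Int.cast : ℤ → ZMod N) hdet
      rw [Int.cast_sub, Int.cast_mul, Int.cast_mul, hc, mul_zero, sub_zero, Int.cast_one] at h1
      exact h1
    exact IsUnit.of_mul_eq_one _ (by rw [mul_comm]; exact h)
  obtain ⟨u, hu⟩ := hu
  rw [← hu, DirichletCharacter.unit_norm_eq_one, one_mul]

theorem bounded {N : ℕ} [NeZero N] {χ : DirichletCharacter ℂ N} {f : ℍ → ℂ}
    (hf : IsMaassCuspForm N χ f) : ∃ C : ℝ, ∀ z, ‖f z‖ ≤ C := by
  have h0 : ∀ g : SL(2, ℤ), (fun τ : ℍ => ‖f (g • τ)‖) =O[atImInfty]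
      fun z : ℍ => (z.im : ℝ) ^ (0 : ℝ) := by
    intro g
    have h1 := (hf.cuspidal g).isBoundedAtImInfty
    have h2 : (fun z : ℍ => (z.im : ℝ) ^ (0 : ℝ)) = (1 : ℍ → ℝ) := by
      funext z
      exact Real.rpow_zero _
    rw [h2]
    exact Asymptotics.IsBigO.norm_left h1
  obtain ⟨C, hC⟩ := ModularGroup.exists_bound_of_subgroup_invariant_of_isBigO
    (f := fun z => ‖f z‖) (continuous_form hf).norm (t := 0) le_rfl h0 (Γ := Gamma0 N)
    (fun g hg τ => norm_smul_eq hf hg τ)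
  refine ⟨C, fun z => ?_⟩
  have h := hC z
  rw [norm_norm, Real.rpow_zero, mul_one] at h
  exact h

theorem isWave_coord {N : ℕ} [NeZero N] {χ : DirichletCharacter ℂ N} {f : ℍ → ℂ}
    (hf : IsMaassCuspForm N χ f) : IsWave (coord f) := by
  refine ⟨hf.contDiff, hf.eigenvalue, ?_, ?_, ?_⟩
  · intro x y hy
    obtain ⟨z, hz⟩ : ∃ z : ℍ, (z : ℂ) = x + y * Complex.I := by
      refine ⟨⟨x + y * Complex.I, ?_⟩, rfl⟩
      simpa using hy
    have h1 : ModularGroup.T ∈ Gamma0 N := by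
      rw [Gamma0_mem]
      simp [ModularGroup.T]
    have h2 := hf.automorphic _ h1 z
    have h3 : (ModularGroup.T 1 1 : ℤ) = 1 := by
      simp [ModularGroup.T]
    rw [h3, Int.cast_one, map_one, one_mul] at h2
    have h4 : ((ModularGroup.T • z : ℍ) : ℂ) = ((x + 1 : ℝ) : ℂ) + y * Complex.I := by
      have h5 := ModularGroup.coe_T_zpow_smul_eq (z := z) (n := 1)
      rw [zpow_one] at h5
      rw [h5, hz]
      push_cast
      ring
    unfold coord
    rw [← h4, ← hz, ofComplex_apply, ofComplex_apply]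
    exact h2
  · intro ε hε
    obtain ⟨A, hA⟩ := isZeroAtImInfty_iff.1 (hf.cuspidal 1) ε hε
    refine ⟨max A 1, lt_of_lt_of_le one_pos (le_max_right _ _), fun x y hy => ?_⟩
    have hy0 : 0 < y := lt_of_lt_of_le one_pos (le_trans (le_max_right _ _) hy)
    obtain ⟨z, hz⟩ : ∃ z : ℍ, (z : ℂ) = x + y * Complex.I := by
      refine ⟨⟨x + y * Complex.I, ?_⟩, rfl⟩
      simpa using hy0
    have him : z.im = y := by
      rw [← UpperHalfPlane.coe_im, hz]
      simp
    have h1 := hA z (by rw [him]; exact le_trans (le_max_left _ _) hy)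
    rw [one_smul] at h1
    unfold coord
    rw [← hz, ofComplex_apply]
    exact h1
  · obtain ⟨C, hC⟩ := bounded hf
    exact ⟨C, fun x y _ => hC _⟩

end Pool.Agent.Maass74
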