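import Pool.Agent.W_7742m_h74.Mat

/-!
# Representatives of `Γ₀(N) \ HM N p`

Let `p` be a prime not dividing `N`.  Let `δ = (a, b; c, d) ∈ HM N p`, `g = gcd (a, c)`, which
divides `p`, so `g = 1` or `g = p`, and `N ∣ c / g` as `g` is prime to `N`.  Choose `u`, `v` with
`u (a / g) + v (c / g) = 1`; then `γ = (u, v; -c / g, a / g) ∈ Γ₀(N)` and `γ δ = (g, *; 0, p / g)`.
Multiplying from the left by a power of `T` we get `(1, b; 0, p)` with `0 ≤ b < p` (if `g = 1`) or
`(p, 0; 0, 1)` (if `g = p`).  Uniqueness: if `γ r = γ' r'` for representatives `r`, `r'`, put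
`γ₀ = γ'⁻¹ γ` and compare the entries of `γ₀ r = r'`: `γ₀` has lower left entry `0`, so it is
`± (1, t; 0, 1)`, the sign is `+`, and then `t = 0`, `r = r'`.
-/

set_option autoImplicit false

noncomputable section

namespace Pool.Agent.Maass74

open CongruenceSubgroup
open scoped MatrixGroups

private theorem Reps_entries_none {N p : ℕ} (γ : Gamma0 N) (δ : HM N p)
    (h : HM.gm γ (HM.rep N p none) = δ) :
    (γ : SL(2, ℤ)) 0 0 * p = δ.1 0 0 ∧ (γ : SL(2, ℤ)) 0 1 = δ.1 0 1 ∧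
      (γ : SL(2, ℤ)) 1 0 * p = δ.1 1 0 ∧ (γ : SL(2, ℤ)) 1 1 = δ.1 1 1 := by
  subst h
  simp [HM.gm, HM.rep, Matrix.mul_apply, Fin.sum_univ_two]

private theorem Reps_entries_some {N p : ℕ} (γ : Gamma0 N) (b : Fin p) (δ : HM N p)
    (h : HM.gm γ (HM.rep N p (some b)) = δ) :
    (γ : SL(2, ℤ)) 0 0 = δ.1 0 0 ∧
      (γ : SL(2, ℤ)) 0 0 * ((b : ℕ) : ℤ) + (γ : SL(2, ℤ)) 0 1 * p = δ.1 0 1 ∧
      (γ : SL(2, ℤ)) 1 0 = δ.1 1 0 ∧
      (γ : SL(2, ℤ)) 1 0 * ((b : ℕ) : ℤ) + (γ : SL(2, ℤ)) 1 1 * p = δ.1 1 1 := by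
  subst h
  simp [HM.gm, HM.rep, Matrix.mul_apply, Fin.sum_univ_two]

private theorem Reps_ext {N : ℕ} (γ γ' : Gamma0 N)
    (h00 : (γ : SL(2, ℤ)) 0 0 = (γ' : SL(2, ℤ)) 0 0) (h01 : (γ : SL(2, ℤ)) 0 1 = (γ' : SL(2, ℤ)) 0 1)
    (h10 : (γ : SL(2, ℤ)) 1 0 = (γ' : SL(2, ℤ)) 1 0) (h11 : (γ : SL(2, ℤ)) 1 1 = (γ' : SL(2, ℤ)) 1 1) :
    γ = γ' := by
  apply Subtype.ext
  ext i j
  fin_cases i <;> fin_cases j <;> assumption

private theorem Reps_det {N : ℕ} (γ : Gamma0 N) :
    (γ : SL(2, ℤ)) 0 0 * (γ : SL(2, ℤ)) 1 1 - (γ : SL(2, ℤ)) 0 1 * (γ : SL(2, ℤ)) 1 0 = 1 := by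
  have := Matrix.SpecialLinearGroup.det_coe (γ : SL(2, ℤ))
  rw [Matrix.det_fin_two] at this
  exact this

private theorem Reps_mk {N p : ℕ} (δ : HM N p) (o : Option (Fin p)) (a b c d : ℤ) (hdet : a * d - b * c = 1)
    (hc : (N : ℤ) ∣ c) (h : !![a, b; c, d] * (HM.rep N p o).1 = δ.1) :
    ∃ q : Gamma0 N × Option (Fin p), HM.gm q.1 (HM.rep N p q.2) = δ := by
  exact ⟨(⟨⟨!![a, b; c, d], by rw [Matrix.det_fin_two_of]; exact hdet⟩,
    Gamma0_mem.2 ((ZMod.intCast_zmod_eq_zero_iff_dvd _ _).2 hc)⟩, o), Subtype.ext h⟩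

theorem HM.bijective_rep {N p : ℕ} (hp : p.Prime) (hN : ¬ p ∣ N) :
    Function.Bijective fun q : Gamma0 N × Option (Fin p) => HM.gm q.1 (HM.rep N p q.2) := by
  have hp0 : (p : ℤ) ≠ 0 := by exact_mod_cast hp.ne_zero
  have hp' : Prime (p : ℤ) := Nat.prime_iff_prime_int.1 hp
  have key : ∀ (γ γ' : Gamma0 N) (b : Fin p),
      HM.gm γ (HM.rep N p none) ≠ HM.gm γ' (HM.rep N p (some b)) := by
    intro γ γ' b h
    obtain ⟨h1, -, h3, -⟩ := Reps_entries_none γ _ h
    obtain ⟨h5, -, h7, -⟩ := Reps_entries_some γ' b _ rfl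
    have hd := Reps_det γ'
    rw [h5, h7, ← h1, ← h3] at hd
    have : (p : ℤ) ∣ 1 := by
      rw [← hd]
      exact ⟨(γ : SL(2, ℤ)) 0 0 * (γ' : SL(2, ℤ)) 1 1 - (γ' : SL(2, ℤ)) 0 1 * (γ : SL(2, ℤ)) 1 0, by ring⟩
    exact hp'.not_dvd_one this
  constructor
  · rintro ⟨γ, o⟩ ⟨γ', o'⟩ h
    change HM.gm γ (HM.rep N p o) = HM.gm γ' (HM.rep N p o') at h
    cases o with
    | none =>
      cases o' with
      | none =>
        obtain ⟨h1, h2, h3, h4⟩ := Reps_entries_none γ _ h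
        obtain ⟨h5, h6, h7, h8⟩ := Reps_entries_none γ' _ rfl
        rw [← h5] at h1
        rw [← h7] at h3
        have e := Reps_ext γ γ' (mul_right_cancel₀ hp0 h1) (h2.trans h6.symm) (mul_right_cancel₀ hp0 h3)
          (h4.trans h8.symm)
        rw [e]
      | some b' => exact absurd h (key _ _ _)
    | some b =>
      cases o' with
      | none => exact absurd h.symm (key _ _ _)
      | some b' =>
        obtain ⟨h1, h2, h3, h4⟩ := Reps_entries_some γ b _ h
        obtain ⟨h5, h6, h7, h8⟩ := Reps_entries_some γ' b' _ rfl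
        rw [← h5] at h1
        rw [← h6] at h2
        rw [← h7] at h3
        rw [← h8] at h4
        have hd := Reps_det γ
        rw [h1] at h2 hd
        rw [h3] at h4 hd
        set x := (γ' : SL(2, ℤ)) 0 0
        set z := (γ' : SL(2, ℤ)) 1 0
        set y := (γ : SL(2, ℤ)) 0 1
        set w := (γ : SL(2, ℤ)) 1 1
        set y' := (γ' : SL(2, ℤ)) 0 1
        set w' := (γ' : SL(2, ℤ)) 1 1
        have hb : (p : ℤ) ∣ ((b : ℕ) : ℤ) - ((b' : ℕ) : ℤ) := by
          refine ⟨w * (y' - y) - y * (w' - w), ?_⟩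
          linear_combination (-((b : ℕ) : ℤ) + ((b' : ℕ) : ℤ)) * hd + w * h2 - y * h4
        have hbb : (b : ℕ) = (b' : ℕ) := by
          have h9 := b.2
          have h10 := b'.2
          have h11 : ((b : ℕ) : ℤ) - ((b' : ℕ) : ℤ) = 0 := by
            apply Int.eq_zero_of_abs_lt_dvd hb
            rw [abs_lt]
            constructor <;> omega
          omega
        have hbe : b = b' := Fin.ext hbb
        subst hbe
        have e := Reps_ext γ γ' h1 (mul_right_cancel₀ hp0 (by linarith)) h3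
          (mul_right_cancel₀ hp0 (by linarith))
        rw [e]
  · intro δ
    obtain ⟨hdet, hNc⟩ := δ.2
    rw [Matrix.det_fin_two] at hdet
    set a := δ.1 0 0 with ha
    set b := δ.1 0 1 with hb
    set c := δ.1 1 0 with hc
    set d := δ.1 1 1 with hd
    have hδ : δ.1 = !![a, b; c, d] := Matrix.eta_fin_two δ.1
    by_cases hdiv : (p : ℤ) ∣ a ∧ (p : ℤ) ∣ c
    · obtain ⟨⟨a', ha'⟩, ⟨c', hc'⟩⟩ := hdiv
      apply Reps_mk δ none a' b c' d
      · apply mul_left_cancel₀ hp0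
        rw [ha', hc'] at hdet
        linarith
      · rw [hc'] at hNc
        have hcop : IsCoprime (N : ℤ) (p : ℤ) := by
          rw [Nat.isCoprime_iff_coprime]
          exact ((Nat.Prime.coprime_iff_not_dvd hp).2 hN).symm
        exact hcop.dvd_of_dvd_mul_left hNc
      · rw [hδ]
        ext i j
        fin_cases i <;> fin_cases j <;> simp [HM.rep, Matrix.mul_apply, Fin.sum_univ_two, ha', hc', mul_comm]
    · have hcop : IsCoprime a c := by
        rw [Int.isCoprime_iff_gcd_eq_one]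
        have h1 : ((Int.gcd a c : ℕ) : ℤ) ∣ p := by
          rw [← hdet]
          exact dvd_sub ((Int.gcd_dvd_left _ _).mul_right _) ((Int.gcd_dvd_right _ _).mul_left _)
        have h2 : Int.gcd a c ∣ p := by exact_mod_cast h1
        rcases (Nat.dvd_prime hp).1 h2 with h3 | h3
        · exact h3
        · exfalso
          apply hdiv
          have h4 := Int.gcd_dvd_left a c
          have h5 := Int.gcd_dvd_right a c
          rw [h3] at h4 h5
          exact ⟨h4, h5⟩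
      obtain ⟨u, v, huv⟩ := hcop
      set t := u * b + v * d with ht
      have hpos : (0 : ℤ) < p := by exact_mod_cast hp.pos
      have h0 : 0 ≤ t % p := Int.emod_nonneg _ hp0
      have h1 : t % p < p := Int.emod_lt_of_pos _ hpos
      have h2 := Int.emod_add_mul_ediv t p
      have h3 : ((t % p).toNat : ℤ) = t % p := Int.toNat_of_nonneg h0
      apply Reps_mk δ (some ⟨(t % p).toNat, by omega⟩) a (a * (t / p) - v) c (c * (t / p) + u)
      · linear_combination huv
      · exact hNc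
      · rw [hδ]
        have e1 : a * (t % p) + (a * (t / p) - v) * p = b := by
          linear_combination a * h2 + a * ht + b * huv + v * hdet
        have e2 : c * (t % p) + (c * (t / p) + u) * p = d := by
          linear_combination c * h2 + c * ht + d * huv - u * hdet
        ext i j
        fin_cases i <;> fin_cases j <;>
          simp [HM.rep, Matrix.mul_apply, Fin.sum_univ_two, h3, e1, e2]

end Pool.Agent.Maass74
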