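import Pool.Agent.W_7742m_h74.Cnt

/-!
# A weight function for `Γ₀(N)`

Put `w z = (1 / 2) ∑_q 1_𝒟 (q z)`, the sum over a system of representatives `q` (`Quotient.out`)
of the finite set `SL(2, ℤ) ⧸ Γ₀(N)` of left cosets.  Then
`∑_{γ ∈ Γ₀(N)} w (γ z) = (1 / 2) ∑_q ∑_γ 1_𝒟 (q γ z) = (1 / 2) ∑_{g ∈ SL(2, ℤ)} 1_𝒟 (g z) = 1`
for almost all `z` (`Subgroup.groupEquivQuotientProdSubgroup`, `ae_count`), and
`∫ w = (1 / 2) ∑_q vol (q⁻¹ 𝒟) < ∞` (`volume_fd_lt_top`, invariance of the measure).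
-/

set_option autoImplicit false

noncomputable section

namespace Pool.Agent.Maass74

open UpperHalfPlane MeasureTheory ENNReal CongruenceSubgroup
open scoped MatrixGroups

/-- The product of a representative of a left coset and an element of the subgroup. -/
theorem coset_bij {G : Type*} [Group G] (H : Subgroup G) :
    Function.Bijective (fun x : (G ⧸ H) × H => x.1.out * (x.2 : G)) := by
  constructor
  · rintro ⟨q, a⟩ ⟨r, b⟩ h
    have h0 : q.out * (a : G) = r.out * (b : G) := h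
    have hq : ((q.out * (a : G) : G) : G ⧸ H) = q := by
      rw [QuotientGroup.mk_mul_of_mem _ a.2]
      exact Quotient.out_eq' q
    have hr : ((r.out * (b : G) : G) : G ⧸ H) = r := by
      rw [QuotientGroup.mk_mul_of_mem _ b.2]
      exact Quotient.out_eq' r
    have hqr : q = r := by rw [← hq, ← hr, h0]
    subst hqr
    have hab : (a : G) = b := mul_left_cancel h0
    exact Prod.ext rfl (Subtype.ext hab)
  · intro g
    have hm : ((g : G ⧸ H)).out⁻¹ * g ∈ H := by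
      rw [← QuotientGroup.eq]
      exact Quotient.out_eq' _
    exact ⟨((g : G ⧸ H), ⟨_, hm⟩), by simp⟩

theorem continuous_sl_smul (g : SL(2, ℤ)) : Continuous (fun z : ℍ => g • z) := by
  have h : Continuous (fun z : ℍ => (g : GL (Fin 2) ℝ) • z) := continuous_const_smul _
  exact h

theorem lintegral_fd_smul (g : SL(2, ℤ)) :
    ∫⁻ z : ℍ, ModularGroup.fd.indicator (fun _ => (1 : ℝ≥0∞)) (g • z) =
      volume ModularGroup.fd := by
  have hmp : MeasurePreserving (fun z : ℍ => (g : GL (Fin 2) ℝ) • z) volume volume :=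
    measurePreserving_smul _ _
  have hm : Measurable (ModularGroup.fd.indicator (fun _ : ℍ => (1 : ℝ≥0∞))) :=
    measurable_const.indicator ModularGroup.isClosed_fd.measurableSet
  have h1 := hmp.lintegral_comp hm
  have h2 : ∫⁻ z : ℍ, ModularGroup.fd.indicator (fun _ : ℍ => (1 : ℝ≥0∞)) z =
      volume ModularGroup.fd := by
    rw [lintegral_indicator ModularGroup.isClosed_fd.measurableSet]
    simp
  rw [h2] at h1
  exact h1

theorem exists_weight (N : ℕ) [NeZero N] : ∃ w : ℍ → ℝ≥0∞, Measurable w ∧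
    (∀ᵐ z : ℍ, ∑' γ : Gamma0 N, w ((γ : SL(2, ℤ)) • z) = 1) ∧ ∫⁻ z, w z < ∞ := by
  classical
  have hfin : Finite (SL(2, ℤ) ⧸ Gamma0 N) := inferInstance
  let hft : Fintype (SL(2, ℤ) ⧸ Gamma0 N) := Fintype.ofFinite _
  have hm1 : Measurable (ModularGroup.fd.indicator (fun _ : ℍ => (1 : ℝ≥0∞))) :=
    measurable_const.indicator ModularGroup.isClosed_fd.measurableSet
  have hm2 : ∀ g : SL(2, ℤ),
      Measurable (fun z : ℍ => ModularGroup.fd.indicator (fun _ => (1 : ℝ≥0∞)) (g • z)) :=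
    fun g => hm1.comp (continuous_sl_smul g).measurable
  refine ⟨fun z => (2 : ℝ≥0∞)⁻¹ * ∑ q : SL(2, ℤ) ⧸ Gamma0 N,
    ModularGroup.fd.indicator (fun _ => (1 : ℝ≥0∞)) (q.out • z), ?_, ?_, ?_⟩
  · exact (Finset.measurable_fun_sum _ fun q _ => hm2 q.out).const_mul _
  · filter_upwards [ae_count] with z hz
    rw [ENNReal.tsum_mul_left]
    have h1 : ∑' γ : Gamma0 N, ∑ q : SL(2, ℤ) ⧸ Gamma0 N,
        ModularGroup.fd.indicator (fun _ => (1 : ℝ≥0∞)) (q.out • (γ : SL(2, ℤ)) • z) =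
        ∑' g : SL(2, ℤ), ModularGroup.fd.indicator (fun _ => (1 : ℝ≥0∞)) (g • z) := by
      have h2 : ∑' x : (SL(2, ℤ) ⧸ Gamma0 N) × Gamma0 N,
          ModularGroup.fd.indicator (fun _ => (1 : ℝ≥0∞)) ((x.1.out * (x.2 : SL(2, ℤ))) • z) =
          ∑' g : SL(2, ℤ), ModularGroup.fd.indicator (fun _ => (1 : ℝ≥0∞)) (g • z) :=
        (Equiv.ofBijective _ (coset_bij (Gamma0 N))).tsum_eq
          (fun g : SL(2, ℤ) => ModularGroup.fd.indicator (fun _ => (1 : ℝ≥0∞)) (g • z))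
      have h3 : ∑' x : (SL(2, ℤ) ⧸ Gamma0 N) × Gamma0 N,
          ModularGroup.fd.indicator (fun _ => (1 : ℝ≥0∞)) ((x.1.out * (x.2 : SL(2, ℤ))) • z) =
          ∑' (q : SL(2, ℤ) ⧸ Gamma0 N) (γ : Gamma0 N),
            ModularGroup.fd.indicator (fun _ => (1 : ℝ≥0∞)) ((q.out * (γ : SL(2, ℤ))) • z) :=
        ENNReal.tsum_prod (f := fun (q : SL(2, ℤ) ⧸ Gamma0 N) (γ : Gamma0 N) =>
          ModularGroup.fd.indicator (fun _ => (1 : ℝ≥0∞)) ((q.out * (γ : SL(2, ℤ))) • z))
      rw [← h2, h3, ENNReal.tsum_comm]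
      refine tsum_congr fun γ => ?_
      rw [tsum_fintype]
      refine Finset.sum_congr rfl fun q _ => ?_
      rw [mul_smul]
    rw [h1, hz]
    exact ENNReal.inv_mul_cancel (by simp) (by simp)
  · rw [lintegral_const_mul _ (Finset.measurable_fun_sum _ fun q _ => hm2 q.out),
      lintegral_finsetSum _ (fun q _ => hm2 q.out)]
    simp_rw [lintegral_fd_smul]
    rw [Finset.sum_const, nsmul_eq_mul]
    exact ENNReal.mul_lt_top (by simp)
      (ENNReal.mul_lt_top (ENNReal.natCast_lt_top _) volume_fd_lt_top)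

end Pool.Agent.Maass74
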