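import Pool.Agent.W_7742m_h74.AdjA
import Pool.Agent.W_7742m_h74.Reps
import Pool.Agent.W_7742m_h74.Wt
import Pool.Agent.W_7742m_h74.Frm

/-!
# The eigenvalues of the Hecke operators are real up to the character

Apply `adjoint_abstract` to `X = ℍ`, `G = Γ₀(N)`, `M = HM N p`, `ι = HM.adj`,
`H δ z = χ(a) f(δ z) conj (f z)` where `a = δ 0 0`, and `κ = χ p`.

* `H (γ δ) z = H δ z`: the upper left entry of `γ δ` is `≡ (γ 0 0) a` modulo `N`, and
  `f(γ δ z) = χ(γ 1 1) f(δ z)`, `χ(γ 0 0) χ(γ 1 1) = χ(1) = 1`.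
* `H (adj δ) (δ z) = χ(d) f(z) conj (f(δ z))` (`d = δ 1 1`), and `a d ≡ p` modulo `N`, so that
  `χ(d) = χ(p) conj (χ(a))` (`‖χ a‖ = 1` as `a` is a unit modulo `N`).
* `H` is bounded (`bounded`) and measurable (`continuous_form`).

With the representatives `HM.rep N p` the sum is `√p a_p I` with `I = ∫ w ‖f‖ ^ 2`, by the equation
`T_p f = a_p f`.  So `√p a_p I = χ(p) √p conj (a_p) I`.  Here `0 < I < ∞`: if `I = 0` then
`w ‖f‖ ^ 2 = 0` almost everywhere, hence for almost all `z` we have `w (γ z) ‖f(γ z)‖ ^ 2 = 0` for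
all `γ ∈ Γ₀(N)`, and summing over `γ` (`‖f(γ z)‖ = ‖f z‖`, `norm_smul_eq`) `‖f z‖ ^ 2 = 0` for
almost all `z`; `f` is continuous and the measure is positive on nonempty open sets, so `f = 0`.
-/

set_option autoImplicit false

noncomputable section

namespace Pool.Agent.Maass74

open UpperHalfPlane MeasureTheory ENNReal CongruenceSubgroup ComplexConjugate
open scoped MatrixGroups

instance isOpenPos_volume : (volume : Measure ℍ).IsOpenPosMeasure := by
  refine ⟨fun U hU hne h0 => ?_⟩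
  rw [volume_eq_lintegral] at h0
  have hopen : IsOpen ((UpperHalfPlane.coe) '' U) := isOpenEmbedding_coe.isOpenMap U hU
  have hne' : ((UpperHalfPlane.coe) '' U).Nonempty := hne.image _
  have hmeas : Measurable fun z : ℂ => (((1 / ‖z.im‖₊) ^ 2 : NNReal) : ℝ≥0∞) := by
    fun_prop
  have hpos : 0 < ∫⁻ z : ℂ in (UpperHalfPlane.coe) '' U,
      (((1 / ‖z.im‖₊) ^ 2 : NNReal) : ℝ≥0∞) := by
    rw [setLIntegral_pos_iff hmeas]
    have hsub : (UpperHalfPlane.coe) '' U ⊆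
        (Function.support fun z : ℂ => (((1 / ‖z.im‖₊) ^ 2 : NNReal) : ℝ≥0∞)) ∩
          (UpperHalfPlane.coe) '' U := by
      rintro _ ⟨z, hz, rfl⟩
      refine ⟨?_, ⟨z, hz, rfl⟩⟩
      rw [Function.mem_support]
      have h1 : z.im ≠ 0 := z.im_ne_zero
      simp [h1]
    exact lt_of_lt_of_le (hopen.measure_pos _ hne') (measure_mono hsub)
  exact hpos.ne' h0

/-- A continuous function on `ℍ` which vanishes almost everywhere is zero. -/
theorem eq_zero_of_ae {f : ℍ → ℂ} (hf : Continuous f) (h : ∀ᵐ z : ℍ, f z = 0) (z : ℍ) :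
    f z = 0 := by
  have h1 : f =ᵐ[volume] (fun _ => (0 : ℂ)) := h
  have h2 := (hf.ae_eq_iff_eq volume continuous_const).1 h1
  exact congrFun h2 z

theorem countable_gamma (N : ℕ) : Countable (Gamma0 N) := by
  have h1 : Countable (Matrix (Fin 2) (Fin 2) ℤ) := inferInstanceAs (Countable (Fin 2 → Fin 2 → ℤ))
  have h2 : Countable SL(2, ℤ) := Subtype.countable
  exact Subtype.countable

theorem measurePreserving_gamma {N : ℕ} (γ : Gamma0 N) :
    MeasurePreserving (fun z : ℍ => (γ : SL(2, ℤ)) • z) volume volume := by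
  have h : (fun z : ℍ => (γ : SL(2, ℤ)) • z) =
      fun z : ℍ => (((γ : SL(2, ℤ)) : GL (Fin 2) ℝ)) • z := by
    funext z
    exact ModularGroup.sl_moeb _ _
  rw [h]
  exact measurePreserving_smul _ _

theorem integrable_weight {w : ℍ → ℝ≥0∞} (hw : Measurable w) (hwi : ∫⁻ z, w z < ∞)
    {g : ℍ → ℂ} (hg : Measurable g) {C : ℝ} (hC : ∀ z, ‖g z‖ ≤ C) :
    Integrable (fun z => ((w z).toReal : ℂ) * g z) volume := by
  have h1 : Integrable (fun z => (w z).toReal) volume :=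
    integrable_toReal_of_lintegral_ne_top hw.aemeasurable hwi.ne
  have h2 : Integrable (fun z => ((w z).toReal : ℂ)) volume := h1.ofReal
  exact h2.mul_bdd hg.aestronglyMeasurable (Filter.Eventually.of_forall hC)

/-- The Petersson norm is positive. -/
theorem norm_pos {N : ℕ} [NeZero N] {χ : DirichletCharacter ℂ N} {f : ℍ → ℂ}
    (hf : IsMaassCuspForm N χ f) (h0 : ∃ z, f z ≠ 0) {w : ℍ → ℝ≥0∞} (hw : Measurable w)
    (hw1 : ∀ᵐ z : ℍ, ∑' γ : Gamma0 N, w ((γ : SL(2, ℤ)) • z) = 1) (hwi : ∫⁻ z, w z < ∞) :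
    0 < ∫ z, (w z).toReal * ‖f z‖ ^ 2 := by
  have := countable_gamma N
  have hcont := continuous_form hf
  obtain ⟨C, hC⟩ := bounded hf
  have hnn : ∀ z, 0 ≤ (w z).toReal * ‖f z‖ ^ 2 := fun z => by positivity
  have hint : Integrable (fun z => (w z).toReal * ‖f z‖ ^ 2) volume := by
    have h1 : Integrable (fun z => (w z).toReal) volume :=
      integrable_toReal_of_lintegral_ne_top hw.aemeasurable hwi.ne
    refine h1.mul_bdd (c := C ^ 2) (g := fun z => ‖f z‖ ^ 2)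
      (hcont.norm.pow 2).measurable.aestronglyMeasurable
      (Filter.Eventually.of_forall fun z => ?_)
    rw [norm_pow, norm_norm]
    exact pow_le_pow_left₀ (norm_nonneg _) (hC z) 2
  rcases (integral_nonneg (μ := volume) (f := fun z => (w z).toReal * ‖f z‖ ^ 2)
    hnn).lt_or_eq with h | h
  · exact h
  exfalso
  have hz := (integral_eq_zero_iff_of_nonneg hnn hint).1 h.symm
  have hfin : ∀ᵐ z : ℍ, w z < ∞ := ae_lt_top hw hwi.ne
  have h3 : ∀ᵐ z : ℍ, w z = 0 ∨ f z = 0 := by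
    filter_upwards [hz, hfin] with z hz1 hz2
    have hz3 : (w z).toReal * ‖f z‖ ^ 2 = 0 := hz1
    rcases mul_eq_zero.1 hz3 with h4 | h4
    · left
      rcases (ENNReal.toReal_eq_zero_iff _).1 h4 with h5 | h5
      · exact h5
      · exact absurd h5 hz2.ne
    · right
      exact norm_eq_zero.1 (pow_eq_zero_iff (two_ne_zero)|>.1 h4)
  have h4 : ∀ᵐ z : ℍ, ∀ γ : Gamma0 N,
      w ((γ : SL(2, ℤ)) • z) = 0 ∨ f ((γ : SL(2, ℤ)) • z) = 0 := by
    rw [ae_all_iff]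
    intro γ
    exact (measurePreserving_gamma γ).quasiMeasurePreserving.ae h3
  have h5 : ∀ᵐ z : ℍ, f z = 0 := by
    filter_upwards [h4, hw1] with z hz1 hz2
    by_contra hne
    have h6 : ∀ γ : Gamma0 N, w ((γ : SL(2, ℤ)) • z) = 0 := by
      intro γ
      rcases hz1 γ with h7 | h7
      · exact h7
      · exfalso
        have h8 := norm_smul_eq hf γ.2 z
        rw [h7, norm_zero] at h8
        exact hne (norm_eq_zero.1 h8.symm)
    simp only [h6, tsum_zero] at hz2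
    exact zero_ne_one hz2
  obtain ⟨z, hz⟩ := h0
  exact hz (eq_zero_of_ae hcont h5 z)

/-- The kernel `χ(a) f(δ z) conj (f z)`. -/
def kern {N : ℕ} (χ : DirichletCharacter ℂ N) (f : ℍ → ℂ) {p : ℕ} [NeZero p]
    (δ : HM N p) (z : ℍ) : ℂ :=
  χ ((δ.1 0 0 : ℤ) : ZMod N) * f (δ.act z) * conj (f z)

theorem kern_gm {N : ℕ} {χ : DirichletCharacter ℂ N} {f : ℍ → ℂ}
    (hf : IsMaassCuspForm N χ f) {p : ℕ} [NeZero p] (γ : Gamma0 N) (δ : HM N p) (z : ℍ) :
    kern χ f (HM.gm γ δ) z = kern χ f δ z := by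
  unfold kern
  rw [HM.act_gm, hf.automorphic γ.1 γ.2]
  have hγ : (((γ : SL(2, ℤ)) 1 0 : ℤ) : ZMod N) = 0 := Gamma0_mem.1 γ.2
  have hδ : ((δ.1 1 0 : ℤ) : ZMod N) = 0 := (ZMod.intCast_zmod_eq_zero_iff_dvd _ _).2 δ.2.2
  have h1 : (((HM.gm γ δ).1 0 0 : ℤ) : ZMod N) =
      (((γ : SL(2, ℤ)) 0 0 : ℤ) : ZMod N) * ((δ.1 0 0 : ℤ) : ZMod N) := by
    have h2 : (HM.gm γ δ).1 0 0 =
        (γ : SL(2, ℤ)) 0 0 * δ.1 0 0 + (γ : SL(2, ℤ)) 0 1 * δ.1 1 0 := by
      show (((γ : SL(2, ℤ)) : Matrix (Fin 2) (Fin 2) ℤ) * δ.1) 0 0 = _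
      rw [Matrix.mul_apply, Fin.sum_univ_two]
    rw [h2]
    push_cast
    rw [hδ]
    ring
  have h3 : (((γ : SL(2, ℤ)) 0 0 : ℤ) : ZMod N) * (((γ : SL(2, ℤ)) 1 1 : ℤ) : ZMod N) = 1 := by
    have h4 := (γ : SL(2, ℤ)).det_coe
    rw [Matrix.det_fin_two] at h4
    have h5 := congrArg (Int.cast : ℤ → ZMod N) h4
    push_cast at h5
    rw [hγ] at h5
    simpa using h5
  have h6 : χ (((γ : SL(2, ℤ)) 0 0 : ℤ) : ZMod N) * χ (((γ : SL(2, ℤ)) 1 1 : ℤ) : ZMod N) = 1 := by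
    rw [← map_mul, h3, map_one]
  rw [h1, map_mul]
  linear_combination (χ ((δ.1 0 0 : ℤ) : ZMod N) * f (δ.act z) * conj (f z)) * h6

theorem kern_adj {N : ℕ} [NeZero N] {χ : DirichletCharacter ℂ N} {f : ℍ → ℂ}
    {p : ℕ} [NeZero p] (hp : p.Prime) (hpN : ¬ p ∣ N) (δ : HM N p) (z : ℍ) :
    kern χ f δ.adj (δ.act z) = χ p * conj (kern χ f δ z) := by
  unfold kern
  rw [HM.act_adj]
  have hδ : ((δ.1 1 0 : ℤ) : ZMod N) = 0 := (ZMod.intCast_zmod_eq_zero_iff_dvd _ _).2 δ.2.2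
  have h1 : δ.adj.1 0 0 = δ.1 1 1 := by
    show δ.1.adjugate 0 0 = _
    rw [Matrix.adjugate_fin_two]
    simp
  have h3 : ((δ.1 0 0 : ℤ) : ZMod N) * ((δ.1 1 1 : ℤ) : ZMod N) = p := by
    have h4 := δ.2.1
    rw [Matrix.det_fin_two] at h4
    have h5 := congrArg (Int.cast : ℤ → ZMod N) h4
    push_cast at h5
    rw [hδ] at h5
    simpa using h5
  have hpu : IsUnit ((p : ℕ) : ZMod N) := by
    rw [ZMod.isUnit_iff_coprime]
    exact (Nat.Prime.coprime_iff_not_dvd hp).2 hpN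
  have hau : IsUnit ((δ.1 0 0 : ℤ) : ZMod N) := isUnit_of_mul_isUnit_left (h3 ▸ hpu)
  have h7 : conj (χ ((δ.1 0 0 : ℤ) : ZMod N)) * χ ((δ.1 0 0 : ℤ) : ZMod N) = 1 := by
    obtain ⟨u, hu⟩ := hau
    rw [← hu, Complex.conj_mul', DirichletCharacter.unit_norm_eq_one]
    norm_num
  have h8 : χ ((p : ℕ) : ZMod N) = χ ((δ.1 0 0 : ℤ) : ZMod N) * χ ((δ.1 1 1 : ℤ) : ZMod N) := by
    rw [← map_mul, h3]
  rw [h1, h8]
  simp only [map_mul, Complex.conj_conj]
  linear_combination (-(χ ((δ.1 1 1 : ℤ) : ZMod N) * f z * conj (f (δ.act z)))) * h7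

theorem continuous_act {N p : ℕ} [NeZero p] (δ : HM N p) : Continuous δ.act :=
  continuous_const_smul δ.toGL

theorem continuous_kern {N : ℕ} {χ : DirichletCharacter ℂ N} {f : ℍ → ℂ}
    (hf : Continuous f) {p : ℕ} [NeZero p] (δ : HM N p) :
    Continuous (kern χ f δ) := by
  unfold kern
  exact (continuous_const.mul (hf.comp (continuous_act δ))).mul
    (Complex.continuous_conj.comp hf)

theorem norm_kern_le {N : ℕ} {χ : DirichletCharacter ℂ N} {f : ℍ → ℂ}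
    {C : ℝ} (hC : ∀ z, ‖f z‖ ≤ C) {p : ℕ} [NeZero p] (δ : HM N p) (z : ℍ) :
    ‖kern χ f δ z‖ ≤ C ^ 2 := by
  unfold kern
  rw [norm_mul, norm_mul, Complex.norm_conj]
  have h1 : ‖χ ((δ.1 0 0 : ℤ) : ZMod N)‖ ≤ 1 := DirichletCharacter.norm_le_one χ _
  have h2 := hC (δ.act z)
  have h3 := hC z
  have h0 : 0 ≤ C := (norm_nonneg _).trans h3
  calc ‖χ ((δ.1 0 0 : ℤ) : ZMod N)‖ * ‖f (δ.act z)‖ * ‖f z‖ ≤ 1 * C * C := by
        gcongr
    _ = C ^ 2 := by ring

/-- The sum over the representatives is the Hecke operator. -/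
theorem sum_kern {N : ℕ} {χ : DirichletCharacter ℂ N} {f : ℍ → ℂ} {p : ℕ} [NeZero p]
    {a : ℂ} (ha : ∀ z, hecke χ p f z = a * f z) (z : ℍ) :
    ∑ i, kern χ f (HM.rep N p i) z = (Real.sqrt p : ℂ) * a * (((‖f z‖ ^ 2 : ℝ)) : ℂ) := by
  have hs : (Real.sqrt p : ℂ) ≠ 0 := by
    have : (0 : ℝ) < p := by exact_mod_cast Nat.pos_of_ne_zero (NeZero.ne p)
    exact_mod_cast (Real.sqrt_pos.2 this).ne'
  have h1 := ha z
  unfold hecke at h1
  rw [div_eq_iff hs] at h1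
  rw [Fintype.sum_option]
  unfold kern
  have h2 : (((HM.rep N p none).1 0 0 : ℤ) : ZMod N) = (p : ZMod N) := by
    simp [HM.rep]
  have h3 : ∀ b : Fin p, (((HM.rep N p (some b)).1 0 0 : ℤ) : ZMod N) = 1 := by
    intro b
    simp [HM.rep]
  rw [h2, HM.act_rep_none]
  simp only [h3, HM.act_rep_some, map_one, one_mul]
  rw [← Finset.sum_mul, ← add_mul]
  have h4 : ∑ b : Fin p, f (ofComplex ((z + ((b : ℕ) : ℂ)) / p)) =
      ∑ b ∈ Finset.range p, f (ofComplex ((z + b) / p)) :=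
    Fin.sum_univ_eq_sum_range (fun b : ℕ => f (ofComplex (((z : ℂ) + (b : ℂ)) / p))) p
  rw [h4, h1]
  have h5 : ((‖f z‖ ^ 2 : ℝ) : ℂ) = f z * conj (f z) := by
    rw [Complex.mul_conj']
    push_cast
    rfl
  rw [h5]
  ring

theorem unitary {N : ℕ} [NeZero N] {χ : DirichletCharacter ℂ N} {f : ℍ → ℂ}
    (hf : IsMaassCuspForm N χ f) (h0 : ∃ z, f z ≠ 0) {p : ℕ} (hp : p.Prime) (hpN : ¬ p ∣ N)
    {a : ℂ} (ha : ∀ z, hecke χ p f z = a * f z) : χ p * conj a = a := by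
  have : NeZero p := ⟨hp.ne_zero⟩
  have := countable_gamma N
  obtain ⟨w, hw, hw1, hwi⟩ := exists_weight N
  obtain ⟨C, hC⟩ := bounded hf
  have hcont := continuous_form hf
  have key := adjoint_abstract (X := ℍ) (volume : Measure ℍ) (G := Gamma0 N)
    (fun g => measurePreserving_gamma g) (M := HM N p) HM.act HM.measurePreserving_act
    HM.gm (fun g δ x => HM.act_gm g δ x) HM.adj HM.adj_adj HM.act_adj
    (kern χ f) (fun δ => (continuous_kern hcont δ).measurable) (kern_gm hf)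
    (χ p) (kern_adj hp hpN) (norm_kern_le hC) w hw hw1 hwi (HM.rep N p)
    (HM.bijective_rep hp hpN)
  set I : ℝ := ∫ z, (w z).toReal * ‖f z‖ ^ 2 with hI
  have hIpos : 0 < I := norm_pos hf h0 hw hw1 hwi
  have hsum : ∑ i, ∫ x, ((w x).toReal : ℂ) * kern χ f (HM.rep N p i) x =
      (Real.sqrt p : ℂ) * a * (I : ℂ) := by
    rw [← integral_finsetSum]
    · have h1 : ∀ x : ℍ, ∑ i, ((w x).toReal : ℂ) * kern χ f (HM.rep N p i) x =
          (Real.sqrt p : ℂ) * a * ((((w x).toReal * ‖f x‖ ^ 2 : ℝ)) : ℂ) := by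
        intro x
        rw [← Finset.mul_sum, sum_kern ha x]
        push_cast
        ring
      simp only [h1]
      rw [integral_const_mul, integral_complex_ofReal]
    · intro i _
      exact integrable_weight hw hwi (continuous_kern hcont _).measurable
        (norm_kern_le hC _)
  rw [hsum] at key
  have hs : (Real.sqrt p : ℂ) ≠ 0 := by
    have : (0 : ℝ) < p := by exact_mod_cast hp.pos
    exact_mod_cast (Real.sqrt_pos.2 this).ne'
  have hI0 : (I : ℂ) ≠ 0 := by exact_mod_cast hIpos.ne'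
  rw [map_mul, map_mul, Complex.conj_ofReal, Complex.conj_ofReal] at key
  have h9 : (Real.sqrt p : ℂ) * (I : ℂ) * (a - χ p * conj a) = 0 := by
    linear_combination key
  rcases mul_eq_zero.1 h9 with h | h
  · exact absurd h (mul_ne_zero hs hI0)
  · exact (sub_eq_zero.1 h).symm

end Pool.Agent.Maass74
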