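import Pool.Agent.W_7742m_h74.Defs

/-!
# The fundamental domain of `SL(2, ℤ)`

`𝒟 = ModularGroup.fd`, `𝒟ᵒ = ModularGroup.fdo`.

* `volume_boundary`: `𝒟 \ 𝒟ᵒ` is contained in the union of the circle `|z| = 1` and the lines
  `|Re z| = 1 / 2`, which have measure zero (`UpperHalfPlane.volume_eq_lintegral`; the circle has
  Lebesgue measure zero by `MeasureTheory.Measure.addHaar_sphere`, the lines are affine subspaces or
  by Fubini).
* `ae_count`: for almost all `z` no `g z` (`g ∈ SL(2, ℤ)`, a countable group; the action preserves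
  the measure) lies in `𝒟 \ 𝒟ᵒ`.  For such `z` choose `g` with `g z ∈ 𝒟`
  (`ModularGroup.exists_smul_mem_fd`), so `g z ∈ 𝒟ᵒ`; if `h z ∈ 𝒟` then `h g⁻¹` maps `g z ∈ 𝒟ᵒ`
  into `𝒟`, so `h = g` or `h = -g` (`ModularGroup.eq_one_or_neg_one_of_mem_fdo_mem_fd`), and
  `-g ≠ g`, `(-g) z = g z`.
* `volume_fd_lt_top`: `𝒟` is contained in the set of `z` with `|Re z| ≤ 1 / 2`, `Im z ≥ 1 / 2`,
  of measure `∫ dx dy / y ^ 2 < ∞`.
-/

set_option autoImplicit false

noncomputable section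

namespace Pool.Agent.Maass74

open UpperHalfPlane MeasureTheory ENNReal
open scoped MatrixGroups

private theorem vol_zero_of_image (s : Set ℍ) (h : volume (UpperHalfPlane.coe '' s : Set ℂ) = 0) :
    volume s = 0 := by
  rw [UpperHalfPlane.volume_eq_lintegral]
  exact setLIntegral_measure_zero _ _ h

private theorem vol_line (c : ℝ) : volume {z : ℂ | z.re = c} = 0 := by
  have h1 : {z : ℂ | z.re = c} = Complex.measurableEquivRealProd ⁻¹' ({c} ×ˢ Set.univ) := by
    ext z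
    simp [Complex.measurableEquivRealProd_apply]
  rw [h1, Complex.volume_preserving_equiv_real_prod.measure_preimage
    ((measurableSet_singleton c).prod MeasurableSet.univ).nullMeasurableSet,
    Measure.volume_eq_prod, Measure.prod_prod]
  simp

private theorem sl_ne_neg (g : SL(2, ℤ)) : g ≠ -g := by
  intro h
  have h1 : ∀ i j, g i j = 0 := by
    intro i j
    have h2 : g i j = (-g) i j := by rw [← h]
    have h3 : (-g) i j = - g i j := by simp
    omega
  have h4 := g.det_coe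
  rw [Matrix.det_fin_two] at h4
  simp [h1] at h4

private theorem smul_null (s : Set ℍ) (hs : volume s = 0) (g : SL(2, ℤ)) :
    volume ((fun z : ℍ => g • z) ⁻¹' s) = 0 := by
  have h1 : ((fun z : ℍ => g • z) ⁻¹' s) =
      ((fun z : ℍ => (Matrix.SpecialLinearGroup.mapGL ℝ g) • z) ⁻¹' s) := rfl
  rw [h1]
  have h2 := MeasureTheory.measure_preimage_smul (μ := (volume : Measure ℍ))
    (Matrix.SpecialLinearGroup.mapGL ℝ g) s
  rw [h2, hs]

private theorem countable_sl : Countable SL(2, ℤ) := by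
  have h1 : Countable (Matrix (Fin 2) (Fin 2) ℤ) :=
    inferInstanceAs (Countable (Fin 2 → Fin 2 → ℤ))
  exact Function.Injective.countable (f := fun g : SL(2, ℤ) => (g : Matrix (Fin 2) (Fin 2) ℤ))
    (fun a b h => Subtype.ext h)

private theorem lint_strip :
    ∫⁻ z : ℂ in {z : ℂ | z.re ∈ Set.Icc (-(1 / 2) : ℝ) (1 / 2) ∧ z.im ∈ Set.Ioi (1 / 4 : ℝ)},
      ↑((1 / ‖z.im‖₊) ^ 2 : NNReal) < ∞ := by
  have h1 : {z : ℂ | z.re ∈ Set.Icc (-(1 / 2) : ℝ) (1 / 2) ∧ z.im ∈ Set.Ioi (1 / 4 : ℝ)} =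
      Complex.measurableEquivRealProd ⁻¹'
        (Set.Icc (-(1 / 2) : ℝ) (1 / 2) ×ˢ Set.Ioi (1 / 4 : ℝ)) := by
    ext z
    simp [Complex.measurableEquivRealProd_apply]
  have h2 := Complex.volume_preserving_equiv_real_prod.setLIntegral_comp_preimage_emb
    Complex.measurableEquivRealProd.measurableEmbedding
    (fun p : ℝ × ℝ => ((((1 / ‖p.2‖₊) ^ 2 : NNReal)) : ℝ≥0∞))
    (Set.Icc (-(1 / 2) : ℝ) (1 / 2) ×ˢ Set.Ioi (1 / 4 : ℝ))
  rw [h1]
  have h3 : ∫⁻ z : ℂ in Complex.measurableEquivRealProd ⁻¹'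
        (Set.Icc (-(1 / 2) : ℝ) (1 / 2) ×ˢ Set.Ioi (1 / 4 : ℝ)),
      ↑((1 / ‖z.im‖₊) ^ 2 : NNReal) = ∫⁻ p : ℝ × ℝ in
        (Set.Icc (-(1 / 2) : ℝ) (1 / 2) ×ˢ Set.Ioi (1 / 4 : ℝ)),
        ((((1 / ‖p.2‖₊) ^ 2 : NNReal)) : ℝ≥0∞) := by
    rw [← h2]
    simp [Complex.measurableEquivRealProd_apply]
  rw [h3, Measure.volume_eq_prod, ← Measure.prod_restrict]
  have h4 := lintegral_prod_mul (μ := (volume.restrict (Set.Icc (-(1 / 2) : ℝ) (1 / 2))))
    (ν := (volume.restrict (Set.Ioi (1 / 4 : ℝ)))) (f := fun _ => (1 : ℝ≥0∞))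
    (g := fun y : ℝ => ((((1 / ‖y‖₊) ^ 2 : NNReal)) : ℝ≥0∞)) (by fun_prop) (by fun_prop)
  simp only [one_mul] at h4
  rw [h4]
  refine ENNReal.mul_lt_top (by simp) ?_
  have h5 : IntegrableOn (fun t : ℝ => t ^ (-2 : ℝ)) (Set.Ioi (1 / 4 : ℝ)) :=
    integrableOn_Ioi_rpow_of_lt (by norm_num) (by norm_num)
  have h6 := h5.2
  unfold HasFiniteIntegral at h6
  refine lt_of_le_of_lt (le_of_eq ?_) h6
  refine setLIntegral_congr_fun measurableSet_Ioi ?_
  intro t ht
  have ht0 : (0 : ℝ) < t := lt_trans (by norm_num) ht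
  have h7 : t ^ (-2 : ℝ) = (1 / t) ^ 2 := by
    rw [Real.rpow_neg ht0.le]
    norm_num
  simp only
  rw [h7, enorm_eq_nnnorm]
  congr 1
  rw [nnnorm_pow, nnnorm_div, nnnorm_one]

theorem volume_boundary : volume (ModularGroup.fd \ ModularGroup.fdo) = 0 := by
  apply vol_zero_of_image
  have hsub : (UpperHalfPlane.coe '' (ModularGroup.fd \ ModularGroup.fdo) : Set ℂ) ⊆
      (Metric.sphere (0 : ℂ) 1 ∪ {z : ℂ | z.re = 1 / 2}) ∪ {z : ℂ | z.re = -(1 / 2)} := by
    rintro _ ⟨z, ⟨hz, hz'⟩, rfl⟩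
    obtain ⟨h1, h2⟩ := hz
    by_cases h3 : 1 < Complex.normSq (z : ℂ)
    · have h4 : ¬ |z.re| < (1 : ℝ) / 2 := fun h5 => hz' ⟨h3, h5⟩
      have h5 : |z.re| = 1 / 2 := le_antisymm h2 (not_lt.mp h4)
      rcases (abs_eq (by norm_num : (0 : ℝ) ≤ 1 / 2)).mp h5 with h6 | h6
      · left
        right
        simpa using h6
      · right
        simpa using h6
    · left
      left
      have h4 : Complex.normSq (z : ℂ) = 1 := le_antisymm (not_lt.mp h3) h1
      rw [mem_sphere_zero_iff_norm]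
      rw [Complex.normSq_eq_norm_sq] at h4
      have h5 : (0 : ℝ) ≤ ‖(z : ℂ)‖ := norm_nonneg _
      nlinarith
  refine measure_mono_null hsub ?_
  refine measure_union_null (measure_union_null ?_ (vol_line _)) (vol_line _)
  exact Measure.addHaar_sphere volume (0 : ℂ) 1

theorem ae_count : ∀ᵐ z : ℍ, ∑' g : SL(2, ℤ),
    (ModularGroup.fd.indicator (fun _ => (1 : ℝ≥0∞)) (g • z)) = 2 := by
  have := countable_sl
  have h1 : ∀ᵐ z : ℍ, ∀ g : SL(2, ℤ), g • z ∉ ModularGroup.fd \ ModularGroup.fdo := by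
    rw [ae_all_iff]
    intro g
    have h2 := smul_null _ volume_boundary g
    rw [measure_eq_zero_iff_ae_notMem] at h2
    exact h2
  filter_upwards [h1] with z hz
  obtain ⟨g, hg⟩ := ModularGroup.exists_smul_mem_fd z
  have hgo : g • z ∈ ModularGroup.fdo := by
    by_contra hc
    exact hz g ⟨hg, hc⟩
  have key : ∀ h : SL(2, ℤ), h • z ∈ ModularGroup.fd → h = g ∨ h = -g := by
    intro h hh
    have h3 : (h * g⁻¹) • (g • z) ∈ ModularGroup.fd := by
      rw [smul_smul]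
      simpa using hh
    rcases ModularGroup.eq_one_or_neg_one_of_mem_fdo_mem_fd hgo h3 with h4 | h4
    · left
      exact mul_inv_eq_one.mp h4
    · right
      have h5 : h = (-1) * g := by
        rw [← h4]
        simp
      rw [h5]
      simp
  rw [tsum_eq_sum (s := {g, -g})]
  · rw [Finset.sum_pair (sl_ne_neg g)]
    have h6 : (-g) • z ∈ ModularGroup.fd := by
      rw [ModularGroup.SL_neg_smul]
      exact hg
    rw [Set.indicator_of_mem hg, Set.indicator_of_mem h6]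
    norm_num
  · intro h hh
    apply Set.indicator_of_notMem
    intro h7
    rcases key h h7 with h8 | h8
    · exact hh (by simp [h8])
    · exact hh (by simp [h8])

theorem volume_fd_lt_top : volume ModularGroup.fd < ∞ := by
  rw [UpperHalfPlane.volume_eq_lintegral]
  refine lt_of_le_of_lt (lintegral_mono_set ?_) lint_strip
  rintro _ ⟨z, hz, rfl⟩
  have h1 := ModularGroup.three_le_four_mul_im_sq_of_mem_fd hz
  have h2 := hz.2
  have h3 : 0 < z.im := z.im_pos
  refine ⟨?_, ?_⟩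
  · have h4 := abs_le.mp h2
    exact ⟨by simpa using h4.1, by simpa using h4.2⟩
  · have h5 : (1 / 4 : ℝ) < z.im := by
      by_contra hc
      push Not at hc
      nlinarith
    simpa using h5

end Pool.Agent.Maass74
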