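import Pool.Agent.W_7742m_h74.Defs

/-!
# Elementary properties of the Fourier coefficients

* `fc_tendsto`: `‖fc F n y‖ ≤ sup_x ‖F x y‖ ≤ ε` for `y ≥ B` by `IsWave.decay`.
* `fc_bessel`: Bessel's inequality, or Parseval's equality: `fc F n y` is
  `fourierCoeffOn zero_lt_one (fun x => F x y) n` (`fourierCoeffOn_eq_integral`), and
  `hasSum_sq_fourierCoeffOn` gives `∑ n ∈ S, ‖fc F n y‖ ^ 2 ≤ ∫_0^1 ‖F x y‖^2 dx ≤ C ^ 2` with `C`
  from `IsWave.bdd` (`x ↦ F x y` is continuous, hence in `L^2`).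
* `exists_fc_ne_zero`: if all `fc F n y` vanish then `∫_0^1 ‖F x y‖^2 dx = 0` (Parseval), so the
  continuous function `x ↦ F x y` vanishes on `[0, 1]`, and by periodicity everywhere.
-/

set_option autoImplicit false

noncomputable section

open Filter Topology

namespace Pool.Agent.Maass74

theorem FouB_cont {F : ℝ → ℝ → ℂ} (hF : IsWave F) {y : ℝ} (hy : 0 < y) :
    Continuous fun x => F x y := by
  rw [← continuousOn_univ]
  have h1 : ContinuousOn (fun x : ℝ => ((x, y) : ℝ × ℝ)) Set.univ := by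
    rw [continuousOn_univ]
    exact continuous_id.prodMk continuous_const
  exact hF.contDiff.continuousOn.comp h1 fun x _ => hy

theorem FouB_eq (F : ℝ → ℝ → ℂ) (n : ℤ) (y : ℝ) :
    fourierCoeffOn (zero_lt_one (α := ℝ)) (fun x => F x y) n = fc F n y := by
  rw [fourierCoeffOn_eq_integral]
  unfold fc
  rw [sub_zero, div_one, one_smul]
  refine intervalIntegral.integral_congr fun x _ => ?_
  simp only [smul_eq_mul]
  rw [fourier_coe_apply]
  congr 2
  push_cast
  ring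

theorem FouB_sum {F : ℝ → ℝ → ℂ} (hF : IsWave F) {y : ℝ} (hy : 0 < y) :
    HasSum (fun n : ℤ => ‖fc F n y‖ ^ 2) (∫ x in (0 : ℝ)..1, ‖F x y‖ ^ 2) := by
  have hc := FouB_cont hF hy
  have hL2 : MeasureTheory.MemLp (fun x => F x y) 2
      (MeasureTheory.volume.restrict (Set.Ioc (0 : ℝ) 1)) := by
    obtain ⟨C, hC⟩ := hF.bdd
    exact MeasureTheory.MemLp.of_bound hc.aestronglyMeasurable C
      (Filter.Eventually.of_forall fun x => hC x y hy)
  have h := hasSum_sq_fourierCoeffOn (zero_lt_one (α := ℝ)) hL2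
  rw [sub_zero, inv_one, one_smul] at h
  have h2 : (fun n : ℤ => ‖fourierCoeffOn (zero_lt_one (α := ℝ)) (fun x => F x y) n‖ ^ 2) =
      fun n : ℤ => ‖fc F n y‖ ^ 2 := by
    funext n
    rw [FouB_eq]
  rwa [h2] at h

theorem fc_tendsto {F : ℝ → ℝ → ℂ} (hF : IsWave F) (n : ℤ) :
    Tendsto (fc F n) atTop (𝓝 0) := by
  rw [Metric.tendsto_atTop]
  intro ε hε
  obtain ⟨B, hB, h⟩ := hF.decay (ε / 2) (by positivity)
  refine ⟨B, fun y hy => ?_⟩
  rw [dist_zero_right]
  have h1 : ‖fc F n y‖ ≤ ε / 2 * |(1 : ℝ) - 0| := by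
    unfold fc
    refine intervalIntegral.norm_integral_le_of_norm_le_const fun x _ => ?_
    rw [norm_mul]
    have h2 : ‖Complex.exp (-(2 * Real.pi * Complex.I * n * x))‖ = 1 := by
      have h3 : -(2 * (Real.pi : ℂ) * Complex.I * n * x) =
          ((-(2 * Real.pi * n * x) : ℝ) : ℂ) * Complex.I := by
        push_cast
        ring
      rw [h3, Complex.norm_exp_ofReal_mul_I]
    rw [h2, one_mul]
    exact h x y hy
  rw [sub_zero, abs_one, mul_one] at h1
  linarith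

theorem fc_bessel {F : ℝ → ℝ → ℂ} (hF : IsWave F) :
    ∃ C : ℝ, 0 < C ∧ ∀ y : ℝ, 0 < y → ∀ S : Finset ℤ, ∑ n ∈ S, ‖fc F n y‖ ^ 2 ≤ C := by
  obtain ⟨C, hC⟩ := hF.bdd
  refine ⟨C ^ 2 + 1, by positivity, fun y hy S => ?_⟩
  have h1 := sum_le_hasSum S (fun n _ => by positivity) (FouB_sum hF hy)
  refine h1.trans ?_
  have hc := FouB_cont hF hy
  have h2 : ∫ x in (0 : ℝ)..1, ‖F x y‖ ^ 2 ≤ ∫ _x in (0 : ℝ)..1, C ^ 2 := by
    refine intervalIntegral.integral_mono_on zero_le_one ?_ ?_ fun x _ => ?_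
    · exact (hc.norm.pow 2).intervalIntegrable _ _
    · exact continuous_const.intervalIntegrable _ _
    · exact pow_le_pow_left₀ (norm_nonneg _) (hC x y hy) 2
  rw [intervalIntegral.integral_const, sub_zero, one_smul] at h2
  linarith

theorem exists_fc_ne_zero {F : ℝ → ℝ → ℂ} (hF : IsWave F) {x y : ℝ} (hy : 0 < y)
    (h : F x y ≠ 0) : ∃ n, fc F n y ≠ 0 := by
  by_contra hcon
  push Not at hcon
  have h1 := FouB_sum hF hy
  have h2 : (fun n : ℤ => ‖fc F n y‖ ^ 2) = fun _ => (0 : ℝ) := by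
    funext n
    rw [hcon n, norm_zero]
    norm_num
  rw [h2] at h1
  have h3 : ∫ x in (0 : ℝ)..1, ‖F x y‖ ^ 2 = 0 := h1.unique hasSum_zero
  have hc := FouB_cont hF hy
  have h4 : 0 < ∫ x in (0 : ℝ)..1, ‖F x y‖ ^ 2 := by
    refine intervalIntegral.integral_pos zero_lt_one (hc.norm.pow 2).continuousOn
      (fun x _ => by positivity) ⟨Int.fract x, ⟨Int.fract_nonneg x, (Int.fract_lt_one x).le⟩, ?_⟩
    have hp : Function.Periodic (fun x => F x y) 1 := fun x => hF.periodic x y hy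
    have h5 := hp.int_mul ⌊x⌋ (Int.fract x)
    simp only [mul_one, Int.fract_add_floor] at h5
    rw [← h5]
    exact pow_pos (norm_pos_iff.2 h) 2
  rw [h3] at h4
  exact lt_irrefl _ h4

end Pool.Agent.Maass74
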