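import Pool.Agent.W_7742m_h74.OdeA

/-!
# The ordinary differential equation `w'' = (m - 1 / (4 y ^ 2)) w` on `y > 0`, part B

* `sol_zero`: if `m = 0`, then `β = √y D - w / (2 √y)` has derivative zero, so is constant; then
  `w / √y` has derivative `β / y`, so `w = √y (α + β log y)`; `w → 0` forces `α + β log y → 0`, so
  `β = 0` and `α = 0`.
* `deriv_tendsto`: if `w → 0` then `D → 0`: put `g t = w t - t D y` on `[y, y + 1]`; its derivative
  `D t - D y` is at most `sup_{[y, y + 1]} ‖w''‖ ≤ (|m| + 1) sup_{t ≥ y} ‖w t‖` for `y ≥ 1`, so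
  `‖w (y + 1) - w y - D y‖` is at most this supremum.
* `sol_unique`: the Wronskian `w₁ D₂ - D₁ w₂` has derivative zero and tends to zero, so it is zero.
  If `w₂ (y₀) ≠ 0` let `c = w₁ (y₀) / w₂ (y₀)`; then `w₁ - c w₂` is a solution which vanishes at
  `y₀` together with its derivative; use `sol_eq_zero`.
-/

set_option autoImplicit false

noncomputable section

open Filter Topology

namespace Pool.Agent.Maass74

theorem const_of_deriv_zero {g : ℝ → ℂ} (h : ∀ y : ℝ, 0 < y → HasDerivAt g 0 y) {a b : ℝ}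
    (ha : 0 < a) (hb : 0 < b) : g b = g a := by
  have := Convex.norm_image_sub_le_of_norm_hasDerivWithin_le (f := g) (f' := fun _ => 0)
    (C := 0) (s := Set.Ioi (0 : ℝ)) (x := a) (y := b)
    (fun x hx => (h x hx).hasDerivWithinAt) (fun x _ => by simp) (convex_Ioi 0) ha hb
  rw [zero_mul] at this
  exact sub_eq_zero.1 (norm_le_zero_iff.1 this)

theorem tendsto_const_zero {c : ℂ} {g : ℝ → ℂ} (h : Tendsto g atTop (𝓝 0))
    (hc : ∀ y : ℝ, 0 < y → g y = c) : c = 0 := by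
  have h1 : Tendsto g atTop (𝓝 c) := by
    refine tendsto_const_nhds.congr' ?_
    filter_upwards [eventually_gt_atTop (0 : ℝ)] with y hy
    exact (hc y hy).symm
  exact tendsto_nhds_unique h1 h

theorem sol_zero {w D : ℝ → ℂ} (h : IsSol 0 w D) (h0 : Tendsto w atTop (𝓝 0)) :
    ∀ y : ℝ, 0 < y → w y = 0 := by
  have hq : ∀ y : ℝ, 0 < y → HasDerivAt (fun t : ℝ => ((Real.sqrt t : ℝ) : ℂ))
      (((1 / (2 * Real.sqrt y) : ℝ)) : ℂ) y := fun y hy =>
    (Real.hasDerivAt_sqrt hy.ne').ofReal_comp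
  have hqi : ∀ y : ℝ, 0 < y → HasDerivAt (fun t : ℝ => (((Real.sqrt t)⁻¹ : ℝ) : ℂ))
      (((-(1 / (2 * Real.sqrt y)) / (Real.sqrt y) ^ 2 : ℝ)) : ℂ) y := fun y hy =>
    ((Real.hasDerivAt_sqrt hy.ne').inv (Real.sqrt_pos.2 hy).ne').ofReal_comp
  set β : ℝ → ℂ := fun y => ((Real.sqrt y : ℝ) : ℂ) * D y -
    1 / 2 * ((((Real.sqrt y)⁻¹ : ℝ) : ℂ) * w y) with hβ
  have hβ' : ∀ y : ℝ, 0 < y → HasDerivAt β 0 y := by
    intro y hy
    obtain ⟨h1, h2⟩ := h y hy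
    have hd := ((hq y hy).mul h2).sub (((hqi y hy).mul h1).const_mul (1 / 2 : ℂ))
    have hs : Real.sqrt y ≠ 0 := (Real.sqrt_pos.2 hy).ne'
    have hss : Real.sqrt y ^ 2 = y := Real.sq_sqrt hy.le
    have e : (((1 / (2 * Real.sqrt y) : ℝ)) : ℂ) * D y +
        ((Real.sqrt y : ℝ) : ℂ) * ((((0 : ℝ) - 1 / (4 * y ^ 2) : ℝ) : ℂ) * w y) -
        1 / 2 * ((((-(1 / (2 * Real.sqrt y)) / (Real.sqrt y) ^ 2 : ℝ)) : ℂ) * w y +
          (((Real.sqrt y)⁻¹ : ℝ) : ℂ) * D y) = 0 := by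
      have hy2 : (y : ℂ) = ((Real.sqrt y : ℝ) : ℂ) ^ 2 := by
        rw [← Complex.ofReal_pow, hss]
      have hsC : ((Real.sqrt y : ℝ) : ℂ) ≠ 0 := Complex.ofReal_ne_zero.2 hs
      push_cast
      rw [hy2]
      field_simp
      ring
    rw [e] at hd
    exact hd
  have hβc : ∀ y : ℝ, 0 < y → β y = β 1 := fun y hy => const_of_deriv_zero hβ' one_pos hy
  set g : ℝ → ℂ := fun y => ((((Real.sqrt y)⁻¹ : ℝ) : ℂ) * w y) - β 1 * ((Real.log y : ℝ) : ℂ)
    with hg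
  have hg' : ∀ y : ℝ, 0 < y → HasDerivAt g 0 y := by
    intro y hy
    obtain ⟨h1, h2⟩ := h y hy
    have hd := ((hqi y hy).mul h1).sub
      ((Real.hasDerivAt_log hy.ne').ofReal_comp.const_mul (β 1))
    have hs : Real.sqrt y ≠ 0 := (Real.sqrt_pos.2 hy).ne'
    have hss : Real.sqrt y ^ 2 = y := Real.sq_sqrt hy.le
    have e : (((-(1 / (2 * Real.sqrt y)) / (Real.sqrt y) ^ 2 : ℝ)) : ℂ) * w y +
          (((Real.sqrt y)⁻¹ : ℝ) : ℂ) * D y - β 1 * (((y⁻¹ : ℝ)) : ℂ) = 0 := by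
      have hy2 : (y : ℂ) = ((Real.sqrt y : ℝ) : ℂ) ^ 2 := by
        rw [← Complex.ofReal_pow, hss]
      have hsC : ((Real.sqrt y : ℝ) : ℂ) ≠ 0 := Complex.ofReal_ne_zero.2 hs
      rw [← hβc y hy, hβ]
      push_cast
      rw [hy2]
      field_simp
      ring
    rw [e] at hd
    exact hd
  have hgc : ∀ y : ℝ, 0 < y → g y = g 1 := fun y hy => const_of_deriv_zero hg' one_pos hy
  -- `w / √y → 0`
  have hs0 : Tendsto (fun y : ℝ => (((Real.sqrt y)⁻¹ : ℝ) : ℂ) * w y) atTop (𝓝 0) := by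
    have h1 : Tendsto (fun y : ℝ => (((Real.sqrt y)⁻¹ : ℝ) : ℂ)) atTop (𝓝 0) := by
      have := (tendsto_inv_atTop_zero.comp Real.tendsto_sqrt_atTop).ofReal
      simpa using this
    simpa using h1.mul h0
  have hb : β 1 = 0 := by
    have h2 : Tendsto (fun y : ℝ => (((Real.sqrt (Real.exp 1 * y))⁻¹ : ℝ) : ℂ) *
        w (Real.exp 1 * y) - (((Real.sqrt y)⁻¹ : ℝ) : ℂ) * w y) atTop (𝓝 0) := by
      have h3 := (hs0.comp (tendsto_id.const_mul_atTop (Real.exp_pos 1))).sub hs0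
      simpa using h3
    refine tendsto_const_zero h2 fun y hy => ?_
    have h3 := hgc y hy
    have h4 := hgc (Real.exp 1 * y) (by positivity)
    have h5 : g (Real.exp 1 * y) - g y = 0 := by rw [h3, h4, sub_self]
    have h6 : Real.log (Real.exp 1 * y) = 1 + Real.log y := by
      rw [Real.log_mul (Real.exp_pos 1).ne' hy.ne', Real.log_exp]
    simp only [hg, h6] at h5
    push_cast at h5 ⊢
    linear_combination h5
  have hg1 : ∀ y : ℝ, 0 < y → (((Real.sqrt y)⁻¹ : ℝ) : ℂ) * w y = g 1 := by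
    intro y hy
    have := hgc y hy
    simp only [hg, hb, zero_mul, sub_zero] at this ⊢
    exact this
  have hz : g 1 = 0 := tendsto_const_zero hs0 hg1
  intro y hy
  have h1 := hg1 y hy
  rw [hz] at h1
  rcases mul_eq_zero.1 h1 with h2 | h2
  · exact absurd (Complex.ofReal_eq_zero.1 h2) (inv_ne_zero (Real.sqrt_pos.2 hy).ne')
  · exact h2

theorem deriv_tendsto {m : ℝ} {w D : ℝ → ℂ} (h : IsSol m w D) (h0 : Tendsto w atTop (𝓝 0)) :
    Tendsto D atTop (𝓝 0) := by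
  rw [Metric.tendsto_atTop]
  intro ε hε
  set K : ℝ := |m| + 4 with hK
  have hKp : 0 < K := by positivity
  obtain ⟨Y, hY⟩ := (Metric.tendsto_atTop.1 h0) (ε / K) (by positivity)
  refine ⟨max Y 1, fun y hy => ?_⟩
  have hyY : Y ≤ y := le_trans (le_max_left _ _) hy
  have hy1 : 1 ≤ y := le_trans (le_max_right _ _) hy
  have hw : ∀ t, y ≤ t → ‖w t‖ ≤ ε / K := fun t ht => by
    have := hY t (hyY.trans ht)
    rw [dist_zero_right] at this
    exact this.le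
  have hD : ∀ t ∈ Set.Icc y (y + 1), ‖D t - D y‖ ≤ (|m| + 1) * (ε / K) := by
    intro t ht
    have h1 := Convex.norm_image_sub_le_of_norm_hasDerivWithin_le (f := D)
      (f' := fun t => (((m - 1 / (4 * t ^ 2) : ℝ) : ℂ) * w t))
      (C := (|m| + 1) * (ε / K)) (s := Set.Icc y (y + 1)) (x := y) (y := t)
      (fun x hx => ((h x (by linarith [hx.1])).2).hasDerivWithinAt) (fun x hx => by
        rw [norm_mul, Complex.norm_real, Real.norm_eq_abs]
        refine mul_le_mul ?_ (hw x hx.1) (norm_nonneg _) (by positivity)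
        refine (abs_sub _ _).trans ?_
        have hx1 : 1 ≤ x := hy1.trans hx.1
        have h2 : |1 / (4 * x ^ 2)| ≤ 1 := by
          rw [abs_of_pos (by positivity), div_le_one (by positivity)]
          nlinarith
        linarith) (convex_Icc _ _) (Set.left_mem_Icc.2 (by linarith)) ht
    refine h1.trans ?_
    have h2 : ‖t - y‖ ≤ 1 := by
      rw [Real.norm_eq_abs, abs_of_nonneg (by linarith [ht.1])]
      linarith [ht.2]
    have h3 : 0 ≤ (|m| + 1) * (ε / K) := by positivity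
    nlinarith
  have hg := Convex.norm_image_sub_le_of_norm_hasDerivWithin_le
    (f := fun t : ℝ => w t - (t : ℂ) * D y) (f' := fun t => D t - D y)
    (C := (|m| + 1) * (ε / K)) (s := Set.Icc y (y + 1)) (x := y) (y := y + 1)
    (fun x hx => by
      have h1 := (h x (by linarith [hx.1])).1
      have h2 : HasDerivAt (fun t : ℝ => (t : ℂ)) 1 x := by
        simpa using (hasDerivAt_id x).ofReal_comp
      have h3 := h1.sub (h2.mul_const (D y))
      rw [one_mul] at h3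
      exact h3.hasDerivWithinAt) hD (convex_Icc _ _)
    (Set.left_mem_Icc.2 (by linarith)) (Set.right_mem_Icc.2 (by linarith))
  have h5 : ‖(y + 1) - y‖ = 1 := by simp
  rw [h5, mul_one] at hg
  have h6 : D y = (w (y + 1) - w y) -
      ((w (y + 1) - ((y + 1 : ℝ) : ℂ) * D y) - (w y - (y : ℂ) * D y)) := by
    push_cast
    ring
  rw [dist_zero_right]
  have h7 : ‖D y‖ ≤ ε / K + ε / K + (|m| + 1) * (ε / K) := by
    calc ‖D y‖ = ‖(w (y + 1) - w y) -
        ((w (y + 1) - ((y + 1 : ℝ) : ℂ) * D y) - (w y - (y : ℂ) * D y))‖ := by rw [← h6]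
      _ ≤ ‖w (y + 1) - w y‖ + ‖(w (y + 1) - ((y + 1 : ℝ) : ℂ) * D y) -
        (w y - (y : ℂ) * D y)‖ := norm_sub_le _ _
      _ ≤ (‖w (y + 1)‖ + ‖w y‖) + (|m| + 1) * (ε / K) := add_le_add (norm_sub_le _ _) hg
      _ ≤ _ := by
        have := hw (y + 1) (by linarith)
        have := hw y le_rfl
        linarith
  have h8 : (|m| + 3) * (ε / K) < ε := by
    rw [← mul_div_assoc, div_lt_iff₀ hKp, hK]
    nlinarith
  linarith

theorem sol_unique {m : ℝ} {w₁ D₁ w₂ D₂ : ℝ → ℂ} (h₁ : IsSol m w₁ D₁) (h₂ : IsSol m w₂ D₂)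
    (t₁ : Tendsto w₁ atTop (𝓝 0)) (t₂ : Tendsto w₂ atTop (𝓝 0)) (h : ∃ y : ℝ, 0 < y ∧ w₂ y ≠ 0) :
    ∃ c : ℂ, ∀ y : ℝ, 0 < y → w₁ y = c * w₂ y := by
  have d₁ := deriv_tendsto h₁ t₁
  have d₂ := deriv_tendsto h₂ t₂
  have hW : ∀ y : ℝ, 0 < y → HasDerivAt (fun t => w₁ t * D₂ t - D₁ t * w₂ t) 0 y := by
    intro y hy
    obtain ⟨a1, a2⟩ := h₁ y hy
    obtain ⟨b1, b2⟩ := h₂ y hy
    have hd := (a1.mul b2).sub (a2.mul b1)
    have e : D₁ y * D₂ y + w₁ y * (((m - 1 / (4 * y ^ 2) : ℝ) : ℂ) * w₂ y) -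
        ((((m - 1 / (4 * y ^ 2) : ℝ) : ℂ) * w₁ y) * w₂ y + D₁ y * D₂ y) = 0 := by ring
    rw [e] at hd
    exact hd
  have hWc : ∀ y : ℝ, 0 < y → w₁ y * D₂ y - D₁ y * w₂ y = w₁ 1 * D₂ 1 - D₁ 1 * w₂ 1 :=
    fun y hy => const_of_deriv_zero hW one_pos hy
  have hT : Tendsto (fun t => w₁ t * D₂ t - D₁ t * w₂ t) atTop (𝓝 0) := by
    simpa using (t₁.mul d₂).sub (d₁.mul t₂)
  have hW0 := tendsto_const_zero hT hWc
  obtain ⟨y₀, hy₀, hw₂⟩ := h
  refine ⟨w₁ y₀ / w₂ y₀, ?_⟩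
  have hs : IsSol m (fun y => w₁ y - w₁ y₀ / w₂ y₀ * w₂ y)
      (fun y => D₁ y - w₁ y₀ / w₂ y₀ * D₂ y) := by
    intro y hy
    obtain ⟨a1, a2⟩ := h₁ y hy
    obtain ⟨b1, b2⟩ := h₂ y hy
    refine ⟨a1.sub (b1.const_mul _), ?_⟩
    have := a2.sub (b2.const_mul (w₁ y₀ / w₂ y₀))
    refine this.congr_deriv ?_
    ring
  have hz := sol_eq_zero hs hy₀ (by field_simp; ring) (by
    have := hWc y₀ hy₀
    rw [hW0] at this
    rw [div_mul_eq_mul_div, sub_eq_zero, eq_div_iff hw₂]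
    linear_combination -this)
  intro y hy
  exact sub_eq_zero.1 (hz y hy)

end Pool.Agent.Maass74
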