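import Pool.Agent.W_7742m_h74.Fou
import Pool.Agent.W_7742m_h74.FouB
import Pool.Agent.W_7742m_h74.OdeB

/-!
# The Fourier expansion

`fc F 0 = 0` by `sol_zero`.  For `n ≠ 0` the function `G n y = √|n| * fc F n (y / |n|)` solves the
equation with `m = 4 π ^ 2` (`fc_sol`, `sol_scale` with `r = |n|`) and tends to zero.  Since `F ≠ 0`
there is `n₀` such that `fc F n₀` does not vanish identically (`exists_fc_ne_zero`), and `n₀ ≠ 0`.
Take `W = G n₀`; by `sol_unique` there is `c n` with `G n = c n * W` on `y > 0` for `n ≠ 0`, and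
`fc F n y = G n (|n| y) / √|n|`.  Put `c 0 = 0`.  `c n₀ ≠ 0` because `G n₀ ≠ 0`.
-/

set_option autoImplicit false

noncomputable section

open Filter Topology

namespace Pool.Agent.Maass74

theorem exists_expansion {F : ℝ → ℝ → ℂ} (hF : IsWave F) (h : ∃ x y : ℝ, 0 < y ∧ F x y ≠ 0) :
    ∃ (W : ℝ → ℂ) (c : ℤ → ℂ), IsExpansion F W c := by
  classical
  -- the coefficient zero
  have hz0 : ∀ y : ℝ, 0 < y → fc F 0 y = 0 := by
    obtain ⟨D, hD⟩ := fc_sol hF 0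
    have h1 : (4 * Real.pi ^ 2 * ((0 : ℤ) : ℝ) ^ 2) = 0 := by simp
    rw [h1] at hD
    exact sol_zero hD (fc_tendsto hF 0)
  -- the scaled coefficients
  have hsol : ∀ n : ℤ, n ≠ 0 → ∃ D : ℝ → ℂ,
      IsSol (4 * Real.pi ^ 2) (fun y => fc F n (y / |(n : ℝ)|)) D := by
    intro n hn
    obtain ⟨D, hD⟩ := fc_sol hF n
    have hr : 0 < |(n : ℝ)| := abs_pos.2 (by exact_mod_cast hn)
    have h1 : (4 * Real.pi ^ 2 * (n : ℝ) ^ 2) = 4 * Real.pi ^ 2 * |(n : ℝ)| ^ 2 := by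
      rw [sq_abs]
    rw [h1] at hD
    exact ⟨_, sol_scale hr hD⟩
  have htend : ∀ n : ℤ, n ≠ 0 → Tendsto (fun y => fc F n (y / |(n : ℝ)|)) atTop (𝓝 0) := by
    intro n hn
    have hr : 0 < |(n : ℝ)| := abs_pos.2 (by exact_mod_cast hn)
    exact (fc_tendsto hF n).comp (tendsto_id.atTop_div_const hr)
  obtain ⟨x₁, y₁, hy₁, hxy⟩ := h
  obtain ⟨n₀, hn₀⟩ := exists_fc_ne_zero hF hy₁ hxy
  have hn0 : n₀ ≠ 0 := by
    rintro rfl
    exact hn₀ (hz0 y₁ hy₁)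
  have hr₀ : 0 < |(n₀ : ℝ)| := abs_pos.2 (by exact_mod_cast hn0)
  obtain ⟨D₀, hD₀⟩ := hsol n₀ hn0
  have hW : ∃ y : ℝ, 0 < y ∧ (fun y => fc F n₀ (y / |(n₀ : ℝ)|)) y ≠ 0 := by
    refine ⟨|(n₀ : ℝ)| * y₁, by positivity, ?_⟩
    show fc F n₀ (|(n₀ : ℝ)| * y₁ / |(n₀ : ℝ)|) ≠ 0
    rw [mul_div_cancel_left₀ _ hr₀.ne']
    exact hn₀
  have hc : ∀ n : ℤ, ∃ c : ℂ, n ≠ 0 → ∀ y : ℝ, 0 < y →
      fc F n (y / |(n : ℝ)|) = c * fc F n₀ (y / |(n₀ : ℝ)|) := by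
    intro n
    by_cases hn : n = 0
    · exact ⟨0, fun h => absurd hn h⟩
    · obtain ⟨D, hD⟩ := hsol n hn
      obtain ⟨c, hc⟩ := sol_unique hD hD₀ (htend n hn) (htend n₀ hn0) hW
      exact ⟨c, fun _ => hc⟩
  choose c hc using hc
  refine ⟨fun y => fc F n₀ (y / |(n₀ : ℝ)|),
    fun n => if n = 0 then 0 else (Real.sqrt |(n : ℝ)| : ℂ) * c n, ?_, ?_, ?_, ?_, ?_⟩
  · simp
  · refine ⟨n₀, ?_⟩
    simp only [if_neg hn0]
    refine mul_ne_zero (Complex.ofReal_ne_zero.2 (Real.sqrt_pos.2 hr₀).ne') ?_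
    intro h0
    obtain ⟨y, hy, hy'⟩ := hW
    apply hy'
    have h1 := hc n₀ hn0 y hy
    rw [h0, zero_mul] at h1
    exact h1
  · intro y hy
    exact (hD₀ y hy).1.continuousAt.continuousWithinAt
  · exact sol_small hD₀ hW
  · intro n y hy
    by_cases hn : n = 0
    · subst hn
      rw [hz0 y hy]
      simp
    · have hr : 0 < |(n : ℝ)| := abs_pos.2 (by exact_mod_cast hn)
      have h1 := hc n hn (|(n : ℝ)| * y) (by positivity)
      rw [mul_div_cancel_left₀ _ hr.ne'] at h1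
      simp only [if_neg hn]
      have h2 : (Real.sqrt |(n : ℝ)| : ℂ) ≠ 0 := Complex.ofReal_ne_zero.2 (Real.sqrt_pos.2 hr).ne'
      rw [h1, mul_assoc, mul_div_cancel_left₀ _ h2]

end Pool.Agent.Maass74
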