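import Mathlib

/-!
# Maass cusp forms of eigenvalue 1/4 and Hecke operators (MP_7742d9_nt, helper74)

Definitions for the statement.
-/

set_option autoImplicit false

noncomputable section

namespace Pool.Agent.Maass74

open UpperHalfPlane CongruenceSubgroup Filter Topology ComplexConjugate
open scoped MatrixGroups

/-- The function `f` in the real coordinates `x`, `y` of `z = x + i y`, `y > 0`. -/
def coord (f : ℍ → ℂ) (x y : ℝ) : ℂ := f (ofComplex (x + y * Complex.I))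

/-- Maass cusp forms of weight `0`, level `N`, character `χ` and Laplace eigenvalue `1 / 4`. -/
structure IsMaassCuspForm (N : ℕ) (χ : DirichletCharacter ℂ N) (f : ℍ → ℂ) : Prop where
  /-- `f` is twice continuously differentiable -/
  contDiff : ContDiffOn ℝ 2 (fun q : ℝ × ℝ => coord f q.1 q.2) {q | 0 < q.2}
  /-- `y ^ 2 (f_xx + f_yy) + f / 4 = 0` -/
  eigenvalue : ∀ x y : ℝ, 0 < y →
    y ^ 2 * (iteratedDeriv 2 (fun t => coord f t y) x + iteratedDeriv 2 (fun t => coord f x t) y) +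
      1 / 4 * coord f x y = 0
  /-- `f (γ z) = χ (d) f (z)` for the matrices `γ` in `Γ₀(N)` with lower right entry `d` -/
  automorphic : ∀ γ ∈ Gamma0 N, ∀ z : ℍ, f (γ • z) = χ ((γ 1 1 : ℤ) : ZMod N) * f z
  /-- `f` tends to zero at all cusps -/
  cuspidal : ∀ γ : SL(2, ℤ), IsZeroAtImInfty fun z => f (γ • z)

/-- The Hecke operator `T_p` in weight zero, normalised such that the Ramanujan conjecture bounds
its eigenvalues by `2`:
`(T_p f) (z) = p ^ (-1/2) (χ(p) f(p z) + ∑ f((z + b) / p))`, the sum over `b` modulo `p`. -/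
def hecke {N : ℕ} (χ : DirichletCharacter ℂ N) (p : ℕ) (f : ℍ → ℂ) (z : ℍ) : ℂ :=
  (χ p * f (ofComplex (p * z)) + ∑ b ∈ Finset.range p, f (ofComplex ((z + b) / p))) /
    (Real.sqrt p : ℂ)

/-- There is a nonzero Maass cusp form of weight `0`, level `N`, character `χ` and eigenvalue
`1 / 4` with `T_p f = a p * f` for all primes `p` not dividing `N`. -/
def IsMaassEigensystem (N : ℕ) (χ : DirichletCharacter ℂ N) (a : ℕ → ℂ) : Prop :=
  ∃ f : ℍ → ℂ, IsMaassCuspForm N χ f ∧ (∃ z, f z ≠ 0) ∧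
    ∀ p : ℕ, p.Prime → ¬ p ∣ N → ∀ z, hecke χ p f z = a p * f z

/-! ### Auxiliary notions for the proofs -/

/-- Periodic bounded eigenfunctions of the Laplace operator in real coordinates which tend to zero
for `y → ∞`. -/
structure IsWave (F : ℝ → ℝ → ℂ) : Prop where
  contDiff : ContDiffOn ℝ 2 (fun q : ℝ × ℝ => F q.1 q.2) {q | 0 < q.2}
  eigenvalue : ∀ x y : ℝ, 0 < y →
    y ^ 2 * (iteratedDeriv 2 (fun t => F t y) x + iteratedDeriv 2 (fun t => F x t) y) +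
      1 / 4 * F x y = 0
  periodic : ∀ x y : ℝ, 0 < y → F (x + 1) y = F x y
  decay : ∀ ε : ℝ, 0 < ε → ∃ B : ℝ, 0 < B ∧ ∀ x y : ℝ, B ≤ y → ‖F x y‖ ≤ ε
  bdd : ∃ C : ℝ, ∀ x y : ℝ, 0 < y → ‖F x y‖ ≤ C

/-- The Fourier coefficients in `x`. -/
def fc (F : ℝ → ℝ → ℂ) (n : ℤ) (y : ℝ) : ℂ :=
  ∫ x in (0 : ℝ)..1, Complex.exp (-(2 * Real.pi * Complex.I * n * x)) * F x y

/-- `w` is a solution with derivative `D` of `w'' = (m - 1 / (4 y ^ 2)) w` on `y > 0`. -/
def IsSol (m : ℝ) (w D : ℝ → ℂ) : Prop :=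
  ∀ y : ℝ, 0 < y → HasDerivAt w (D y) y ∧
    HasDerivAt D (((m - 1 / (4 * y ^ 2) : ℝ) : ℂ) * w y) y

/-- The normalised Fourier coefficients: `W` is the Whittaker function. -/
structure IsExpansion (F : ℝ → ℝ → ℂ) (W : ℝ → ℂ) (c : ℤ → ℂ) : Prop where
  zero : c 0 = 0
  ne_zero : ∃ n, c n ≠ 0
  continuous : ContinuousOn W (Set.Ioi 0)
  W_ne_zero : ∃ y : ℝ, 0 < y ∧ y < 1 ∧ W y ≠ 0
  eq : ∀ (n : ℤ) (y : ℝ), 0 < y → fc F n y = c n * W (|(n : ℝ)| * y) / (Real.sqrt |(n : ℝ)| : ℂ)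

end Pool.Agent.Maass74
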