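import Pool.Agent.W_7742m_h74.Defs

/-!
# The differential equation of the Fourier coefficients

For `y > 0` put `D y = ∫_0^1 e(-n x) F_y(x, y) dx`.

* `F` is of class `C^2` on the half plane `y > 0`, so `F_y`, `F_yy`, `F_x`, `F_xx` are continuous
  there (they are values of `fderiv` and of its derivative) and bounded on the compact sets
  `[0, 1] × [y / 2, 2 y]`; differentiation under the integral sign
  (`intervalIntegral.hasDerivAt_integral_of_dominated_loc_of_deriv_le`) gives
  `(fc F n)' = D` and `D' = ∫ e(-n x) F_yy dx`.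
* `F_yy = -F_xx - F / (4 y^2)`, and two integrations by parts (`F` and `F_x` are periodic in `x`
  with period `1`, `e(-n x)` too, so there are no boundary terms) give
  `∫ e(-n x) F_xx dx = (2 π i n)^2 ∫ e(-n x) F dx = -4 π^2 n^2 fc F n y`.
-/

set_option autoImplicit false

noncomputable section

namespace Pool.Agent.Maass74

open Set Filter Topology MeasureTheory in
theorem Fou_diff {H H' : ℝ → ℝ → ℂ}
    (hH : ContinuousOn (fun q : ℝ × ℝ => H q.1 q.2) {q | 0 < q.2})
    (hH' : ContinuousOn (fun q : ℝ × ℝ => H' q.1 q.2) {q | 0 < q.2})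
    (hd : ∀ x y : ℝ, 0 < y → HasDerivAt (fun t => H x t) (H' x y) y)
    {e : ℝ → ℂ} (he : Continuous e) {y : ℝ} (hy : 0 < y) :
    HasDerivAt (fun t => ∫ x in (0 : ℝ)..1, e x * H x t) (∫ x in (0 : ℝ)..1, e x * H' x y) y := by
  have hcx : ∀ {K : ℝ → ℝ → ℂ}, ContinuousOn (fun q : ℝ × ℝ => K q.1 q.2) {q | 0 < q.2} →
      ∀ t : ℝ, 0 < t → Continuous (fun x => e x * K x t) := by
    intro K hK t ht
    refine he.mul ?_
    have : Continuous (fun x : ℝ => ((x, t) : ℝ × ℝ)) := by fun_prop
    exact hK.comp_continuous this (fun x => ht)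
  -- the compact set
  have hcomp : IsCompact ((Icc (0 : ℝ) 1) ×ˢ (Icc (y / 2) (2 * y))) := isCompact_Icc.prod isCompact_Icc
  have hsub : (Icc (0 : ℝ) 1) ×ˢ (Icc (y / 2) (2 * y)) ⊆ {q : ℝ × ℝ | 0 < q.2} := by
    rintro ⟨a, b⟩ ⟨_, hb⟩
    simp only [mem_ofPred_eq]
    have := hb.1
    simp only at this
    linarith
  have hcont : ContinuousOn (fun q : ℝ × ℝ => e q.1 * H' q.1 q.2)
      ((Icc (0 : ℝ) 1) ×ˢ (Icc (y / 2) (2 * y))) := by
    refine ContinuousOn.mul ?_ (hH'.mono hsub)
    exact (he.comp continuous_fst).continuousOn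
  obtain ⟨C, hC⟩ := hcomp.exists_bound_of_continuousOn hcont
  have key := intervalIntegral.hasDerivAt_integral_of_dominated_loc_of_deriv_le
    (μ := volume) (a := (0 : ℝ)) (b := 1) (x₀ := y) (s := Icc (y / 2) (2 * y))
    (F := fun t x => e x * H x t) (F' := fun t x => e x * H' x t) (bound := fun _ => C)
    (Icc_mem_nhds (by linarith) (by linarith))
    (by
      filter_upwards [lt_mem_nhds hy] with t ht
      exact (hcx hH t ht).aestronglyMeasurable)
    ((hcx hH y hy).intervalIntegrable _ _)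
    ((hcx hH' y hy).aestronglyMeasurable)
    (by
      refine Eventually.of_forall ?_
      intro x hx t ht
      have hx' : x ∈ Icc (0 : ℝ) 1 := by
        rw [uIoc_of_le zero_le_one] at hx
        exact ⟨hx.1.le, hx.2⟩
      exact hC (x, t) ⟨hx', ht⟩)
    (intervalIntegrable_const)
    (by
      refine Eventually.of_forall ?_
      intro x hx t ht
      have ht0 : 0 < t := by linarith [ht.1]
      exact (hd x t ht0).const_mul (e x))
  exact key.2

open Set Filter Topology MeasureTheory in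
theorem Fou_parts {u u' : ℝ → ℂ} (hu : ∀ x, HasDerivAt u (u' x) x) (hc : Continuous u')
    (h01 : u 0 = u 1) (n : ℤ) :
    ∫ x in (0 : ℝ)..1, Complex.exp (-(2 * Real.pi * Complex.I * n * x)) * u' x =
      (2 * Real.pi * Complex.I * n) *
        ∫ x in (0 : ℝ)..1, Complex.exp (-(2 * Real.pi * Complex.I * n * x)) * u x := by
  set c : ℂ := 2 * Real.pi * Complex.I * n with hcdef
  have he : ∀ x : ℝ, HasDerivAt (fun x : ℝ => Complex.exp (-(c * x)))
      (-c * Complex.exp (-(c * x))) x := by
    intro x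
    have h1 : HasDerivAt (fun x : ℝ => -(c * (x : ℂ))) (-(c * 1)) x := by
      exact ((Complex.ofRealCLM.hasDerivAt (x := x)).const_mul c).neg
    have h2 := h1.cexp
    convert h2 using 1
    ring
  have hec : Continuous (fun x : ℝ => Complex.exp (-(c * x))) := by fun_prop
  have huc : Continuous u := by
    rw [continuous_iff_continuousAt]
    intro x
    exact (hu x).continuousAt
  have hprod : ∀ x : ℝ, HasDerivAt (fun x : ℝ => Complex.exp (-(c * x)) * u x)
      (-c * Complex.exp (-(c * x)) * u x + Complex.exp (-(c * x)) * u' x) x := by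
    intro x
    exact (he x).mul (hu x)
  have hint := intervalIntegral.integral_eq_sub_of_hasDerivAt (a := (0 : ℝ)) (b := 1)
    (fun x _ => hprod x)
    (Continuous.intervalIntegrable (by fun_prop) _ _)
  have hexp1 : Complex.exp (-(c * ((1 : ℝ) : ℂ))) = 1 := by
    rw [hcdef]
    have : -(2 * (Real.pi : ℂ) * Complex.I * n * ((1 : ℝ) : ℂ)) =
        ((-n : ℤ) : ℂ) * (2 * Real.pi * Complex.I) := by
      push_cast
      ring
    rw [this]
    exact Complex.exp_int_mul_two_pi_mul_I (-n)
  have hexp0 : Complex.exp (-(c * ((0 : ℝ) : ℂ))) = 1 := by simp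
  rw [hexp1, hexp0, h01, sub_self] at hint
  rw [intervalIntegral.integral_add
    (Continuous.intervalIntegrable (by fun_prop) _ _)
    (Continuous.intervalIntegrable (by fun_prop) _ _)] at hint
  have h3 : ∫ x in (0 : ℝ)..1, -c * Complex.exp (-(c * x)) * u x =
      -c * ∫ x in (0 : ℝ)..1, Complex.exp (-(c * x)) * u x := by
    rw [← intervalIntegral.integral_const_mul]
    congr 1
    funext x
    ring
  rw [h3] at hint
  linear_combination hint

open Set Filter Topology MeasureTheory in
theorem fc_sol {F : ℝ → ℝ → ℂ} (hF : IsWave F) (n : ℤ) :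
    ∃ D : ℝ → ℂ, IsSol (4 * Real.pi ^ 2 * (n : ℝ) ^ 2) (fc F n) D := by
  set G : ℝ × ℝ → ℂ := fun q => F q.1 q.2 with hG
  have hU : IsOpen {q : ℝ × ℝ | 0 < q.2} := isOpen_lt continuous_const continuous_snd
  have hG2 : ContDiffOn ℝ 2 G {q | 0 < q.2} := hF.contDiff
  have hG' : ContDiffOn ℝ 1 (fderiv ℝ G) {q | 0 < q.2} :=
    hG2.fderiv_of_isOpen hU (by norm_num)
  -- directional derivatives
  have hdir : ∀ v : ℝ × ℝ, ContDiffOn ℝ 1 (fun q => fderiv ℝ G q v) {q | 0 < q.2} := by
    intro v
    exact hG'.clm_apply contDiffOn_const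
  have hdir2 : ∀ v w : ℝ × ℝ, ContinuousOn
      (fun q => fderiv ℝ (fun q => fderiv ℝ G q v) q w) {q | 0 < q.2} := by
    intro v w
    have h := (hdir v).continuousOn_fderiv_of_isOpen hU le_rfl
    exact h.clm_apply continuousOn_const
  have hdG : ∀ q : ℝ × ℝ, 0 < q.2 → HasFDerivAt G (fderiv ℝ G q) q := by
    intro q hq
    have h1 : DifferentiableAt ℝ G q :=
      (hG2.contDiffAt (hU.mem_nhds hq)).differentiableAt (by norm_num)
    exact h1.hasFDerivAt
  have hdG2 : ∀ v : ℝ × ℝ, ∀ q : ℝ × ℝ, 0 < q.2 → HasFDerivAt (fun q => fderiv ℝ G q v)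
      (fderiv ℝ (fun q => fderiv ℝ G q v) q) q := by
    intro v q hq
    have h1 : DifferentiableAt ℝ (fun q => fderiv ℝ G q v) q :=
      ((hdir v).contDiffAt (hU.mem_nhds hq)).differentiableAt (by norm_num)
    exact h1.hasFDerivAt
  -- lines
  have hliney : ∀ x y : ℝ, HasDerivAt (fun t : ℝ => ((x, t) : ℝ × ℝ)) (0, 1) y := by
    intro x y
    exact (hasDerivAt_const y x).prodMk (hasDerivAt_id y)
  have hlinex : ∀ x y : ℝ, HasDerivAt (fun t : ℝ => ((t, y) : ℝ × ℝ)) (1, 0) x := by
    intro x y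
    exact (hasDerivAt_id x).prodMk (hasDerivAt_const x y)
  set Fy : ℝ → ℝ → ℂ := fun x y => fderiv ℝ G (x, y) (0, 1) with hFy
  set Fx : ℝ → ℝ → ℂ := fun x y => fderiv ℝ G (x, y) (1, 0) with hFx
  set Fyy : ℝ → ℝ → ℂ :=
    fun x y => fderiv ℝ (fun q => fderiv ℝ G q (0, 1)) (x, y) (0, 1) with hFyy
  set Fxx : ℝ → ℝ → ℂ :=
    fun x y => fderiv ℝ (fun q => fderiv ℝ G q (1, 0)) (x, y) (1, 0) with hFxx
  have dy : ∀ x y : ℝ, 0 < y → HasDerivAt (fun t => F x t) (Fy x y) y := by
    intro x y hy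
    exact (hdG (x, y) hy).comp_hasDerivAt y (hliney x y)
  have dyy : ∀ x y : ℝ, 0 < y → HasDerivAt (fun t => Fy x t) (Fyy x y) y := by
    intro x y hy
    exact (hdG2 (0, 1) (x, y) hy).comp_hasDerivAt y (hliney x y)
  have dx : ∀ x y : ℝ, 0 < y → HasDerivAt (fun t => F t y) (Fx x y) x := by
    intro x y hy
    exact (hdG (x, y) hy).comp_hasDerivAt x (hlinex x y)
  have dxx : ∀ x y : ℝ, 0 < y → HasDerivAt (fun t => Fx t y) (Fxx x y) x := by
    intro x y hy
    exact (hdG2 (1, 0) (x, y) hy).comp_hasDerivAt x (hlinex x y)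
  have i2y : ∀ x y : ℝ, 0 < y → iteratedDeriv 2 (fun t => F x t) y = Fyy x y := by
    intro x y hy
    rw [iteratedDeriv_succ, iteratedDeriv_one]
    have : deriv (fun t => F x t) =ᶠ[𝓝 y] fun t => Fy x t := by
      filter_upwards [lt_mem_nhds hy] with t ht
      exact (dy x t ht).deriv
    rw [this.deriv_eq]
    exact (dyy x y hy).deriv
  have i2x : ∀ x y : ℝ, 0 < y → iteratedDeriv 2 (fun t => F t y) x = Fxx x y := by
    intro x y hy
    rw [iteratedDeriv_succ, iteratedDeriv_one]
    have : deriv (fun t => F t y) = fun t => Fx t y := by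
      funext t
      exact (dx t y hy).deriv
    rw [this]
    exact (dxx x y hy).deriv
  have cF : ContinuousOn (fun q : ℝ × ℝ => F q.1 q.2) {q | 0 < q.2} := hG2.continuousOn
  have cFy : ContinuousOn (fun q : ℝ × ℝ => Fy q.1 q.2) {q | 0 < q.2} := (hdir (0, 1)).continuousOn
  have cFx : ContinuousOn (fun q : ℝ × ℝ => Fx q.1 q.2) {q | 0 < q.2} := (hdir (1, 0)).continuousOn
  have cFyy : ContinuousOn (fun q : ℝ × ℝ => Fyy q.1 q.2) {q | 0 < q.2} := hdir2 (0, 1) (0, 1)
  have cFxx : ContinuousOn (fun q : ℝ × ℝ => Fxx q.1 q.2) {q | 0 < q.2} := hdir2 (1, 0) (1, 0)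
  have hline : ∀ y : ℝ, Continuous (fun x : ℝ => ((x, y) : ℝ × ℝ)) := by
    intro y
    fun_prop
  have hec : Continuous (fun x : ℝ => Complex.exp (-(2 * Real.pi * Complex.I * n * x))) := by
    fun_prop
  refine ⟨fun y => ∫ x in (0 : ℝ)..1,
    Complex.exp (-(2 * Real.pi * Complex.I * n * x)) * Fy x y, ?_⟩
  intro y hy
  refine ⟨?_, ?_⟩
  · exact Fou_diff cF cFy dy hec hy
  · have h1 := Fou_diff cFy cFyy dyy hec hy
    have ccF : Continuous (fun x => F x y) := cF.comp_continuous (hline y) (fun x => hy)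
    have ccFx : Continuous (fun x => Fx x y) := cFx.comp_continuous (hline y) (fun x => hy)
    have ccFxx : Continuous (fun x => Fxx x y) := cFxx.comp_continuous (hline y) (fun x => hy)
    have hper : F 0 y = F 1 y := by
      have := hF.periodic 0 y hy
      rw [zero_add] at this
      exact this.symm
    have hperx : Fx 0 y = Fx 1 y := by
      have e1 : HasDerivAt (fun t : ℝ => F (t + 1) y) (Fx 1 y) 0 := by
        have := HasDerivAt.comp_add_const (x := (0 : ℝ)) (a := 1)
          (f := fun t => F t y) (f' := Fx 1 y) (by simpa using dx 1 y hy)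
        exact this
      have e2 : (fun t : ℝ => F (t + 1) y) = fun t => F t y := by
        funext t
        exact hF.periodic t y hy
      rw [e2] at e1
      exact (dx 0 y hy).unique e1
    have p1 := Fou_parts (u := fun x => Fx x y) (u' := fun x => Fxx x y)
      (fun x => dxx x y hy) ccFxx hperx n
    have p2 := Fou_parts (u := fun x => F x y) (u' := fun x => Fx x y)
      (fun x => dx x y hy) ccFx hper n
    have h2 : ∀ x : ℝ, Complex.exp (-(2 * Real.pi * Complex.I * n * x)) * Fyy x y =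
        -(Complex.exp (-(2 * Real.pi * Complex.I * n * x)) * Fxx x y) -
          (1 / (4 * (y : ℂ) ^ 2)) *
            (Complex.exp (-(2 * Real.pi * Complex.I * n * x)) * F x y) := by
      intro x
      have h3 := hF.eigenvalue x y hy
      rw [i2y x y hy, i2x x y hy] at h3
      have hy0 : (y : ℂ) ≠ 0 := by exact_mod_cast hy.ne'
      have h4 : Fyy x y = -Fxx x y - (1 / (4 * (y : ℂ) ^ 2)) * F x y := by
        field_simp
        linear_combination 4 * h3
      rw [h4]
      ring
    have h5 : ∫ x in (0 : ℝ)..1, Complex.exp (-(2 * Real.pi * Complex.I * n * x)) * Fyy x y =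
        ((4 * Real.pi ^ 2 * (n : ℝ) ^ 2 - 1 / (4 * y ^ 2) : ℝ) : ℂ) * fc F n y := by
      have h6 : (fun x : ℝ => Complex.exp (-(2 * Real.pi * Complex.I * n * x)) * Fyy x y) =
          fun x : ℝ => -(Complex.exp (-(2 * Real.pi * Complex.I * n * x)) * Fxx x y) -
          (1 / (4 * (y : ℂ) ^ 2)) *
            (Complex.exp (-(2 * Real.pi * Complex.I * n * x)) * F x y) := by
        funext x
        exact h2 x
      rw [h6, intervalIntegral.integral_sub
        (Continuous.intervalIntegrable (by fun_prop) _ _)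
        (Continuous.intervalIntegrable (by fun_prop) _ _),
        intervalIntegral.integral_neg, intervalIntegral.integral_const_mul, p1, p2]
      unfold fc
      push_cast
      have hI : Complex.I ^ 2 = -1 := Complex.I_sq
      linear_combination (-4 * (Real.pi : ℂ) ^ 2 * (n : ℂ) ^ 2 *
        ∫ x in (0 : ℝ)..1, Complex.exp (-(2 * Real.pi * Complex.I * n * x)) * F x y) * hI
    rw [h5] at h1
    exact h1

end Pool.Agent.Maass74
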