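import Pool.Agent.W_7742m_h74.Defs

/-!
# Hecke operators and Fourier coefficients

* `fc_mul`: substitute `t = p x`: the integral is
  `(1 / p) ∫_0^p e(-n t / p) F(t, p y) dt = (1 / p) (∑_{j < p} e(-n j / p)) ∫_0^1 e(-n t / p) F(t, p y) dt`
  by periodicity, and the sum over `j` is `p` if `p ∣ n` and `0` otherwise.
* `fc_div`: `∑_b ∫_0^1 e(-n x) F((x + b) / p, y / p) dx = ∫_0^p e(-n x) F(x / p, y / p) dx`
  (`e(-n x)` has period one) `= p ∫_0^1 e(-n p t) F(t, y / p) dt`.
* `coeff_hecke`: take the `n`-th Fourier coefficient of the relation: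
  `χ [p ∣ n] fc F (n / p) (p y) + p fc F (n p) (y / p) = √p a fc F n y`; insert
  `fc F n y = c n W(|n| y) / √|n|`; for `n ≠ 0` all terms contain `W(|n| y)`, and we get
  `(√p / √|n|) W(|n| y) (χ [p ∣ n] c (n / p) + c (n p) - a c n) = 0`; choose `y` with
  `W(|n| y) ≠ 0` (`W_ne_zero`).  For `n = 0` everything is zero (`c 0 = 0`).
-/

set_option autoImplicit false

noncomputable section

namespace Pool.Agent.Maass74

/-- the function `x ↦ F x y` is continuous -/
private theorem Heck_cont {F : ℝ → ℝ → ℂ} (hF : IsWave F) {y : ℝ} (hy : 0 < y) :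
    Continuous fun x : ℝ => F x y := by
  rw [← continuousOn_univ]
  have h1 : ContinuousOn (fun q : ℝ × ℝ => F q.1 q.2) {q | 0 < q.2} := hF.contDiff.continuousOn
  have h2 : ContinuousOn (fun x : ℝ => ((x, y) : ℝ × ℝ)) Set.univ := by fun_prop
  exact h1.comp h2 fun x _ => hy

/-- periodicity with integer shifts -/
private theorem Heck_per {F : ℝ → ℝ → ℂ} (hF : IsWave F) {y : ℝ} (hy : 0 < y) (j : ℕ) (x : ℝ) :
    F (x + j) y = F x y := by
  induction j with
  | zero => simp
  | succ j ih =>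
    have h1 : x + ((j + 1 : ℕ) : ℝ) = (x + j) + 1 := by push_cast; ring
    rw [h1, hF.periodic _ _ hy, ih]

private theorem Heck_expint (n : ℤ) (j : ℕ) :
    Complex.exp (-(2 * Real.pi * Complex.I * n * j)) = 1 := by
  rw [Complex.exp_eq_one_iff]
  refine ⟨-(n * j), ?_⟩
  push_cast
  ring

/-- the sum of the roots of unity -/
private theorem Heck_geom (n : ℤ) {p : ℕ} (hp : 0 < p) :
    ∑ j ∈ Finset.range p, Complex.exp (-(2 * Real.pi * Complex.I * n * ((j : ℝ) / p : ℝ))) =
      if (p : ℤ) ∣ n then (p : ℂ) else 0 := by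
  have hpC : (p : ℂ) ≠ 0 := by exact_mod_cast hp.ne'
  have h1 : ∀ j : ℕ, Complex.exp (-(2 * Real.pi * Complex.I * n * ((j : ℝ) / p : ℝ))) =
      Complex.exp (-(2 * Real.pi * Complex.I * n / p)) ^ j := by
    intro j
    rw [← Complex.exp_nat_mul]
    congr 1
    push_cast
    field_simp
  rw [Finset.sum_congr rfl fun j _ => h1 j]
  have h2 : Complex.exp (-(2 * Real.pi * Complex.I * n / p)) ^ p = 1 := by
    rw [← Complex.exp_nat_mul]
    have h3 : (p : ℂ) * -(2 * Real.pi * Complex.I * n / p) =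
        -(2 * Real.pi * Complex.I * n * (1 : ℕ)) := by
      push_cast
      field_simp
    rw [h3]
    exact Heck_expint n 1
  have hpi : (2 * Real.pi * Complex.I : ℂ) ≠ 0 := Complex.two_pi_I_ne_zero
  split_ifs with h
  · obtain ⟨m, rfl⟩ := h
    have h3 : Complex.exp (-(2 * Real.pi * Complex.I * ((p * m : ℤ) : ℂ) / p)) = 1 := by
      have h4 : -(2 * Real.pi * Complex.I * ((p * m : ℤ) : ℂ) / p) =
          -(2 * Real.pi * Complex.I * m * (1 : ℕ)) := by
        push_cast
        field_simp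
      rw [h4]
      exact Heck_expint m 1
    rw [h3]
    simp
  · have h3 : Complex.exp (-(2 * Real.pi * Complex.I * n / p)) ≠ 1 := by
      intro h4
      rw [Complex.exp_eq_one_iff] at h4
      obtain ⟨m, hm⟩ := h4
      apply h
      refine ⟨-m, ?_⟩
      have h5 : (n : ℂ) = p * (-m) := by
        have h6 : (2 * Real.pi * Complex.I : ℂ) * (-(n / p)) = (2 * Real.pi * Complex.I) * m := by
          rw [mul_comm _ (m : ℂ), ← hm]
          ring
        have h7 : (-(n / p) : ℂ) = m := mul_left_cancel₀ hpi h6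
        rw [← h7]
        field_simp
      exact_mod_cast h5
    rw [geom_sum_eq h3, h2]
    simp

/-- splitting an integral over `[0, p]` -/
private theorem Heck_split {g : ℝ → ℂ} (hg : Continuous g) (p : ℕ) :
    ∫ x in (0 : ℝ)..p, g x = ∑ j ∈ Finset.range p, ∫ x in (0 : ℝ)..1, g (x + j) := by
  have h1 := intervalIntegral.sum_integral_adjacent_intervals (μ := MeasureTheory.volume) (f := g)
    (a := fun j : ℕ => (j : ℝ)) (n := p) fun k _ => hg.intervalIntegrable _ _
  rw [Nat.cast_zero] at h1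
  rw [← h1]
  refine Finset.sum_congr rfl fun j _ => ?_
  rw [intervalIntegral.integral_comp_add_right]
  push_cast
  congr 1 <;> ring

theorem fc_mul {F : ℝ → ℝ → ℂ} (hF : IsWave F) {p : ℕ} (hp : 0 < p) (n : ℤ) {y : ℝ}
    (hy : 0 < y) :
    ∫ x in (0 : ℝ)..1, Complex.exp (-(2 * Real.pi * Complex.I * n * x)) * F (p * x) (p * y) =
      if (p : ℤ) ∣ n then fc F (n / p) (p * y) else 0 := by
  have hpR : (p : ℝ) ≠ 0 := by exact_mod_cast hp.ne'
  have hpC : (p : ℂ) ≠ 0 := by exact_mod_cast hp.ne'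
  have hpy : 0 < (p : ℝ) * y := by positivity
  have hcF := Heck_cont hF hpy
  have hg : Continuous fun t : ℝ =>
      Complex.exp (-(2 * Real.pi * Complex.I * n * (t / p : ℝ))) * F t (p * y) := by
    refine Continuous.mul ?_ hcF
    fun_prop
  have h1 : ∫ x in (0 : ℝ)..1, Complex.exp (-(2 * Real.pi * Complex.I * n * x)) * F (p * x) (p * y) =
      (p : ℝ)⁻¹ • ∫ t in (0 : ℝ)..p,
        Complex.exp (-(2 * Real.pi * Complex.I * n * (t / p : ℝ))) * F t (p * y) := by
    have h2 := intervalIntegral.integral_comp_mul_left (a := 0) (b := 1)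
      (fun t : ℝ => Complex.exp (-(2 * Real.pi * Complex.I * n * (t / p : ℝ))) * F t (p * y)) hpR
    rw [mul_zero, mul_one] at h2
    rw [← h2]
    refine intervalIntegral.integral_congr fun x _ => ?_
    rw [mul_div_cancel_left₀ _ hpR]
  rw [h1, Heck_split hg]
  have h3 : ∀ j ∈ Finset.range p, ∫ x in (0 : ℝ)..1,
      Complex.exp (-(2 * Real.pi * Complex.I * n * ((x + j) / p : ℝ))) * F (x + j) (p * y) =
      Complex.exp (-(2 * Real.pi * Complex.I * n * ((j : ℝ) / p : ℝ))) *
      ∫ x in (0 : ℝ)..1, Complex.exp (-(2 * Real.pi * Complex.I * n * (x / p : ℝ))) * F x (p * y) := by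
    intro j _
    rw [← intervalIntegral.integral_const_mul]
    refine intervalIntegral.integral_congr fun x _ => ?_
    rw [Heck_per hF hpy j x, ← mul_assoc, ← Complex.exp_add]
    congr 2
    push_cast
    ring
  rw [Finset.sum_congr rfl h3, ← Finset.sum_mul, Heck_geom n hp]
  split_ifs with h
  · rw [Complex.real_smul, ← mul_assoc]
    push_cast
    rw [inv_mul_cancel₀ hpC, one_mul]
    unfold fc
    refine intervalIntegral.integral_congr fun x _ => ?_
    congr 2
    obtain ⟨m, rfl⟩ := h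
    rw [Int.mul_ediv_cancel_left m (by exact_mod_cast hp.ne')]
    push_cast
    field_simp
  · simp

theorem fc_div {F : ℝ → ℝ → ℂ} (hF : IsWave F) {p : ℕ} (hp : 0 < p) (n : ℤ) {y : ℝ}
    (hy : 0 < y) :
    ∫ x in (0 : ℝ)..1, Complex.exp (-(2 * Real.pi * Complex.I * n * x)) *
      ∑ b ∈ Finset.range p, F ((x + b) / p) (y / p) = p * fc F (n * p) (y / p) := by
  have hpR : (p : ℝ) ≠ 0 := by exact_mod_cast hp.ne'
  have hpC : (p : ℂ) ≠ 0 := by exact_mod_cast hp.ne'
  have hpy : 0 < y / (p : ℝ) := by positivity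
  have hcF := Heck_cont hF hpy
  have hg : Continuous fun t : ℝ =>
      Complex.exp (-(2 * Real.pi * Complex.I * n * t)) * F (t / p) (y / p) := by
    refine Continuous.mul (by fun_prop) ?_
    exact hcF.comp (continuous_id.div_const _)
  have h1 : ∫ x in (0 : ℝ)..1, Complex.exp (-(2 * Real.pi * Complex.I * n * x)) *
      ∑ b ∈ Finset.range p, F ((x + b) / p) (y / p) =
      ∑ b ∈ Finset.range p, ∫ x in (0 : ℝ)..1,
        Complex.exp (-(2 * Real.pi * Complex.I * n * x)) * F ((x + b) / p) (y / p) := by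
    rw [← intervalIntegral.integral_finsetSum]
    · refine intervalIntegral.integral_congr fun x _ => ?_
      rw [Finset.mul_sum]
    · intro b _
      refine Continuous.intervalIntegrable ?_ _ _
      refine Continuous.mul (by fun_prop) ?_
      exact hcF.comp ((continuous_id.add continuous_const).div_const _)
  have h2 : ∀ b ∈ Finset.range p, ∫ x in (0 : ℝ)..1,
        Complex.exp (-(2 * Real.pi * Complex.I * n * x)) * F ((x + b) / p) (y / p) =
      ∫ x in (0 : ℝ)..1,
        Complex.exp (-(2 * Real.pi * Complex.I * n * (x + b : ℝ))) * F ((x + b) / p) (y / p) := by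
    intro b _
    refine intervalIntegral.integral_congr fun x _ => ?_
    congr 1
    have h3 : -(2 * Real.pi * Complex.I * n * ((x + b : ℝ) : ℂ)) =
        -(2 * Real.pi * Complex.I * n * x) + -(2 * Real.pi * Complex.I * n * b) := by
      push_cast
      ring
    rw [h3, Complex.exp_add, Heck_expint, mul_one]
  rw [h1, Finset.sum_congr rfl h2, ← Heck_split hg p]
  have h4 := intervalIntegral.integral_comp_mul_left (a := 0) (b := 1)
      (fun t : ℝ => Complex.exp (-(2 * Real.pi * Complex.I * n * t)) * F (t / p) (y / p)) hpR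
  rw [mul_zero, mul_one] at h4
  have h5 : ∫ x in (0 : ℝ)..p, Complex.exp (-(2 * Real.pi * Complex.I * n * x)) *
      F (x / p) (y / p) = (p : ℂ) * ((p : ℝ)⁻¹ • ∫ x in (0 : ℝ)..p,
        Complex.exp (-(2 * Real.pi * Complex.I * n * x)) * F (x / p) (y / p)) := by
    rw [Complex.real_smul, ← mul_assoc]
    push_cast
    rw [mul_inv_cancel₀ hpC, one_mul]
  rw [h5, ← h4]
  unfold fc
  congr 1
  refine intervalIntegral.integral_congr fun x _ => ?_
  rw [mul_div_cancel_left₀ _ hpR]
  congr 2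
  push_cast
  ring

theorem coeff_hecke {F : ℝ → ℝ → ℂ} (hF : IsWave F) {W : ℝ → ℂ} {c : ℤ → ℂ}
    (hE : IsExpansion F W c) {p : ℕ} (hp : 0 < p) {χ a : ℂ}
    (h : ∀ x y : ℝ, 0 < y → χ * F (p * x) (p * y) +
      ∑ b ∈ Finset.range p, F ((x + b) / p) (y / p) = (Real.sqrt p : ℂ) * a * F x y) (n : ℤ) :
    c (n * p) + χ * (if (p : ℤ) ∣ n then c (n / p) else 0) = a * c n := by
  have hpR0 : (0 : ℝ) < p := by exact_mod_cast hp
  have hpC : (p : ℂ) ≠ 0 := by exact_mod_cast hp.ne'
  have hpZ : (p : ℤ) ≠ 0 := by exact_mod_cast hp.ne'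
  rcases eq_or_ne n 0 with hn | hn
  · subst hn
    simp [hE.zero]
  have hnR : 0 < |(n : ℝ)| := abs_pos.2 (by exact_mod_cast hn)
  obtain ⟨y0, hy0, _, hW⟩ := hE.W_ne_zero
  set y : ℝ := y0 / |(n : ℝ)| with hy
  have hypos : 0 < y := div_pos hy0 hnR
  have hny : |(n : ℝ)| * y = y0 := by
    rw [hy]
    field_simp
  have hpy : 0 < (p : ℝ) * y := by positivity
  have hyp : 0 < y / (p : ℝ) := by positivity
  have hc1 := Heck_cont hF hpy
  have hc2 := Heck_cont hF hyp
  have h1 : χ * (∫ x in (0 : ℝ)..1, Complex.exp (-(2 * Real.pi * Complex.I * n * x)) *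
      F (p * x) (p * y)) + (∫ x in (0 : ℝ)..1, Complex.exp (-(2 * Real.pi * Complex.I * n * x)) *
      ∑ b ∈ Finset.range p, F ((x + b) / p) (y / p)) = (Real.sqrt p : ℂ) * a * fc F n y := by
    unfold fc
    rw [← intervalIntegral.integral_const_mul, ← intervalIntegral.integral_const_mul,
      ← intervalIntegral.integral_add]
    · refine intervalIntegral.integral_congr fun x _ => ?_
      have h2 := h x y hypos
      calc _ = Complex.exp (-(2 * Real.pi * Complex.I * n * x)) * (χ * F (p * x) (p * y) +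
          ∑ b ∈ Finset.range p, F ((x + b) / p) (y / p)) := by ring
        _ = _ := by rw [h2]; ring
    · refine Continuous.intervalIntegrable ?_ _ _
      refine continuous_const.mul (Continuous.mul (by fun_prop) ?_)
      exact hc1.comp (continuous_const.mul continuous_id)
    · refine Continuous.intervalIntegrable ?_ _ _
      refine Continuous.mul (by fun_prop) (continuous_finsetSum _ fun b _ => ?_)
      exact hc2.comp ((continuous_id.add continuous_const).div_const _)
  rw [fc_mul hF hp n hypos, fc_div hF hp n hypos, hE.eq n y hypos, hE.eq (n * p) _ hyp] at h1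
  have hs : (Real.sqrt p : ℂ) * Real.sqrt p = p := by
    rw [← Complex.ofReal_mul, Real.mul_self_sqrt hpR0.le]
    simp
  have hs0 : (Real.sqrt p : ℂ) ≠ 0 := by
    intro h0
    rw [h0, zero_mul] at hs
    exact hpC hs.symm
  have hsn0 : (Real.sqrt |(n : ℝ)| : ℂ) ≠ 0 := by
    rw [Ne, Complex.ofReal_eq_zero]
    exact (Real.sqrt_pos.2 hnR).ne'
  have ha1 : |((n * p : ℤ) : ℝ)| = |(n : ℝ)| * p := by
    push_cast
    rw [abs_mul, abs_of_pos hpR0]
  have ha2 : |((n * p : ℤ) : ℝ)| * (y / p) = y0 := by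
    rw [ha1, ← hny]
    field_simp
  have ha3 : (Real.sqrt |((n * p : ℤ) : ℝ)| : ℂ) = Real.sqrt |(n : ℝ)| * Real.sqrt p := by
    rw [ha1, Real.sqrt_mul (abs_nonneg _), Complex.ofReal_mul]
  rw [ha2, ha3, hny] at h1
  have h3 : (if (p : ℤ) ∣ n then fc F (n / p) (p * y) else 0) =
      (if (p : ℤ) ∣ n then c (n / p) else 0) * (W y0 * Real.sqrt p / Real.sqrt |(n : ℝ)|) := by
    split_ifs with hd
    · rw [hE.eq _ _ hpy]
      obtain ⟨m, rfl⟩ := hd
      rw [Int.mul_ediv_cancel_left m hpZ]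
      have hb1 : |((p * m : ℤ) : ℝ)| = p * |(m : ℝ)| := by
        push_cast
        rw [abs_mul, abs_of_pos hpR0]
      have hb2 : |(m : ℝ)| * (p * y) = y0 := by
        rw [← hny, hb1]
        ring
      have hm0 : 0 < |(m : ℝ)| := by
        rw [hb1] at hnR
        exact pos_of_mul_pos_right hnR hpR0.le
      have hsm0 : (Real.sqrt |(m : ℝ)| : ℂ) ≠ 0 := by
        rw [Ne, Complex.ofReal_eq_zero]
        exact (Real.sqrt_pos.2 hm0).ne'
      rw [hb2, hb1, Real.sqrt_mul hpR0.le, Complex.ofReal_mul]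
      field_simp
    · simp
  rw [h3] at h1
  have hfac : (W y0 * Real.sqrt p / Real.sqrt |(n : ℝ)| : ℂ) ≠ 0 :=
    div_ne_zero (mul_ne_zero hW hs0) hsn0
  refine mul_right_cancel₀ hfac ?_
  have h4 : (p : ℂ) * (c (n * p) * W y0 / (Real.sqrt |(n : ℝ)| * Real.sqrt p)) =
      c (n * p) * (W y0 * Real.sqrt p / Real.sqrt |(n : ℝ)|) := by
    rw [← hs]
    field_simp
  rw [h4] at h1
  calc _ = χ * ((if (p : ℤ) ∣ n then c (n / p) else 0) * (W y0 * Real.sqrt p / Real.sqrt |(n : ℝ)|)) +
        c (n * p) * (W y0 * Real.sqrt p / Real.sqrt |(n : ℝ)|) := by ring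
    _ = _ := by rw [h1]; ring

end Pool.Agent.Maass74
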