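import Pool.Agent.W_7742m_h74.MEnt
import Pool.Agent.W_7742k_h74.FIdn
import Pool.Agent.W_7742z_h74.Fin
import Pool.Agent.W_7742y_h74.Fin

/-! # From the complex representations to one representation over a number field

`R s`, `s : K → ℂ`, are complex representations with open kernels with `tr R_s(Fr p) = s (t p)` for `p`
outside a set of density zero which may depend on `s`, `t p : 𝓞 K`.  (Here `K →+* ℂ` is finite and not
empty.)

Let `U` be the intersection of the kernels, open and normal, `G / U` finite.  For every `g` there is a prime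
`p` outside the union of the exceptional sets with `Fr p` conjugate to `g` modulo `U`
(`OneI74.exists_frob` in `W_7742z_h74/Frb.lean` for `frobeniusData`, as in the proof of
`DZ74.same_charpoly` in `W_7742k_h74/FIdn.lean`), so `tr R_s(g) = s (t p)` for all `s`.  So there is
`β : G / U → 𝓞 K` with `tr R_s(g) = s (β (mk g))` for all `s`, `g`.  `exists_field` (for one `s₀`) gives
`E`, `i` and a representation of `G / U` over `E` with trace `i ∘ β`; `R'` is its composition with
`G → G / U` (`MonoidHom.toHomUnits`).  For `τ : E → ℂ` and `s = τ ∘ i` the traces of `R'(g) ^ τ` and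
`R_s(g)` are equal for all `g`, so the characteristic polynomials are equal
(`DZ74.charpoly_eq_of_traces`, applied to the powers of `g`).  If `R'(g) = 1` then
`tr R_s(g) = n` and `R_s(g) = 1` (`DZ74.eq_one_of_trace`), and conversely (`τ` is injective; apply
`eq_one_of_trace` to `R'(g) ^ τ`). -/

set_option autoImplicit false

noncomputable section

namespace Pool.Agent.OneM74

open NumberField Pool.Agent.Cheb Pool.Agent.GalSide Pool.Agent.OneI74

/-- A representation with open kernel as a representation of the quotient by a smaller subgroup. -/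
def MFam_lift {n : ℕ} (R : AbsGal ℚ →* GL (Fin n) ℂ) (U : Subgroup (AbsGal ℚ)) [U.Normal]
    (hU : U ≤ R.ker) : AbsGal ℚ ⧸ U →* Matrix (Fin n) (Fin n) ℂ :=
  QuotientGroup.lift U ((Units.coeHom _).comp R) fun g hg => by
    have h1 : R g = 1 := MonoidHom.mem_ker.1 (hU hg)
    change (R g).val = 1
    rw [h1]
    rfl

theorem MFam_lift_mk {n : ℕ} (R : AbsGal ℚ →* GL (Fin n) ℂ) (U : Subgroup (AbsGal ℚ)) [U.Normal]
    (hU : U ≤ R.ker) (g : AbsGal ℚ) :
    MFam_lift R U hU (QuotientGroup.mk g) = (R g).val := rfl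

theorem MFam_conj {n : ℕ} {G : Type} [Group G] (ρ : G →* Matrix (Fin n) (Fin n) ℂ) {x y : G}
    (h : IsConj x y) : (ρ x).trace = (ρ y).trace := by
  obtain ⟨c, rfl⟩ := isConj_iff.1 h
  rw [map_mul, map_mul, Matrix.trace_mul_comm, ← mul_assoc, ← map_mul, inv_mul_cancel, map_one,
    one_mul]

theorem MFam_union {J : Type} [Finite J] [Nonempty J] (A : J → Set Nat.Primes)
    (h : ∀ j, HasDensity (A j) 0) : HasDensity (⋃ j, A j) 0 := by
  classical
  have := Fintype.ofFinite J
  have h0 : HasDensity ∅ 0 :=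
    Pool.Agent.OneP74.density_union' (h (Classical.arbitrary J)) (h (Classical.arbitrary J))
      (Set.empty_subset _)
  have h1 : ∀ F : Finset J, HasDensity (⋃ j ∈ F, A j) 0 := by
    intro F
    induction F using Finset.induction_on with
    | empty => simpa using h0
    | insert a F _ ih =>
      refine Pool.Agent.OneP74.density_union' (h a) ih ?_
      rw [Finset.set_biUnion_insert]
  simpa using h1 Finset.univ

theorem exists_numberField {K : Type} [Field K] [NumberField K] {n : ℕ}
    {Fr : Nat.Primes → AbsGal ℚ} (hFr : Pool.Agent.OneP74.IsFrobeniusFamily Fr)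
    (R : (K →+* ℂ) → AbsGal ℚ →* GL (Fin n) ℂ) (hR : ∀ s, IsOpen ((R s).ker : Set (AbsGal ℚ)))
    (t : Nat.Primes → 𝓞 K)
    (h : ∀ s, HasDensity {p : Nat.Primes | (R s (Fr p)).val.trace ≠ s (t p : K)} 0) :
    ∃ (E : Type) (_ : Field E) (_ : NumberField E) (i : K →+* E)
      (R' : AbsGal ℚ →* GL (Fin n) E), IsOpen (R'.ker : Set (AbsGal ℚ)) ∧
      (∀ s, (R s).ker = R'.ker) ∧
      ∀ (τ : E →+* ℂ) (g : AbsGal ℚ),
        (R' g).val.charpoly.map τ = (R (τ.comp i) g).val.charpoly := by
  classical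
  choose 𝔓 h𝔓 hp hF using hFr
  obtain ⟨U, hUdef⟩ : ∃ U : Subgroup (AbsGal ℚ), U = ⨅ s, (R s).ker := ⟨_, rfl⟩
  have hUle : ∀ s, U ≤ (R s).ker := fun s => by
    rw [hUdef]
    exact iInf_le _ s
  have hUn : U.Normal := by
    rw [hUdef]
    exact Subgroup.normal_iInf_normal fun s => inferInstance
  have hUo : IsOpen (U : Set (AbsGal ℚ)) := by
    rw [hUdef, Subgroup.coe_iInf]
    exact isOpen_iInter_of_finite hR
  have hfin : Finite (AbsGal ℚ ⧸ U) := Subgroup.quotient_finite_of_isOpen U hUo
  set m := Nat.card (AbsGal ℚ ⧸ U) with hm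
  have hmp : 0 < m := Nat.card_pos
  let ρ : (K →+* ℂ) → AbsGal ℚ ⧸ U →* Matrix (Fin n) (Fin n) ℂ := fun s =>
    MFam_lift (R s) U (hUle s)
  have hρ : ∀ s g, ρ s (QuotientGroup.mk g) = (R s g).val := fun s g => rfl
  have hρm : ∀ s x, ρ s x ^ m = 1 := fun s x => by
    rw [← map_pow, hm, pow_card_eq_one', map_one]
  have hZ := MFam_union (fun s : K →+* ℂ => {p : Nat.Primes | (R s (Fr p)).val.trace ≠
    s (t p : K)}) h
  have hex : ∀ x : AbsGal ℚ ⧸ U, ∃ b : 𝓞 K, ∀ s : K →+* ℂ, (ρ s x).trace = s (b : K) := by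
    intro x
    obtain ⟨g, rfl⟩ := QuotientGroup.mk_surjective x
    obtain ⟨p, hpZ, hpg⟩ := exists_frob (frobeniusData 𝔓 h𝔓 hp Fr hF) U hUo g hZ
    refine ⟨t p, fun s => ?_⟩
    rw [← MFam_conj (ρ s) hpg]
    by_contra hne
    exact hpZ (Set.mem_iUnion.2 ⟨s, hne⟩)
  choose β hβ using hex
  obtain ⟨s₀⟩ : Nonempty (K →+* ℂ) := inferInstance
  obtain ⟨E, hE1, hE2, i, R₀, hR₀⟩ := exists_field β s₀ (ρ s₀) fun g => hβ g s₀
  let R' : AbsGal ℚ →* GL (Fin n) E := (R₀.comp (QuotientGroup.mk' U)).toHomUnits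
  have hR' : ∀ g, (R' g).val = R₀ (QuotientGroup.mk g) := fun g => rfl
  obtain ⟨τ₀⟩ : Nonempty (E →+* ℂ) := inferInstance
  refine ⟨E, hE1, hE2, i, R', ?_, fun s => ?_, fun τ g => ?_⟩
  · refine Subgroup.isOpen_mono (H₁ := U) (fun g hg => MonoidHom.mem_ker.2 ?_) hUo
    apply Units.ext
    rw [hR', (QuotientGroup.eq_one_iff g).2 hg, map_one]
    rfl
  · ext g
    rw [MonoidHom.mem_ker, MonoidHom.mem_ker]
    constructor
    · intro hg
      have h1 : s (β (QuotientGroup.mk g) : K) = s (n : K) := by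
        rw [← hβ, hρ, hg, Units.val_one, Matrix.trace_one, Fintype.card_fin, map_natCast]
      have h2 : (β (QuotientGroup.mk g) : K) = n := s.injective h1
      have h3 : (R₀ (QuotientGroup.mk g)).map τ₀ = 1 := by
        refine Pool.Agent.DZ74.eq_one_of_trace hmp _ ?_ ?_
        · rw [← RingHom.mapMatrix_apply, ← map_pow, ← map_pow, hm, pow_card_eq_one', map_one,
            map_one]
        · have h4 : ((R₀ (QuotientGroup.mk g)).map τ₀).trace =
              τ₀ (R₀ (QuotientGroup.mk g)).trace :=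
            (AddMonoidHom.map_trace (τ₀ : E →+ ℂ) _).symm
          rw [h4, hR₀, h2, map_natCast, map_natCast]
      apply Units.ext
      rw [hR', Units.val_one]
      refine Matrix.map_injective τ₀.injective ?_
      change (R₀ (QuotientGroup.mk g)).map τ₀ = (1 : Matrix (Fin n) (Fin n) E).map τ₀
      rw [h3, Matrix.map_one τ₀ (map_zero τ₀) (map_one τ₀)]
    · intro hg
      have h1 : i (β (QuotientGroup.mk g) : K) = i (n : K) := by
        rw [← hR₀, ← hR', hg, Units.val_one, Matrix.trace_one, Fintype.card_fin, map_natCast]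
      have h2 : (β (QuotientGroup.mk g) : K) = n := i.injective h1
      apply Units.ext
      rw [Units.val_one, ← hρ]
      refine Pool.Agent.DZ74.eq_one_of_trace hmp _ (hρm s _) ?_
      rw [hβ, h2, map_natCast]
  · rw [hR', ← hρ (τ.comp i) g, ← Matrix.charpoly_map]
    refine Pool.Agent.DZ74.charpoly_eq_of_traces _ _ fun k _ _ => ?_
    rw [← RingHom.mapMatrix_apply, ← map_pow, ← map_pow, ← map_pow, hβ, RingHom.mapMatrix_apply]
    have h4 : ((R₀ ((QuotientGroup.mk g : AbsGal ℚ ⧸ U) ^ k)).map τ).trace =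
        τ (R₀ ((QuotientGroup.mk g : AbsGal ℚ ⧸ U) ^ k)).trace :=
      (AddMonoidHom.map_trace (τ : E →+ ℂ) _).symm
    rw [h4, hR₀]
    rfl

/-- Schur's lemma: the mean square of an irreducible character is at most one. -/
theorem MFam_schur {G : Type} [Group G] [Fintype G] {n : ℕ} (hn : 0 < n)
    (ρ : G →* Matrix (Fin n) (Fin n) ℂ)
    (h : ∀ W : Submodule ℂ (Fin n → ℂ), (∀ g, ∀ w ∈ W, (ρ g).mulVec w ∈ W) → W = ⊥ ∨ W = ⊤) :
    ∑ g, ‖(ρ g).trace‖ ^ 2 ≤ (Fintype.card G : ℝ) := by
  classical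
  let r : Representation ℂ G (Fin n → ℂ) :=
    (Matrix.toLinAlgEquiv' (R := ℂ) (n := Fin n)).toMonoidHom.comp ρ
  have hr : ∀ g v, r g v = (ρ g).mulVec v := fun g v => rfl
  have hchar : ∀ g, r.character g = (ρ g).trace := fun g => Matrix.trace_toLin'_eq (ρ g)
  have hcard0 : (Nat.card G : ℂ) ≠ 0 := Nat.cast_ne_zero.2 Nat.card_pos.ne'
  let _ : Invertible (Nat.card G : ℂ) := invertibleOfNonzero hcard0
  have key := Representation.card_inv_mul_sum_char_eq_finrank (Representation.linHom r r)
  have hsum : ∑ g : G, (Representation.linHom r r).character g =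
      ((∑ g : G, ‖(ρ g).trace‖ ^ 2 : ℝ) : ℂ) := by
    rw [Complex.ofReal_sum]
    refine Finset.sum_congr rfl fun g _ => ?_
    rw [Representation.char_linHom, hchar, hchar]
    have h1 : (ρ g⁻¹).trace = star (ρ g).trace := by
      have := irr_trace_inv_eq ρ g⁻¹
      rw [inv_inv] at this
      exact this.symm
    rw [h1, Complex.ofReal_pow]
    exact Complex.conj_mul' _
  rw [hsum] at key
  have hle : Module.finrank ℂ (Representation.linHom r r).invariants ≤ 1 := by
    refine (finrank_le_one (⟨LinearMap.id, ?_⟩ : (Representation.linHom r r).invariants) ?_)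
    · intro k
      rw [Representation.linHom_apply]
      refine LinearMap.ext fun v => ?_
      show r k (r k⁻¹ v) = v
      rw [← Module.End.mul_apply, ← map_mul, mul_inv_cancel, map_one, Module.End.one_apply]
    · rintro ⟨Q, hQ⟩
      have : Nontrivial (Fin n → ℂ) := by
        have : Nonempty (Fin n) := ⟨⟨0, hn⟩⟩
        infer_instance
      obtain ⟨μ, hμ⟩ := Module.End.exists_eigenvalue Q
      have hcomm : ∀ g v, Q (r g v) = r g (Q v) := by
        intro g v
        have h1 := hQ g
        rw [Representation.linHom_apply] at h1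
        have h2 := LinearMap.congr_fun h1 (r g v)
        have h3 : r g (Q (r g⁻¹ (r g v))) = Q (r g v) := h2
        rw [← Module.End.mul_apply (r g⁻¹), ← map_mul, inv_mul_cancel, map_one,
          Module.End.one_apply] at h3
        exact h3.symm
      have hinv : ∀ g, ∀ w ∈ Module.End.eigenspace Q μ,
          (ρ g).mulVec w ∈ Module.End.eigenspace Q μ := by
        intro g w hw
        rw [Module.End.mem_eigenspace_iff] at hw ⊢
        rw [← hr, hcomm, hw, map_smul]
      rcases h _ hinv with h0 | h0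
      · exact absurd h0 hμ
      · refine ⟨μ, ?_⟩
        apply Subtype.ext
        refine LinearMap.ext fun v => ?_
        have hv : v ∈ Module.End.eigenspace Q μ := by
          rw [h0]
          exact Submodule.mem_top
        rw [Module.End.mem_eigenspace_iff] at hv
        exact hv.symm
  set d := Module.finrank ℂ (Representation.linHom r r).invariants
  have h3 : ((∑ g : G, ‖(ρ g).trace‖ ^ 2 : ℝ) : ℂ) = (((Nat.card G : ℝ) * (d : ℝ) : ℝ) : ℂ) := by
    rw [inv_mul_eq_iff_eq_mul₀ hcard0] at key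
    rw [key]
    push_cast
    rfl
  have h4 := Complex.ofReal_injective h3
  rw [h4, Nat.card_eq_fintype_card]
  have h5 : (0 : ℝ) < (Fintype.card G : ℝ) := Nat.cast_pos.2 Fintype.card_pos
  have h6 : (d : ℝ) ≤ 1 := by exact_mod_cast hle
  nlinarith

/-- A representation with the same characteristic polynomials as an irreducible one is irreducible. -/
theorem irreducible_of_charpoly {n : ℕ} {R R' : AbsGal ℚ →* GL (Fin n) ℂ}
    (hR : IsArtin R) (hR' : IsOpen (R'.ker : Set (AbsGal ℚ)))
    (h : ∀ g, (R g).val.charpoly = (R' g).val.charpoly) : IsArtin R' := by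
  classical
  refine ⟨hR', fun W hW => ?_⟩
  rcases Nat.eq_zero_or_pos n with rfl | hn
  · left
    rw [Submodule.eq_bot_iff]
    intro w _
    exact Subsingleton.elim _ _
  have hUo : IsOpen ((R.ker ⊓ R'.ker : Subgroup (AbsGal ℚ)) : Set (AbsGal ℚ)) := by
    rw [Subgroup.coe_inf]
    exact hR.1.inter hR'
  have hfin : Finite (AbsGal ℚ ⧸ (R.ker ⊓ R'.ker)) :=
    Subgroup.quotient_finite_of_isOpen (R.ker ⊓ R'.ker) hUo
  have hfty : Fintype (AbsGal ℚ ⧸ (R.ker ⊓ R'.ker)) := Fintype.ofFinite _
  have h1 := MFam_schur hn (MFam_lift R (R.ker ⊓ R'.ker) inf_le_left) (fun V hV => by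
    refine hR.2 V fun g w hw => ?_
    exact hV (QuotientGroup.mk g) w hw)
  refine eq_bot_or_eq_top (MFam_lift R' (R.ker ⊓ R'.ker) inf_le_right) ?_ W ?_
  · refine le_trans (le_of_eq (Finset.sum_congr rfl fun x _ => ?_)) h1
    obtain ⟨g, rfl⟩ := QuotientGroup.mk_surjective x
    have hne : Nonempty (Fin n) := ⟨⟨0, hn⟩⟩
    rw [MFam_lift_mk, MFam_lift_mk, Matrix.trace_eq_neg_charpoly_coeff,
      Matrix.trace_eq_neg_charpoly_coeff, h]
  · intro x w hw
    obtain ⟨g, rfl⟩ := QuotientGroup.mk_surjective x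
    exact hW g w hw

end Pool.Agent.OneM74
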