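import Pool.Agent.W_7742m_h74.MSta
import Pool.Agent.W_7742m_h74.MFam
import Pool.Agent.W_7742m_h74.MMod
import Pool.Agent.W_7742j_h74.JTwo

/-! # Assembly

`final_E`: `final_one_three` (`W_7742j_h74/JOne.lean`) for every embedding `s` gives `R s`;
`exists_numberField` (with `t p` from `OneP74.exists_trace`; at the finitely many primes which divide the
level take any value, `OneP74.finite_level`, `OneP74.density_union`) gives `E`, `i`, `R'`.  For
`τ : E → ℂ` and `s = τ ∘ i` the characteristic polynomials of `R'(g) ^ τ` and `R s (g)` are equal, so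
`R' ^ τ` is irreducible (`irreducible_of_charpoly`); choose one `τ` (it exists; `τ` is injective) to
transfer the equations for traces, determinants (the constant coefficient of the characteristic
polynomial up to sign, `Matrix.det_eq_sign_charpoly_coeff`) and characteristic polynomials from `R s` to
`R'`.  In `AllPrimesE` the number `m` for all `s` is the product over `s` of those for `s`.
`r.ker ≤ R'.ker = (R s).ker`.

`hasArtin_of_hasMod`: by `final_E`.

`hasMod_of_hasArtin`: `exists_mod`; `i (tr A p) = tr R(Fr p)`, `tr A p = x` integral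
(`OneP74.exists_trace`), for `p` outside a set of density zero.

`hasArtin_of_family`: `exists_prod`, `final_E`. -/

set_option autoImplicit false

noncomputable section

namespace Pool.Agent.OneM74

open NumberField Pool.Agent.Cheb Pool.Agent.GalSide Pool.Agent.H74V Pool.Agent.OneI74
open Pool.Agent.OneJ74 (YY)

variable {K : Type} [Field K] [NumberField K] {n : ℕ}

/-- the trace is the negative of a coefficient of the characteristic polynomial. -/
theorem MAsm_trace {E F : Type} [Field E] [Field F] (hn : 0 < n) (τ : E →+* F)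
    (M : Matrix (Fin n) (Fin n) E) (N : Matrix (Fin n) (Fin n) F)
    (h : M.charpoly.map τ = N.charpoly) : τ M.trace = N.trace := by
  have hne : Nonempty (Fin n) := ⟨⟨0, hn⟩⟩
  rw [Matrix.trace_eq_neg_charpoly_coeff, Matrix.trace_eq_neg_charpoly_coeff, map_neg, ← h,
    Polynomial.coeff_map]

theorem MAsm_det {E F : Type} [Field E] [Field F] (τ : E →+* F)
    (M : Matrix (Fin n) (Fin n) E) (N : Matrix (Fin n) (Fin n) F)
    (h : M.charpoly.map τ = N.charpoly) : τ M.det = N.det := by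
  rw [Matrix.det_eq_sign_charpoly_coeff, Matrix.det_eq_sign_charpoly_coeff, ← h,
    Polynomial.coeff_map, map_mul, map_pow, map_neg, map_one]

theorem final_E (hn : 2 ≤ n) (π : SatakeSystem K n) (h : ∀ σ : K →+* ℂ, π.IsCuspidal σ)
    (Fr : Nat.Primes → AbsGal ℚ) (hFr : Pool.Agent.OneP74.IsFrobeniusFamily Fr)
    {A : Type} [CommRing A] (ι : 𝓞 K →+* A)
    (hN : YY n ^ Module.finrank ℚ K ≤ Ideal.absNorm (RingHom.ker ι))
    (r : AbsGal ℚ →* GL (Fin n) A) (hr : IsOpen (r.ker : Set (AbsGal ℚ)))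
    (hc : Congruent π Fr ι fun g => (r g).val.trace) :
    ∃ (E : Type) (_ : Field E) (_ : NumberField E) (i : K →+* E) (R : AbsGal ℚ →* GL (Fin n) E),
      IsArtinE R ∧ r.ker ≤ R.ker ∧
      HasDensity {p : Nat.Primes | (R (Fr p)).val.trace ≠ i (π.A p).trace} 0 ∧
      LiftsTrE ι r i R ∧ LiftsDetE ι r i R ∧
      (n ≤ 3 → DetCongruent π Fr ι r → HasDensity {p : Nat.Primes |
          (R (Fr p)).val.charpoly ≠ (π.A p).charpoly.map i} 0) ∧
      LiftsChE ι r i R ∧ LiftsAllE π Fr ι r i R := by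
  classical
  have hn0 : 0 < n := by omega
  choose R hA hk hd hTr hDet h3 hCh hAll using fun s : K →+* ℂ =>
    Pool.Agent.OneJ74.final_one_three hn π h Fr hFr ι hN r hr hc s
  obtain ⟨b, hb1, hb0⟩ := Pool.Agent.OneP74.exists_trace hn0 π
  have hb : ∀ s : K →+* ℂ,
      HasDensity {p : Nat.Primes | (R s (Fr p)).val.trace ≠ s (b p : K)} 0 := by
    intro s
    refine Pool.Agent.OneP74.density_union (hd s)
      (Pool.Agent.OneP74.finite_level π.level_pos) ?_
    intro p hp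
    by_cases hpl : (p : ℕ) ∣ π.level
    · exact Or.inr hpl
    · refine Or.inl fun hx => hp ?_
      rw [hb1 p hpl]
      exact hx
  obtain ⟨E, _, _, i, R', hR'o, hker, hchar⟩ :=
    exists_numberField hFr R (fun s => (hA s).1) b hb
  obtain ⟨τ⟩ : Nonempty (E →+* ℂ) := inferInstance
  set s : K →+* ℂ := τ.comp i with hs
  have hτ : Function.Injective τ := τ.injective
  have hc1 : ∀ g, (R' g).val.charpoly.map τ = (R s g).val.charpoly := fun g => hchar τ g
  have hc2 : ∀ g, τ (R' g).val.trace = (R s g).val.trace := fun g =>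
    MAsm_trace hn0 τ _ _ (hc1 g)
  have hc3 : ∀ g, τ (R' g).val.det = (R s g).val.det := fun g => MAsm_det τ _ _ (hc1 g)
  have hc4 : ∀ (g : AbsGal ℚ) (P : Polynomial K),
      (R' g).val.charpoly = P.map i ↔ (R s g).val.charpoly = P.map s := by
    intro g P
    rw [← hc1 g, hs, ← Polynomial.map_map]
    exact (Polynomial.map_injective τ hτ).eq_iff.symm
  refine ⟨E, inferInstance, inferInstance, i, R', ⟨hR'o, fun τ' W hW => ?_⟩,
    (hk s).trans (hker s).le, ?_, fun g x B hB hx hNB hrx => ?_, fun g x hx hrx => ?_,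
    fun hn3 hdc => ?_, fun g P ρ hP hdeg hρ hro hNB hrP => ?_,
    fun S β₀ hβ hβ1 hS hcS hZ => ?_⟩
  · let Rτ : AbsGal ℚ →* GL (Fin n) ℂ := (Matrix.GeneralLinearGroup.map τ').comp R'
    have hRτ : ∀ g, (Rτ g).val = (R' g).val.map τ' := fun g => rfl
    have hopen : IsOpen (Rτ.ker : Set (AbsGal ℚ)) := by
      refine Subgroup.isOpen_mono (H₁ := R'.ker) (fun g hg => MonoidHom.mem_ker.2 ?_) hR'o
      rw [MonoidHom.comp_apply, MonoidHom.mem_ker.1 hg, map_one]
    have hch : ∀ g, (R (τ'.comp i) g).val.charpoly = (Rτ g).val.charpoly := by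
      intro g
      rw [hRτ, Matrix.charpoly_map, hchar τ' g]
    exact (irreducible_of_charpoly (hA (τ'.comp i)) hopen hch).2 W hW
  · refine Pool.Agent.OneP74.density_union (hd s) Set.finite_empty ?_
    intro p hp
    refine Or.inl fun hx => hp ?_
    apply hτ
    rw [hc2, hx]
    rfl
  · apply hτ
    rw [hc2]
    exact hTr s g x B hB hx hNB hrx
  · apply hτ
    rw [hc3]
    exact hDet s g x hx hrx
  · refine Pool.Agent.OneP74.density_union (h3 s hn3 hdc) Set.finite_empty ?_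
    intro p hp
    refine Or.inl fun hx => hp ?_
    exact (hc4 _ _).2 hx
  · exact (hc4 _ _).2 (hCh s g P ρ hP hdeg hρ hro hNB hrP)
  · have hAs := fun s => hAll s S β₀ hβ hβ1 hS hcS hZ
    refine ⟨fun m hm hmn x hx => ?_, fun p hp s' α hα => (hAs s').2.1 p hp α hα,
      fun hz p hp => ⟨?_, fun hpS => ?_⟩⟩
    · refine Pool.Agent.DZ74.thin_mono ((hAs s).1 m hm hmn x hx) ?_
      rintro p ⟨hpS, hpg, j, hj0, hjm, hj⟩
      refine ⟨hpS, hpg, j, hj0, hjm, fun hcon => hj ?_⟩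
      apply hτ
      rw [← Polynomial.coeff_map, hc1, hcon]
      rfl
    · choose m hm hm1 using fun s' => ((hAs s').2.2 hz p hp).1
      refine ⟨∏ s', m s', Finset.prod_pos fun s' _ => hm s', fun s' α hα => ?_⟩
      obtain ⟨c, hc⟩ : m s' ∣ ∏ s', m s' := Finset.dvd_prod_of_mem m (Finset.mem_univ s')
      rw [hc, pow_mul, hm1 s' α hα, one_pow]
    · exact (hc4 _ _).2 (((hAs s).2.2 hz p hp).2 hpS)

theorem hasArtin_of_hasMod (hn : 2 ≤ n) (π : SatakeSystem K n)
    (h : ∀ σ : K →+* ℂ, π.IsCuspidal σ) (Fr : Nat.Primes → AbsGal ℚ)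
    (hFr : Pool.Agent.OneP74.IsFrobeniusFamily Fr) {𝔞 : Ideal (𝓞 K)}
    (hN : YY n ^ Module.finrank ℚ K ≤ Ideal.absNorm 𝔞) (hm : HasMod π Fr 𝔞) : HasArtin π Fr := by
  obtain ⟨A, _, ι, r, rfl, hr, hc⟩ := hm
  obtain ⟨E, h1, h2, i, R, hR, -, hd, -⟩ := final_E hn π h Fr hFr ι hN r hr hc
  exact ⟨E, h1, h2, i, R, hR, hd⟩

theorem hasMod_of_hasArtin (hn : 2 ≤ n) (π : SatakeSystem K n) (Fr : Nat.Primes → AbsGal ℚ)
    (ha : HasArtin π Fr) {𝔞 : Ideal (𝓞 K)} (h𝔞 : 𝔞 ≠ ⊥) : HasMod π Fr 𝔞 := by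
  obtain ⟨E, _, _, i, R, hR, hd⟩ := ha
  obtain ⟨A, hA, ι, r, hk, ho, ht⟩ := exists_mod i R hR.1 𝔞 h𝔞
  obtain ⟨b, hb1, hb0⟩ := Pool.Agent.OneP74.exists_trace (by omega : 0 < n) π
  refine ⟨A, hA, ι, r, hk, ho, ?_⟩
  refine Pool.Agent.OneP74.density_union hd (Pool.Agent.OneP74.finite_level π.level_pos) ?_
  intro p hp
  by_cases hpl : (p : ℕ) ∣ π.level
  · exact Or.inr hpl
  · refine Or.inl fun hx => hp ⟨b p, hb1 p hpl, ?_⟩
    refine ht (Fr p) (b p) ?_
    rw [hb1 p hpl]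
    exact hx

theorem hasArtin_of_family (hn : 2 ≤ n) (π : SatakeSystem K n)
    (h : ∀ σ : K →+* ℂ, π.IsCuspidal σ) (Fr : Nat.Primes → AbsGal ℚ)
    (hFr : Pool.Agent.OneP74.IsFrobeniusFamily Fr) {m : ℕ} (𝔞 : Fin m → Ideal (𝓞 K))
    (hN : YY n ^ Module.finrank ℚ K ≤ Ideal.absNorm (⨅ l, 𝔞 l)) (hm : ∀ l, HasMod π Fr (𝔞 l)) :
    HasArtin π Fr := by
  obtain ⟨b, hb1, hb0⟩ := Pool.Agent.OneP74.exists_trace (by omega : 0 < n) π
  choose A hA ι r hk ho hc using hm
  obtain ⟨A', hA', ι', r', hk', ho', -, hc'⟩ := exists_prod π Fr A ι r ho hc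
    fun p hp => ⟨b p, hb1 p hp.2⟩
  refine hasArtin_of_hasMod hn π h Fr hFr hN ⟨A', hA', ι', r', ?_, ho', hc'⟩
  rw [hk']
  exact iInf_congr hk

end Pool.Agent.OneM74
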