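import Pool.Agent.W_7742m_h74.MRep

/-! # A representation over a number field

`β : Γ → 𝓞 K` such that `s₀ ∘ β` is the trace of a representation over `ℂ` of dimension `n` for one
embedding `s₀`.  Then `β (x y) = β (y x)`, `β 1 = n`, `pol β (n + 1) = 0`
(`OneI74.pol_trace_succ`, `pol_comp`, `pol_map`, `s₀` injective).  Let `F = AlgebraicClosure K`;
`exists_rep_field` for `f = algebraMap K F ∘ β` gives `R : Γ → M_n(F)`.  The entries of the finitely many
matrices `R g` generate a finite extension `E` of `K` in `F` (`IntermediateField.adjoin K S` for the finite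
set `S` of the entries, finite dimensional as the entries are algebraic:
`IntermediateField.finiteDimensional_adjoin` or `finiteDimensional_adjoin`), a number field
(`NumberField` from `FiniteDimensional ℚ E`: `FiniteDimensional.trans ℚ K E`), and `R` has values in
`M_n(E)`. -/

set_option autoImplicit false

noncomputable section

namespace Pool.Agent.OneM74

open NumberField Pool.Agent.OneI74

theorem exists_field {K : Type} [Field K] [NumberField K] {Γ : Type} [Group Γ] [Finite Γ] {n : ℕ}
    (β : Γ → 𝓞 K) (s₀ : K →+* ℂ) (R₀ : Γ →* Matrix (Fin n) (Fin n) ℂ)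
    (h : ∀ g, (R₀ g).trace = s₀ (β g : K)) :
    ∃ (E : Type) (_ : Field E) (_ : NumberField E) (i : K →+* E)
      (R : Γ →* Matrix (Fin n) (Fin n) E), ∀ g, (R g).trace = i (β g : K) := by
  classical
  have hb : Function.Injective s₀ := s₀.injective
  have hcomm : ∀ x y, (β (x * y) : K) = β (y * x) := by
    intro x y
    apply hb
    rw [← h, ← h, map_mul, map_mul, Matrix.trace_mul_comm]
  have h1 : (β 1 : K) = n := by
    apply hb
    rw [← h, map_one, Matrix.trace_one, Fintype.card_fin, map_natCast]
  have hp : ∀ x : Fin (n + 1) → Γ, pol (fun g => (β g : K)) (n + 1) x = 0 := by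
    intro x
    apply hb
    have e : (fun y => s₀ (β y : K)) = fun y => (fun M : Matrix (Fin n) (Fin n) ℂ => M.trace)
        (R₀ y) := funext fun y => (h y).symm
    rw [map_zero, pol_map, e, pol_comp R₀ (map_mul R₀), pol_trace_succ]
  obtain ⟨R, hR⟩ := exists_rep_field (F := AlgebraicClosure K)
    (fun g => algebraMap K (AlgebraicClosure K) (β g : K))
    (fun x y => congrArg _ (hcomm x y))
    (by show algebraMap K (AlgebraicClosure K) (β 1 : K) = n; rw [h1, map_natCast])
    (fun x => by rw [← pol_map (algebraMap K (AlgebraicClosure K)), hp, map_zero])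
  let S : Set (AlgebraicClosure K) :=
    Set.range fun p : Γ × Fin n × Fin n => R p.1 p.2.1 p.2.2
  have hSf : S.Finite := Set.finite_range _
  have : Finite S := hSf
  let E := IntermediateField.adjoin K S
  have hfd : FiniteDimensional K E :=
    IntermediateField.finiteDimensional_adjoin fun x _ =>
      (AlgebraicClosure.isAlgebraic K).isAlgebraic x |>.isIntegral
  have hNF : NumberField E := NumberField.of_module_finite K E
  have hmem : ∀ g i j, R g i j ∈ E := fun g i j =>
    IntermediateField.subset_adjoin K S ⟨(g, i, j), rfl⟩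
  refine ⟨E, inferInstance, hNF, algebraMap K E,
    { toFun := fun g => Matrix.of fun i j => (⟨R g i j, hmem g i j⟩ : E)
      map_one' := ?_
      map_mul' := ?_ }, ?_⟩
  · ext i j
    show R 1 i j = ((1 : Matrix (Fin n) (Fin n) E) i j : E)
    rw [map_one, Matrix.one_apply, Matrix.one_apply]
    split_ifs <;> rfl
  · intro g g'
    ext i j
    show R (g * g') i j = ((∑ k, (⟨R g i k, hmem g i k⟩ : E) * ⟨R g' k j, hmem g' k j⟩ : E) :
      AlgebraicClosure K)
    rw [map_mul, Matrix.mul_apply, AddSubmonoidClass.coe_finsetSum]
    rfl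
  · intro g
    apply Subtype.ext
    have h2 := hR g
    show ((∑ k, (⟨R g k k, hmem g k k⟩ : E) : E) : AlgebraicClosure K) =
      algebraMap K (AlgebraicClosure K) (β g : K)
    rw [← h2, AddSubmonoidClass.coe_finsetSum]
    rfl

end Pool.Agent.OneM74
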