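import Mathlib

/-! # Integral models

`exists_lattice`: let `L ⊆ E ^ n` be the `O`-submodule generated by the finitely many vectors
`R(g) e_j`.  It is finitely generated and torsion free over the principal ideal domain `O`, so free
(`Module.free_of_finite_type_torsion_free'`), and it spans `E ^ n`; its rank is `n`
(a basis of `L` over `O` is a basis of `E ^ n` over `E`: it spans, and it is linearly independent over
`E` since it is over `O`, `LinearIndependent.localization` or `IsFractionRing`), it is stable under all
`R(g)`.  Let `P` be the matrix of the basis; then `P⁻¹ R(g) P` has entries in `O`, and so has its inverse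
`P⁻¹ R(g⁻¹) P`. -/

set_option autoImplicit false

noncomputable section

namespace Pool.Agent.OneM74

open NumberField

theorem exists_lattice {O E : Type} [CommRing O] [IsDomain O] [IsPrincipalIdealRing O] [Field E]
    [Algebra O E] [IsFractionRing O E] {Γ : Type} [Group Γ] {n : ℕ}
    (R : Γ →* Matrix (Fin n) (Fin n) E) (hfin : (Set.range R).Finite) :
    ∃ R₀ : Γ →* Matrix (Fin n) (Fin n) O, ∀ g,
      algebraMap O E (R₀ g).trace = (R g).trace ∧
        (R g = 1 → R₀ g = 1) := by
  classical
  set W : Set (Fin n → E) := ⋃ A ∈ Set.range R, Set.range fun j : Fin n =>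
    A.mulVec (Pi.single j 1) with hW
  have hWfin : W.Finite := Set.Finite.biUnion hfin fun A _ => Set.finite_range _
  let L : Submodule O (Fin n → E) := Submodule.span O W
  have hstab : ∀ g, ∀ v ∈ L, (R g).mulVec v ∈ L := by
    intro g v hv
    induction hv using Submodule.span_induction with
    | mem v hv =>
      rw [hW] at hv
      simp only [Set.mem_iUnion, Set.mem_range, exists_prop] at hv
      obtain ⟨A, ⟨h, rfl⟩, j, rfl⟩ := hv
      refine Submodule.subset_span ?_
      rw [hW]
      simp only [Set.mem_iUnion, Set.mem_range, exists_prop]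
      refine ⟨R (g * h), ⟨g * h, rfl⟩, j, ?_⟩
      rw [map_mul, Matrix.mulVec_mulVec]
    | zero =>
      rw [Matrix.mulVec_zero]
      exact L.zero_mem
    | add v w _ _ h1 h2 =>
      rw [Matrix.mulVec_add]
      exact L.add_mem h1 h2
    | smul c v _ h1 =>
      rw [Matrix.mulVec_smul]
      exact L.smul_mem c h1
  haveI hlat : Submodule.IsLattice E L := by
    refine ⟨Submodule.fg_span hWfin, ?_⟩
    rw [eq_top_iff]
    intro v _
    have h1 : ∀ j : Fin n, (Pi.single j 1 : Fin n → E) ∈ L := by
      intro j
      refine Submodule.subset_span ?_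
      rw [hW]
      simp only [Set.mem_iUnion, Set.mem_range, exists_prop]
      refine ⟨R 1, ⟨1, rfl⟩, j, ?_⟩
      rw [map_one, Matrix.one_mulVec]
    have h2 : v = ∑ j, v j • (Pi.single j 1 : Fin n → E) := by
      ext i
      rw [Finset.sum_apply, Finset.sum_eq_single i]
      · simp
      · intro j _ hj
        simp [hj.symm]
      · intro h
        exact absurd (Finset.mem_univ i) h
    rw [h2]
    exact Submodule.sum_mem _ fun j _ =>
      Submodule.smul_mem _ _ (Submodule.subset_span (h1 j))
  haveI : Module.IsTorsionFree O E := by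
    rw [Module.isTorsionFree_iff_algebraMap_injective]
    exact IsFractionRing.injective O E
  haveI hfree : Module.Free O L := Submodule.IsLattice.free E L
  have hrank : Module.finrank O L = n := by
    have h := Submodule.IsLattice.finrank_of_pi E L
    rwa [Fintype.card_fin] at h
  let b : Module.Basis (Fin n) O L := Module.finBasisOfFinrankEq O L hrank
  let B : Module.Basis (Fin n) E (Fin n → E) := b.extendOfIsLattice E
  have hB : ∀ j, B j = (b j : Fin n → E) := fun j => b.extendOfIsLattice_apply E j
  have hrepr : ∀ (v : L) (i : Fin n), B.repr (v : Fin n → E) i = algebraMap O E (b.repr v i) := by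
    intro v i
    have h1 : (v : Fin n → E) = ∑ j, algebraMap O E (b.repr v j) • B j := by
      conv_lhs => rw [← b.sum_repr v]
      rw [Submodule.coe_sum]
      refine Finset.sum_congr rfl fun j _ => ?_
      rw [hB, Submodule.coe_smul, algebraMap_smul]
    rw [h1, B.repr_sum_self]
  let f : Γ → (L →ₗ[O] L) := fun g =>
    { toFun := fun v => ⟨(R g).mulVec v, hstab g v v.2⟩
      map_add' := fun v w => Subtype.ext (by
        change (R g).mulVec ((v : Fin n → E) + (w : Fin n → E)) =
          (R g).mulVec (v : Fin n → E) + (R g).mulVec (w : Fin n → E)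
        exact Matrix.mulVec_add _ _ _)
      map_smul' := fun c v => Subtype.ext (by
        change (R g).mulVec (c • (v : Fin n → E)) = c • (R g).mulVec (v : Fin n → E)
        exact Matrix.mulVec_smul _ _ _) }
  have hf : ∀ g (v : L), ((f g v : L) : Fin n → E) = (R g).mulVec v := fun g v => rfl
  have hf1 : ∀ g, R g = 1 → f g = LinearMap.id := by
    intro g hg
    refine LinearMap.ext fun v => Subtype.ext ?_
    rw [hf, hg, Matrix.one_mulVec]
    rfl
  have hfmul : ∀ g h, f (g * h) = f g ∘ₗ f h := by
    intro g h
    refine LinearMap.ext fun v => Subtype.ext ?_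
    rw [hf, map_mul, ← Matrix.mulVec_mulVec]
    rfl
  let R₀ : Γ →* Matrix (Fin n) (Fin n) O :=
    { toFun := fun g => LinearMap.toMatrix b b (f g)
      map_one' := by
        rw [hf1 1 (map_one R), LinearMap.toMatrix_id]
      map_mul' := fun g h => by
        rw [hfmul, LinearMap.toMatrix_comp b b b] }
  refine ⟨R₀, fun g => ⟨?_, fun hg => ?_⟩⟩
  · have h1 : (R g).trace = (LinearMap.toMatrix B B (Matrix.toLin' (R g))).trace := by
      rw [← Matrix.trace_toLin'_eq (R g), ← LinearMap.trace_eq_matrix_trace E B]
    rw [h1, Matrix.trace, Matrix.trace, map_sum]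
    refine Finset.sum_congr rfl fun i _ => ?_
    rw [Matrix.diag_apply, Matrix.diag_apply, LinearMap.toMatrix_apply, Matrix.toLin'_apply, hB,
      ← hf, hrepr]
    change algebraMap O E (LinearMap.toMatrix b b (f g) i i) = _
    rw [LinearMap.toMatrix_apply]
  · change LinearMap.toMatrix b b (f g) = 1
    rw [hf1 g hg, LinearMap.toMatrix_id]

end Pool.Agent.OneM74
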