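import Pool.Agent.W_7742z_h74.Wed
import Pool.Agent.W_7742z_h74.PsA

/-! # Pseudocharacters of finite groups over an algebraically closed field are characters

Copy `W_7742z_h74/Wed.lean` and the part of `W_7742z_h74/PsC.lean` it uses (`pol_eq_zero`,
`pol_update_add`, `pol_update_smul`) with `ℂ` replaced by an algebraically closed field `F` of
characteristic zero (`IsSemisimpleRing.exists_algEquiv_pi_matrix_of_isAlgClosed F`; the block diagonal sum
of two representations is `Matrix.fromBlocks` reindexed by `finSumFinEquiv`, compare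
`Pool.Agent.OneI74.exists_block` in `W_7742z_h74/Fin.lean`, which is over any commutative ring). -/

set_option autoImplicit false

noncomputable section

namespace Pool.Agent.OneM74

open Pool.Agent.OneI74

variable {F : Type} [Field F]

section

variable {B : Type} [Ring B] [Algebra F B]

theorem mrep_zero (T : B →ₗ[F] F) (k : ℕ) (x : Fin (k + 1) → B) (u : B) :
    pol T (k + 1) (Function.update x 0 u) = T u * pol T k (Fin.tail x) -
      ∑ a : Fin k, pol T k (Function.update (Fin.tail x) a (x a.succ * u)) := by
  rw [pol_succ, Fin.tail_update_zero, Function.update_self]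
  congr 1

theorem mrep_succ (T : B →ₗ[F] F) (k : ℕ) (x : Fin (k + 1) → B) (l : Fin k) (u : B) :
    pol T (k + 1) (Function.update x l.succ u) = T (x 0) * pol T k (Function.update (Fin.tail x) l u) -
      ∑ a : Fin k, if a = l then pol T k (Function.update (Fin.tail x) l (u * x 0)) else
        pol T k (Function.update (Function.update (Fin.tail x) a (x a.succ * x 0)) l u) := by
  rw [pol_succ, Fin.tail_update_succ, Function.update_of_ne (Fin.succ_ne_zero l).symm]
  congr 1
  refine Finset.sum_congr rfl fun a _ => ?_
  split_ifs with h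
  · subst h
    rw [Function.update_self, Function.update_idem]
  · have h1 : a.succ ≠ l.succ := fun h2 => h (Fin.succ_injective _ h2)
    rw [Function.update_of_ne h1, Function.update_comm h]

theorem mrep_update_add (T : B →ₗ[F] F) (k : ℕ) (x : Fin k → B) (l : Fin k) (v w : B) :
    pol T k (Function.update x l (v + w)) =
      pol T k (Function.update x l v) + pol T k (Function.update x l w) := by
  induction k generalizing v w with
  | zero => exact l.elim0
  | succ k ih =>
    rcases Fin.eq_zero_or_eq_succ l with rfl | ⟨l, rfl⟩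
    · rw [mrep_zero, mrep_zero, mrep_zero, map_add]
      have h1 : ∀ a : Fin k, pol T k (Function.update (Fin.tail x) a (x a.succ * (v + w))) =
          pol T k (Function.update (Fin.tail x) a (x a.succ * v)) +
          pol T k (Function.update (Fin.tail x) a (x a.succ * w)) := by
        intro a
        rw [mul_add, ih]
      rw [Finset.sum_congr rfl fun a _ => h1 a, Finset.sum_add_distrib]
      ring
    · rw [mrep_succ, mrep_succ, mrep_succ, ih, add_mul, ih]
      have h1 : ∀ a : Fin k,
          (if a = l then pol T k (Function.update (Fin.tail x) l (v * x 0)) +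
              pol T k (Function.update (Fin.tail x) l (w * x 0)) else
            pol T k (Function.update (Function.update (Fin.tail x) a (x a.succ * x 0)) l (v + w))) =
          (if a = l then pol T k (Function.update (Fin.tail x) l (v * x 0)) else
            pol T k (Function.update (Function.update (Fin.tail x) a (x a.succ * x 0)) l v)) +
          (if a = l then pol T k (Function.update (Fin.tail x) l (w * x 0)) else
            pol T k (Function.update (Function.update (Fin.tail x) a (x a.succ * x 0)) l w)) := by
        intro a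
        split_ifs with h
        · rfl
        · rw [ih]
      rw [Finset.sum_congr rfl fun a _ => h1 a, Finset.sum_add_distrib]
      ring

theorem mrep_update_smul (T : B →ₗ[F] F) (k : ℕ) (x : Fin k → B) (l : Fin k) (c : F) (v : B) :
    pol T k (Function.update x l (c • v)) = c * pol T k (Function.update x l v) := by
  induction k generalizing v with
  | zero => exact l.elim0
  | succ k ih =>
    rcases Fin.eq_zero_or_eq_succ l with rfl | ⟨l, rfl⟩
    · rw [mrep_zero, mrep_zero, map_smul, smul_eq_mul]
      have h1 : ∀ a : Fin k, pol T k (Function.update (Fin.tail x) a (x a.succ * (c • v))) =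
          c * pol T k (Function.update (Fin.tail x) a (x a.succ * v)) := by
        intro a
        rw [mul_smul_comm, ih]
      rw [Finset.sum_congr rfl fun a _ => h1 a, ← Finset.mul_sum]
      ring
    · rw [mrep_succ, mrep_succ, ih, smul_mul_assoc, ih]
      have h1 : ∀ a : Fin k,
          (if a = l then c * pol T k (Function.update (Fin.tail x) l (v * x 0)) else
            pol T k (Function.update (Function.update (Fin.tail x) a (x a.succ * x 0)) l (c • v))) =
          c * (if a = l then pol T k (Function.update (Fin.tail x) l (v * x 0)) else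
            pol T k (Function.update (Function.update (Fin.tail x) a (x a.succ * x 0)) l v)) := by
        intro a
        split_ifs with h
        · rfl
        · rw [ih]
      rw [Finset.sum_congr rfl fun a _ => h1 a, ← Finset.mul_sum]
      ring

end

theorem mrep_eq_zero {Γ : Type} [Group Γ] (T : MonoidAlgebra F Γ →ₗ[F] F) (k : ℕ)
    (h : ∀ x : Fin k → Γ, pol T k (fun a => MonoidAlgebra.of F Γ (x a)) = 0)
    (x : Fin k → MonoidAlgebra F Γ) : pol T k x = 0 := by
  classical
  -- replace the variables one after the other
  have key : ∀ (s : Finset (Fin k)) (x : Fin k → MonoidAlgebra F Γ),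
      (∀ a ∉ s, ∃ g : Γ, x a = MonoidAlgebra.of F Γ g) → pol T k x = 0 := by
    intro s
    induction s using Finset.induction_on with
    | empty =>
      intro x hx
      choose g hg using fun a => hx a (Finset.notMem_empty a)
      rw [show x = fun a => MonoidAlgebra.of F Γ (g a) from funext hg]
      exact h g
    | insert b s hb ih =>
      intro x hx
      have h1 : ∀ y : MonoidAlgebra F Γ, pol T k (Function.update x b y) = 0 := by
        intro y
        refine MonoidAlgebra.induction_on (motive := fun y => pol T k (Function.update x b y) = 0) y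
          ?_ ?_ ?_
        · intro g
          refine ih _ fun a ha => ?_
          by_cases hab : a = b
          · subst hab
            exact ⟨g, Function.update_self ..⟩
          · rw [Function.update_of_ne hab]
            refine hx a ?_
            rw [Finset.mem_insert]
            tauto
        · intro v w hv hw
          rw [mrep_update_add, hv, hw, add_zero]
        · intro c v hv
          rw [mrep_update_smul, hv, mul_zero]
      have h2 := h1 (x b)
      rwa [Function.update_eq_self] at h2
  exact key Finset.univ x fun a ha => absurd (Finset.mem_univ a) ha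

/-- A central linear form on a matrix algebra is a multiple of the trace. -/
theorem mrep_central {d : ℕ} [NeZero d] (t : Matrix (Fin d) (Fin d) F →ₗ[F] F)
    (ht : ∀ a b, t (a * b) = t (b * a)) (x : Matrix (Fin d) (Fin d) F) :
    t x = t (Matrix.single 0 0 1) * x.trace := by
  have h1 : ∀ k l, k ≠ l → t (Matrix.single k l 1) = 0 := by
    intro k l hkl
    have h2 : (Matrix.single k l 1 : Matrix (Fin d) (Fin d) F) =
        Matrix.single k k 1 * Matrix.single k l 1 := by
      rw [Matrix.single_mul_single_same, mul_one]
    rw [h2, ht, Matrix.single_mul_single_of_ne _ _ _ _ (Ne.symm hkl), map_zero]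
  have h2 : ∀ k, t (Matrix.single k k 1) = t (Matrix.single 0 0 1) := by
    intro k
    have h3 : (Matrix.single k k 1 : Matrix (Fin d) (Fin d) F) =
        Matrix.single k 0 1 * Matrix.single 0 k 1 := by
      rw [Matrix.single_mul_single_same, mul_one]
    rw [h3, ht, Matrix.single_mul_single_same, mul_one]
  have h3 : ∀ k l (c : F), t (Matrix.single k l c) = c * t (Matrix.single k l 1) := by
    intro k l c
    have h4 : (Matrix.single k l c : Matrix (Fin d) (Fin d) F) = c • Matrix.single k l 1 := by
      rw [Matrix.smul_single, smul_eq_mul, mul_one]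
    rw [h4, map_smul, smul_eq_mul]
  conv_lhs => rw [Matrix.matrix_eq_sum_single x]
  rw [map_sum, Matrix.trace, Finset.mul_sum]
  refine Finset.sum_congr rfl fun k _ => ?_
  rw [map_sum, Finset.sum_eq_single k]
  · rw [h3, h2, mul_comm, Matrix.diag_apply]
  · intro l _ hl
    rw [h3, h1 k l (Ne.symm hl), mul_zero]
  · intro h
    exact absurd (Finset.mem_univ k) h

/-- characters of dimension `N` -/
def MRepChar {Γ : Type} [Group Γ] (N : ℕ) (φ : Γ → F) : Prop :=
  ∃ R : Γ →* Matrix (Fin N) (Fin N) F, ∀ g, (R g).trace = φ g

theorem mrep_char_zero {Γ : Type} [Group Γ] : MRepChar (Γ := Γ) (F := F) 0 (fun _ => 0) :=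
  ⟨1, fun g => by simp [Matrix.trace]⟩

theorem mrep_char_add {Γ : Type} [Group Γ] {a b : ℕ} {φ ψ : Γ → F} (h1 : MRepChar a φ)
    (h2 : MRepChar b ψ) : MRepChar (a + b) (fun g => φ g + ψ g) := by
  obtain ⟨r, hr⟩ := h1
  obtain ⟨s, hs⟩ := h2
  let t0 : Γ →* Matrix (Fin a ⊕ Fin b) (Fin a ⊕ Fin b) F :=
    { toFun := fun g => Matrix.fromBlocks (r g) 0 0 (s g)
      map_one' := by rw [map_one, map_one, Matrix.fromBlocks_one]
      map_mul' := fun g h => by
        rw [map_mul, map_mul, Matrix.fromBlocks_multiply]
        simp }
  refine ⟨(Matrix.reindexAlgEquiv F F finSumFinEquiv).toMonoidHom.comp t0, fun g => ?_⟩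
  show (Matrix.reindex finSumFinEquiv finSumFinEquiv (t0 g)).trace = _
  rw [Matrix.reindex_apply, Matrix.trace]
  have h1 : ∀ i : Fin (a + b), ((t0 g).submatrix finSumFinEquiv.symm finSumFinEquiv.symm).diag i =
      (t0 g) (finSumFinEquiv.symm i) (finSumFinEquiv.symm i) := fun i => rfl
  rw [Finset.sum_congr rfl fun i _ => h1 i,
    Equiv.sum_comp finSumFinEquiv.symm (fun i => (t0 g) i i), Fintype.sum_sum_type]
  show (r g).trace + (s g).trace = φ g + ψ g
  rw [hr, hs]

theorem mrep_char_nsmul {Γ : Type} [Group Γ] {a : ℕ} {φ : Γ → F} (h1 : MRepChar a φ) (m : ℕ) :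
    MRepChar (m * a) (fun g => (m : F) * φ g) := by
  induction m with
  | zero =>
    have := mrep_char_zero (Γ := Γ) (F := F)
    simpa using this
  | succ m ih =>
    have h2 := mrep_char_add ih h1
    have h3 : (m + 1) * a = m * a + a := by ring
    have h4 : (fun g => ((m + 1 : ℕ) : F) * φ g) = fun g => (m : F) * φ g + φ g := by
      funext g
      push_cast
      ring
    rw [h3, h4]
    exact h2

theorem mrep_char_sum {Γ : Type} [Group Γ] {ι : Type} (s : Finset ι) (a : ι → ℕ) (φ : ι → Γ → F)
    (h : ∀ i, MRepChar (a i) (φ i)) : MRepChar (∑ i ∈ s, a i) (fun g => ∑ i ∈ s, φ i g) := by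
  classical
  induction s using Finset.induction_on with
  | empty => simpa using mrep_char_zero (Γ := Γ) (F := F)
  | insert i s hi ih =>
    simp only [Finset.sum_insert hi]
    exact mrep_char_add (h i) ih

/-- the linear extension to the group algebra -/
def mrepT {Γ : Type} [Group Γ] (f : Γ → F) : MonoidAlgebra F Γ →ₗ[F] F :=
  (Finsupp.linearCombination F f).comp (MonoidAlgebra.coeffLinearEquiv F).toLinearMap

theorem mrepT_of {Γ : Type} [Group Γ] (f : Γ → F) (g : Γ) :
    mrepT f (MonoidAlgebra.of F Γ g) = f g := by
  unfold mrepT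
  simp [MonoidAlgebra.of]

theorem mrepT_comm {Γ : Type} [Group Γ] (f : Γ → F) (hf : ∀ x y, f (x * y) = f (y * x))
    (a b : MonoidAlgebra F Γ) : mrepT f (a * b) = mrepT f (b * a) := by
  induction a using MonoidAlgebra.induction_on with
  | of g =>
    induction b using MonoidAlgebra.induction_on with
    | of h => rw [← map_mul, ← map_mul, mrepT_of, mrepT_of, hf]
    | add x y hx hy => rw [mul_add, add_mul, map_add, map_add, hx, hy]
    | smul r x hx => rw [mul_smul_comm, smul_mul_assoc, map_smul, map_smul, hx]
  | add x y hx hy => rw [mul_add, add_mul, map_add, map_add, hx, hy]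
  | smul r x hx => rw [mul_smul_comm, smul_mul_assoc, map_smul, map_smul, hx]

theorem exists_rep_field {F : Type} [Field F] [IsAlgClosed F] [CharZero F] {Γ : Type} [Group Γ]
    [Finite Γ] {n : ℕ} (f : Γ → F) (hf : ∀ x y, f (x * y) = f (y * x)) (h1 : f 1 = n)
    (hp : ∀ x : Fin (n + 1) → Γ, pol f (n + 1) x = 0) :
    ∃ R : Γ →* Matrix (Fin n) (Fin n) F, ∀ g, (R g).trace = f g := by
  classical
  set T := mrepT f with hT
  have hTc : ∀ a b, T (a * b) = T (b * a) := mrepT_comm f hf
  have hTp : ∀ x : Fin (n + 1) → MonoidAlgebra F Γ, pol T (n + 1) x = 0 := by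
    refine mrep_eq_zero T (n + 1) fun x => ?_
    rw [← pol_comp (MonoidAlgebra.of F Γ) (fun x y => map_mul _ x y) T (n + 1) x]
    have h2 : (fun y => T (MonoidAlgebra.of F Γ y)) = f := funext fun g => mrepT_of f g
    rw [h2]
    exact hp x
  have : NeZero (Nat.card Γ : F) := ⟨Nat.cast_ne_zero.2 Nat.card_pos.ne'⟩
  have : FiniteDimensional F (MonoidAlgebra F Γ) :=
    Module.Finite.equiv (MonoidAlgebra.coeffLinearEquiv (S := F) (M := Γ) F).symm
  obtain ⟨N, d, hd, ⟨e⟩⟩ :=
    IsSemisimpleRing.exists_algEquiv_pi_matrix_of_isAlgClosed F (MonoidAlgebra F Γ)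
  -- the component forms
  let t : ∀ i : Fin N, Matrix (Fin (d i)) (Fin (d i)) F →ₗ[F] F := fun i =>
    (T.comp e.symm.toLinearMap).comp (LinearMap.single F (fun i => Matrix (Fin (d i)) (Fin (d i)) F) i)
  have ht : ∀ i a, t i a = T (e.symm (Pi.single i a)) := fun i a => rfl
  have hd' : ∀ i, NeZero (d i) := hd
  have htc : ∀ i, ∀ a b : Matrix (Fin (d i)) (Fin (d i)) F, t i (a * b) = t i (b * a) := by
    intro i a b
    rw [ht, ht, Pi.single_mul, Pi.single_mul, map_mul e.symm, map_mul e.symm, hTc]
  have hTs : ∀ a, T a = ∑ i, t i (e a i) := by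
    intro a
    have h2 : a = ∑ i, e.symm (Pi.single i (e a i)) := by
      rw [← map_sum, Finset.univ_sum_single, AlgEquiv.symm_apply_apply]
    conv_lhs => rw [h2]
    rw [map_sum]
    rfl
  have hm : ∀ i, ∃ m : ℕ, t i (Matrix.single 0 0 1) = m := by
    intro i
    have h2 : (e.symm (Pi.single i (Matrix.single 0 0 1))) *
        (e.symm (Pi.single i (Matrix.single 0 0 1))) =
        e.symm (Pi.single i (Matrix.single 0 0 1)) := by
      rw [← map_mul, ← Pi.single_mul, Matrix.single_mul_single_same, mul_one]
    have h3 := pol_idem (fun x => T x) h2 (n + 1)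
    rw [show pol (fun x => T x) (n + 1) _ = _ from hTp _] at h3
    obtain ⟨j, _, hj⟩ := Finset.prod_eq_zero_iff.1 h3.symm
    exact ⟨j, sub_eq_zero.1 hj⟩
  choose m hm using hm
  have hfs : ∀ g, f g = ∑ i, (m i : F) * (e (MonoidAlgebra.of F Γ g) i).trace := by
    intro g
    rw [← mrepT_of f g, ← hT, hTs]
    refine Finset.sum_congr rfl fun i _ => ?_
    rw [mrep_central (t i) (htc i), hm]
  have hchar : MRepChar (∑ i, m i * d i)
      (fun g : Γ => ∑ i, (m i : F) * (e (MonoidAlgebra.of F Γ g) i).trace) := by
    refine mrep_char_sum Finset.univ (fun i => m i * d i)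
      (fun i g => (m i : F) * (e (MonoidAlgebra.of F Γ g) i).trace) fun i => ?_
    refine mrep_char_nsmul (a := d i) ?_ (m i)
    exact ⟨((Pi.evalMonoidHom (fun i => Matrix (Fin (d i)) (Fin (d i)) F) i).comp
      (e : _ →* _)).comp (MonoidAlgebra.of F Γ), fun g => rfl⟩
  obtain ⟨R, hR⟩ := hchar
  have hn : ∑ i, m i * d i = n := by
    have h2 : (R 1).trace = f 1 := (hR 1).trans (hfs 1).symm
    rw [h1, map_one, Matrix.trace_one, Fintype.card_fin] at h2
    exact_mod_cast h2
  have key : ∀ N' : ℕ, N' = n → (∃ R : Γ →* Matrix (Fin N') (Fin N') F, ∀ g, (R g).trace = f g) →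
      ∃ R : Γ →* Matrix (Fin n) (Fin n) F, ∀ g, (R g).trace = f g := by
    rintro N' rfl h
    exact h
  exact key _ hn ⟨R, fun g => (hR g).trans (hfs g).symm⟩

end Pool.Agent.OneM74
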