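import Pool.Agent.W_7742j_h74.JOne
import Pool.Agent.W_7742k_h74.FBnd

/-! # Definitions for the statement: representations over a number field -/

set_option autoImplicit false

noncomputable section

namespace Pool.Agent.OneM74

open NumberField Pool.Agent.Cheb Pool.Agent.GalSide Pool.Agent.H74V Pool.Agent.OneI74
open Pool.Agent.DZ74 (Thin NoZeros CongruentOutside)

variable {K E : Type} [Field K] [NumberField K] [Field E] {n : ℕ}

/-- `R` has open kernel and is absolutely irreducible: for every embedding of `E` in `ℂ` the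
representation over `ℂ` is irreducible. -/
def IsArtinE (R : AbsGal ℚ →* GL (Fin n) E) : Prop :=
  IsOpen (R.ker : Set (AbsGal ℚ)) ∧ ∀ (τ : E →+* ℂ) (W : Submodule ℂ (Fin n → ℂ)),
    (∀ g, ∀ w ∈ W, ((R g).val.map τ).mulVec w ∈ W) → W = ⊥ ∨ W = ⊤

/-- `tr R(g) = i x` for all `g` and `x` with `tr r(g) = ι x` such that all conjugates of `x` have
absolute value at most `B`, where `(n ^ (2 n ^ 2) (B + n)) ^ d` is smaller than the norm of `ker ι`,
`d = [K : ℚ]`. -/
def LiftsTrE {A : Type} [CommRing A] (ι : 𝓞 K →+* A) (r : AbsGal ℚ →* GL (Fin n) A)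
    (i : K →+* E) (R : AbsGal ℚ →* GL (Fin n) E) : Prop :=
  ∀ (g : AbsGal ℚ) (x : 𝓞 K) (B : ℝ), 0 ≤ B → (∀ σ : K →+* ℂ, ‖σ (x : K)‖ ≤ B) →
    ((n : ℝ) ^ (2 * n ^ 2) * (B + n)) ^ Module.finrank ℚ K <
      (Ideal.absNorm (RingHom.ker ι) : ℝ) →
    (r g).val.trace = ι x → (R g).val.trace = i (x : K)

/-- `det R(g) = i x` for all `g` and `x` with `det r(g) = ι x` such that all conjugates of `x` have
absolute value at most `1`. -/
def LiftsDetE {A : Type} [CommRing A] (ι : 𝓞 K →+* A) (r : AbsGal ℚ →* GL (Fin n) A)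
    (i : K →+* E) (R : AbsGal ℚ →* GL (Fin n) E) : Prop :=
  ∀ (g : AbsGal ℚ) (x : 𝓞 K), (∀ σ : K →+* ℂ, ‖σ (x : K)‖ ≤ 1) →
    (r g).val.det = ι x → (R g).val.det = i (x : K)

/-- The characteristic polynomial of `R(g)` is `i P` for all `g` and all monic polynomials `P` of
degree `n` over `𝓞 K` such that the characteristic polynomial of `r(g)` is `ι P` and the roots of all
conjugates of `P` have absolute value at most `ρ`, where `ρ ≥ 1` and
`(n ^ (2 n ^ 2 + 1) (ρ ^ n + 1)) ^ d` is smaller than the norm of `ker ι`, `d = [K : ℚ]`. -/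
def LiftsChE {A : Type} [CommRing A] (ι : 𝓞 K →+* A) (r : AbsGal ℚ →* GL (Fin n) A)
    (i : K →+* E) (R : AbsGal ℚ →* GL (Fin n) E) : Prop :=
  ∀ (g : AbsGal ℚ) (P : Polynomial (𝓞 K)) (ρ : ℝ), P.Monic → P.natDegree = n → 1 ≤ ρ →
    (∀ σ : K →+* ℂ, ∀ α ∈ ((P.map (algebraMap (𝓞 K) K)).map σ).roots, ‖α‖ ≤ ρ) →
    ((n : ℝ) ^ (2 * n ^ 2 + 1) * (ρ ^ n + 1)) ^ Module.finrank ℚ K <
      (Ideal.absNorm (RingHom.ker ι) : ℝ) →
    (r g).val.charpoly = P.map ι → (R g).val.charpoly = (P.map (algebraMap (𝓞 K) K)).map i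

/-- The conclusion for all primes which do not divide the level: for `1 ≤ m ≤ n` the series of the
`p ^ (-x)` over the `p` outside `S` such that one of the first `m` coefficients (after the leading one)
of the characteristic polynomials of `R (Fr p)` and `i (A p)` differs converges for `x > m * β₀`; the
eigenvalues of all conjugates of `A p` have absolute value at most `p ^ (β₀ / 2)`; and if `β₀ = 0`, then
they are roots of unity and, if `p` is outside `S`, the characteristic polynomials of `R (Fr p)` and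
`i (A p)` are equal. -/
def AllPrimesE (π : SatakeSystem K n) (Fr : Nat.Primes → AbsGal ℚ) (i : K →+* E)
    (R : AbsGal ℚ →* GL (Fin n) E) (S : Set Nat.Primes) (β₀ : ℝ) : Prop :=
  (∀ m : ℕ, 0 < m → m ≤ n → ∀ x : ℝ, m * β₀ < x →
    Thin {p : Nat.Primes | p ∉ S ∧ π.Good p ∧ ∃ j : ℕ, 0 < j ∧ j ≤ m ∧
      (R (Fr p)).val.charpoly.coeff (n - j) ≠ i ((π.A p).charpoly.coeff (n - j))} x) ∧
  (∀ p : Nat.Primes, π.Good p → ∀ s : K →+* ℂ, ∀ α ∈ ((π.A p).charpoly.map s).roots,
    ‖α‖ ≤ ((p : ℕ) : ℝ) ^ (β₀ / 2)) ∧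
  (β₀ = 0 → ∀ p : Nat.Primes, π.Good p →
    (∃ m : ℕ, 0 < m ∧ ∀ s : K →+* ℂ, ∀ α ∈ ((π.A p).charpoly.map s).roots, α ^ m = 1) ∧
    (p ∉ S → (R (Fr p)).val.charpoly = (π.A p).charpoly.map i))

/-- `CongruentOutside`, `NoZeros` imply `AllPrimesE`. -/
def LiftsAllE (π : SatakeSystem K n) (Fr : Nat.Primes → AbsGal ℚ) {A : Type} [CommRing A]
    (ι : 𝓞 K →+* A) (r : AbsGal ℚ →* GL (Fin n) A) (i : K →+* E)
    (R : AbsGal ℚ →* GL (Fin n) E) : Prop :=
  ∀ (S : Set Nat.Primes) (β₀ : ℝ), 0 ≤ β₀ → β₀ < 1 → (∀ x : ℝ, β₀ < x → Thin S x) →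
    CongruentOutside π Fr ι r S → NoZeros r.ker β₀ → AllPrimesE π Fr i R S β₀

/-- There is an absolutely irreducible representation over a number field `E ⊇ K` (an Artin motive of
rank `n` with coefficients in `E`) which is associated with `π` at the primes outside a set of density
zero. -/
def HasArtin (π : SatakeSystem K n) (Fr : Nat.Primes → AbsGal ℚ) : Prop :=
  ∃ (E : Type) (_ : Field E) (_ : NumberField E) (i : K →+* E) (R : AbsGal ℚ →* GL (Fin n) E),
    IsArtinE R ∧ HasDensity {p : Nat.Primes | (R (Fr p)).val.trace ≠ i (π.A p).trace} 0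

/-- There is a representation modulo the ideal `𝔞` (with values in a commutative ring which contains
`𝓞 K ⧸ 𝔞`) whose traces at the Frobenius elements are congruent to those of `π`, outside a set of
density zero. -/
def HasMod (π : SatakeSystem K n) (Fr : Nat.Primes → AbsGal ℚ) (𝔞 : Ideal (𝓞 K)) : Prop :=
  ∃ (A : Type) (_ : CommRing A) (ι : 𝓞 K →+* A) (r : AbsGal ℚ →* GL (Fin n) A),
    RingHom.ker ι = 𝔞 ∧ IsOpen (r.ker : Set (AbsGal ℚ)) ∧
      Congruent π Fr ι fun g => (r g).val.trace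

end Pool.Agent.OneM74
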