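import Pool.Agent.W_7742m_h74.Defs

/-!
# From the second moment to the primes

For a finite set `Q` of primes which do not divide `N n₀` and every subset `R ⊆ Q` we have
`c (n₀ ∏_{p ∈ R} p) = c n₀ ∏_{p ∈ R} a p` (induction), and the integers `n₀ ∏_{p ∈ R} p` are
different for different `R`.  So
`‖c n₀‖ ^ 2 |n₀| ^ (-x) ∏_{p ∈ Q} (1 + ‖a p‖ ^ 2 p ^ (-x))
  = ∑_{R ⊆ Q} ‖c (n₀ ∏_R p)‖ ^ 2 |n₀ ∏_R p| ^ (-x) ≤ C / (x - 1)` (`Finset.prod_one_add`).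
Take logarithms; `|n₀| ^ (-x) ≥ |n₀| ^ (-2)`.
-/

set_option autoImplicit false

noncomputable section

namespace Pool.Agent.Maass74

/-- The number attached to a set of primes. -/
def prd_n (n₀ : ℤ) (R : Finset ℕ) : ℤ := n₀ * ((∏ p ∈ R, p : ℕ) : ℤ)

theorem prd_coeff {c : ℤ → ℂ} {a : ℕ → ℂ} {n₀ : ℤ} (N : ℕ)
    (hm : ∀ p : ℕ, p.Prime → ¬ p ∣ N → ∀ n : ℤ, ¬ (p : ℤ) ∣ n → c (n * p) = a p * c n)
    (R : Finset ℕ) (hR : ∀ p ∈ R, p.Prime ∧ ¬ p ∣ N ∧ ¬ (p : ℤ) ∣ n₀) :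
    c (prd_n n₀ R) = c n₀ * ∏ p ∈ R, a p := by
  classical
  induction R using Finset.induction_on with
  | empty => simp [prd_n]
  | insert p R hp ih =>
    have h1 := hR p (Finset.mem_insert_self p R)
    have h2 := ih fun q hq => hR q (Finset.mem_insert_of_mem hq)
    have h3 : prd_n n₀ (insert p R) = prd_n n₀ R * p := by
      unfold prd_n
      rw [Finset.prod_insert hp]
      push_cast
      ring
    have h4 : ¬ (p : ℤ) ∣ prd_n n₀ R := by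
      intro h
      rcases (Nat.prime_iff_prime_int.1 h1.1).dvd_or_dvd h with h5 | h5
      · exact h1.2.2 h5
      · have h6 : p ∣ ∏ q ∈ R, q := by exact_mod_cast h5
        obtain ⟨q, hq, hpq⟩ := (Nat.prime_iff.1 h1.1).exists_mem_finset_dvd h6
        have h7 := (Nat.prime_dvd_prime_iff_eq h1.1 (hR q (Finset.mem_insert_of_mem hq)).1).1 hpq
        subst h7
        exact hp hq
    rw [h3, hm p h1.1 h1.2.1 _ h4, h2, Finset.prod_insert hp]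
    ring

theorem prd_inj {n₀ : ℤ} (h0 : n₀ ≠ 0) {R S : Finset ℕ} (hR : ∀ p ∈ R, p.Prime)
    (hS : ∀ p ∈ S, p.Prime) (h : prd_n n₀ R = prd_n n₀ S) : R = S := by
  have h1 : (((∏ p ∈ R, p : ℕ) : ℕ) : ℤ) = ((∏ p ∈ S, p : ℕ) : ℤ) := mul_left_cancel₀ h0 h
  have h2 : ∏ p ∈ R, p = ∏ p ∈ S, p := by exact_mod_cast h1
  rw [← Nat.primeFactors_prod hR, ← Nat.primeFactors_prod hS, h2]

theorem prd_abs (n₀ : ℤ) (R : Finset ℕ) (x : ℝ) :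
    |((prd_n n₀ R : ℤ) : ℝ)| ^ (-x) = |(n₀ : ℝ)| ^ (-x) * ∏ p ∈ R, (p : ℝ) ^ (-x) := by
  unfold prd_n
  push_cast
  have h : |∏ p ∈ R, (p : ℝ)| = ∏ p ∈ R, (p : ℝ) :=
    abs_of_nonneg (Finset.prod_nonneg fun p _ => Nat.cast_nonneg p)
  rw [abs_mul, Real.mul_rpow (abs_nonneg _) (abs_nonneg _), h,
    Real.finsetProd_rpow _ _ fun p _ => Nat.cast_nonneg p]

theorem prime_bound {c : ℤ → ℂ} {a : ℕ → ℂ} {n₀ : ℤ} (h0 : n₀ ≠ 0) (hn : c n₀ ≠ 0) (N : ℕ)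
    (hm : ∀ p : ℕ, p.Prime → ¬ p ∣ N → ∀ n : ℤ, ¬ (p : ℤ) ∣ n → c (n * p) = a p * c n)
    {C : ℝ} (hC : 0 < C) (hs : ∀ x : ℝ, 1 < x → x ≤ 2 → ∀ S : Finset ℤ,
      ∑ n ∈ S, ‖c n‖ ^ 2 * |(n : ℝ)| ^ (-x) ≤ C / (x - 1)) :
    ∃ B : ℝ, ∀ x : ℝ, 1 < x → x ≤ 2 → ∀ Q : Finset ℕ,
      (∀ p ∈ Q, p.Prime ∧ ¬ p ∣ N ∧ ¬ (p : ℤ) ∣ n₀) →
      ∑ p ∈ Q, Real.log (1 + ‖a p‖ ^ 2 * (p : ℝ) ^ (-x)) ≤ -Real.log (x - 1) + B := by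
  classical
  refine ⟨Real.log C - 2 * Real.log ‖c n₀‖ + 2 * Real.log |(n₀ : ℝ)|, fun x hx1 hx2 Q hQ => ?_⟩
  have hterm : ∀ p : ℕ, 0 ≤ ‖a p‖ ^ 2 * (p : ℝ) ^ (-x) := fun p => by positivity
  have h1 := hs x hx1 hx2 (Q.powerset.image (prd_n n₀))
  rw [Finset.sum_image fun R hR S hS h => prd_inj h0
    (fun p hp => (hQ p (Finset.mem_powerset.1 hR hp)).1)
    (fun p hp => (hQ p (Finset.mem_powerset.1 hS hp)).1) h] at h1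
  have h2 : ∀ R ∈ Q.powerset, ‖c (prd_n n₀ R)‖ ^ 2 * |((prd_n n₀ R : ℤ) : ℝ)| ^ (-x) =
      ‖c n₀‖ ^ 2 * |(n₀ : ℝ)| ^ (-x) * ∏ p ∈ R, (‖a p‖ ^ 2 * (p : ℝ) ^ (-x)) := by
    intro R hR
    rw [prd_coeff N hm R fun p hp => hQ p (Finset.mem_powerset.1 hR hp), prd_abs, norm_mul,
      norm_prod, mul_pow, Finset.prod_mul_distrib, Finset.prod_pow]
    ring
  rw [Finset.sum_congr rfl h2, ← Finset.mul_sum, ← Finset.prod_one_add] at h1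
  have hn0 : 0 < |(n₀ : ℝ)| := abs_pos.2 (Int.cast_ne_zero.2 h0)
  have hn1 : 1 ≤ |(n₀ : ℝ)| := by
    rw [← Int.cast_abs]
    exact_mod_cast Int.one_le_abs h0
  have hc0 : 0 < ‖c n₀‖ := norm_pos_iff.2 hn
  have hP : 0 < ∏ p ∈ Q, (1 + ‖a p‖ ^ 2 * (p : ℝ) ^ (-x)) :=
    Finset.prod_pos fun p _ => by linarith [hterm p]
  have hA : 0 < ‖c n₀‖ ^ 2 * |(n₀ : ℝ)| ^ (-x) := mul_pos (pow_pos hc0 2) (Real.rpow_pos_of_pos hn0 _)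
  have h3 := Real.log_le_log (mul_pos hA hP) h1
  rw [Real.log_mul hA.ne' hP.ne', Real.log_mul (pow_pos hc0 2).ne' (Real.rpow_pos_of_pos hn0 _).ne',
    Real.log_pow, Real.log_rpow hn0, Real.log_div hC.ne' (by linarith : x - 1 ≠ 0),
    Real.log_prod fun p _ => (by linarith [hterm p] : (1 + ‖a p‖ ^ 2 * (p : ℝ) ^ (-x)) ≠ 0)] at h3
  have h4 : 0 ≤ Real.log |(n₀ : ℝ)| := Real.log_nonneg hn1
  push_cast at h3
  nlinarith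

end Pool.Agent.Maass74
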