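import Pool.Agent.W_7742m_h74.FouB

/-!
# The second moment of the Fourier coefficients

Let `1 < x ≤ 2`.  By `fc_bessel` and `IsExpansion.eq`,
`∑ n ∈ S, ‖c n‖ ^ 2 ‖W(|n| y)‖ ^ 2 / |n| ≤ C` for all `y > 0`.  Multiply by `y ^ (x - 2)` and
integrate over `0 < y < 1`: the right side is `C / (x - 1)`.  For `n ≠ 0`
`∫_0^1 ‖W(|n| y)‖ ^ 2 y ^ (x - 2) dy = |n| ^ (1 - x) ∫_0^|n| ‖W t‖ ^ 2 t ^ (x - 2) dt
 ≥ |n| ^ (1 - x) κ` with `κ = ∫_0^1 ‖W t‖ ^ 2 dt > 0` (`t ^ (x - 2) ≥ 1` on `(0, 1)`); here `κ`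
is positive because `W` is continuous on `y > 0` and not identically zero on `(0, 1)`; to avoid
integrability questions at `0` one may integrate only over the compact interval `[δ, 1]`, `δ > 0`
small, i.e. take `κ = ∫_δ^1 ‖W t‖ ^ 2 dt` and the range `δ / |n| ≤ y ≤ 1 / |n|` for `y`.
So `κ ∑ n ∈ S, ‖c n‖ ^ 2 |n| ^ (-x) ≤ C / (x - 1)`.  (For `n = 0` the term is zero as `c 0 = 0`.)
-/

set_option autoImplicit false

noncomputable section

namespace Pool.Agent.Maass74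

theorem Sec_fc_continuousOn {F : ℝ → ℝ → ℂ} {W : ℝ → ℂ} {c : ℤ → ℂ}
    (hE : IsExpansion F W c) (n : ℤ) : ContinuousOn (fc F n) (Set.Ioi 0) := by
  have h1 : ContinuousOn (fun y : ℝ => c n * W (|(n : ℝ)| * y) / (Real.sqrt |(n : ℝ)| : ℂ))
      (Set.Ioi 0) := by
    by_cases hn : n = 0
    · subst hn
      rw [hE.zero]
      simp only [zero_mul, zero_div]
      exact continuousOn_const
    · have hn' : (0 : ℝ) < |(n : ℝ)| := abs_pos.mpr (by exact_mod_cast hn)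
      apply ContinuousOn.div_const
      apply ContinuousOn.mul continuousOn_const
      apply hE.continuous.comp (by fun_prop)
      intro y hy
      exact mul_pos hn' hy
  exact h1.congr fun y hy => hE.eq n y hy

theorem Sec_term {F : ℝ → ℝ → ℂ} {W : ℝ → ℂ} {c : ℤ → ℂ}
    (hE : IsExpansion F W c) {δ : ℝ} (hδ : 0 < δ) (hδ1 : δ < 1) {x : ℝ} (hx2 : x ≤ 2)
    {n : ℤ} (hn : n ≠ 0) {ε : ℝ} (hε : 0 < ε) (hεδ : ε ≤ δ / |(n : ℝ)|) :
    (∫ t in δ..1, ‖W t‖ ^ 2) * (‖c n‖ ^ 2 * |(n : ℝ)| ^ (-x)) ≤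
      ∫ y in ε..1, ‖fc F n y‖ ^ 2 * y ^ (x - 2) := by
  set a : ℝ := |(n : ℝ)| with ha
  have ha1 : 1 ≤ a := by
    rw [ha]
    have := Int.one_le_abs hn
    exact_mod_cast this
  have ha0 : 0 < a := by linarith
  have hcontW : ContinuousOn (fun t : ℝ => ‖W t‖ ^ 2) (Set.Icc δ 1) :=
    ((hE.continuous.mono fun t ht => lt_of_lt_of_le hδ ht.1).norm.pow 2)
  -- the integrand
  have hg : ∀ y : ℝ, 0 < y → ‖fc F n y‖ ^ 2 * y ^ (x - 2) =
      ‖c n‖ ^ 2 / a * (‖W (a * y)‖ ^ 2 * (a * y / a) ^ (x - 2)) := by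
    intro y hy
    rw [hE.eq n y hy, norm_div, norm_mul, div_pow, mul_pow]
    have h1 : ‖((Real.sqrt |(n : ℝ)| : ℝ) : ℂ)‖ ^ 2 = a := by
      rw [Complex.norm_real, Real.norm_eq_abs, sq_abs, Real.sq_sqrt (abs_nonneg _)]
    rw [h1, mul_div_cancel_left₀ y ha0.ne']
    ring
  have hcont : ContinuousOn (fun y : ℝ => ‖fc F n y‖ ^ 2 * y ^ (x - 2)) (Set.Icc ε 1) := by
    apply ContinuousOn.mul
    · exact ((Sec_fc_continuousOn hE n).mono fun t ht => lt_of_lt_of_le hε ht.1).norm.pow 2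
    · intro y hy
      exact (Real.continuousAt_rpow_const y (x - 2)
        (Or.inl (lt_of_lt_of_le hε hy.1).ne')).continuousWithinAt
  have hle1 : δ / a ≤ 1 / a := by
    apply div_le_div_of_nonneg_right hδ1.le ha0.le
  have h1a : 1 / a ≤ 1 := by
    rw [div_le_one ha0]
    exact ha1
  have hε1 : ε ≤ 1 := by linarith
  have step1 : ∫ y in (δ / a)..(1 / a), ‖fc F n y‖ ^ 2 * y ^ (x - 2) ≤
      ∫ y in ε..1, ‖fc F n y‖ ^ 2 * y ^ (x - 2) := by
    apply intervalIntegral.integral_mono_interval hεδ hle1 h1a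
    · rw [Filter.EventuallyLE, MeasureTheory.ae_restrict_iff' measurableSet_Ioc]
      refine Filter.Eventually.of_forall fun y hy => ?_
      have hy0 : 0 < y := lt_trans hε hy.1
      have := Real.rpow_nonneg hy0.le (x - 2)
      simp only [Pi.zero_apply]
      positivity
    · apply ContinuousOn.intervalIntegrable
      rwa [Set.uIcc_of_le hε1]
  refine le_trans ?_ step1
  have step2 : ∫ y in (δ / a)..(1 / a), ‖fc F n y‖ ^ 2 * y ^ (x - 2) =
      ∫ y in (δ / a)..(1 / a), ‖c n‖ ^ 2 / a * (‖W (a * y)‖ ^ 2 * (a * y / a) ^ (x - 2)) := by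
    apply intervalIntegral.integral_congr
    intro y hy
    rw [Set.uIcc_of_le hle1] at hy
    exact hg y (lt_of_lt_of_le (by positivity) hy.1)
  rw [step2, intervalIntegral.integral_const_mul]
  have step3 := intervalIntegral.integral_comp_mul_left (a := δ / a) (b := 1 / a)
    (fun t : ℝ => ‖W t‖ ^ 2 * (t / a) ^ (x - 2)) ha0.ne'
  beta_reduce at step3
  rw [step3, mul_div_cancel₀ _ ha0.ne', mul_div_cancel₀ _ ha0.ne', smul_eq_mul]
  have step4 : (∫ t in δ..1, ‖W t‖ ^ 2) * a ^ (2 - x) ≤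
      ∫ t in δ..1, ‖W t‖ ^ 2 * (t / a) ^ (x - 2) := by
    rw [← intervalIntegral.integral_mul_const]
    apply intervalIntegral.integral_mono_on hδ1.le
    · apply ContinuousOn.intervalIntegrable
      rw [Set.uIcc_of_le hδ1.le]
      exact hcontW.mul continuousOn_const
    · apply ContinuousOn.intervalIntegrable
      rw [Set.uIcc_of_le hδ1.le]
      apply hcontW.mul
      intro t ht
      have ht0 : 0 < t := lt_of_lt_of_le hδ ht.1
      exact (ContinuousAt.rpow_const (by fun_prop)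
        (Or.inl (by positivity))).continuousWithinAt
    · intro t ht
      have ht0 : 0 < t := lt_of_lt_of_le hδ ht.1
      apply mul_le_mul_of_nonneg_left _ (by positivity)
      have h2 : a ^ (2 - x) = (1 / a) ^ (x - 2) := by
        rw [one_div, Real.inv_rpow ha0.le, ← Real.rpow_neg ha0.le, neg_sub]
      rw [h2]
      apply Real.rpow_le_rpow_of_nonpos (by positivity) _ (by linarith)
      exact div_le_div_of_nonneg_right ht.2 ha0.le
  have h5 : a ^ (-x) = a⁻¹ * (a⁻¹ * a ^ (2 - x)) := by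
    rw [← Real.rpow_neg_one a, ← Real.rpow_add ha0, ← Real.rpow_add ha0]
    congr 1
    ring
  rw [h5]
  calc (∫ t in δ..1, ‖W t‖ ^ 2) * (‖c n‖ ^ 2 * (a⁻¹ * (a⁻¹ * a ^ (2 - x))))
      = ‖c n‖ ^ 2 / a * (a⁻¹ * ((∫ t in δ..1, ‖W t‖ ^ 2) * a ^ (2 - x))) := by
        rw [div_eq_mul_inv]
        ring
    _ ≤ ‖c n‖ ^ 2 / a * (a⁻¹ * ∫ t in δ..1, ‖W t‖ ^ 2 * (t / a) ^ (x - 2)) := by
        gcongr

theorem second_moment {F : ℝ → ℝ → ℂ} (hF : IsWave F) {W : ℝ → ℂ} {c : ℤ → ℂ}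
    (hE : IsExpansion F W c) : ∃ C : ℝ, 0 < C ∧ ∀ x : ℝ, 1 < x → x ≤ 2 → ∀ S : Finset ℤ,
      ∑ n ∈ S, ‖c n‖ ^ 2 * |(n : ℝ)| ^ (-x) ≤ C / (x - 1) := by
  obtain ⟨C, hC, hB⟩ := fc_bessel hF
  obtain ⟨y0, hy0, hy1, hW0⟩ := hE.W_ne_zero
  obtain ⟨δ, hδdef⟩ : ∃ δ : ℝ, δ = y0 / 2 := ⟨_, rfl⟩
  have hδ : 0 < δ := by linarith
  have hδ1 : δ < 1 := by linarith
  have hcontW : ContinuousOn (fun t : ℝ => ‖W t‖ ^ 2) (Set.Icc δ 1) :=
    ((hE.continuous.mono fun t ht => lt_of_lt_of_le hδ ht.1).norm.pow 2)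
  have hκ : 0 < ∫ t in δ..1, ‖W t‖ ^ 2 := by
    apply intervalIntegral.integral_pos hδ1 hcontW
    · intro t _
      positivity
    · refine ⟨y0, ⟨by linarith, hy1.le⟩, ?_⟩
      have := norm_pos_iff.mpr hW0
      positivity
  refine ⟨C / ∫ t in δ..1, ‖W t‖ ^ 2, div_pos hC hκ, fun x hx1 hx2 S => ?_⟩
  set κ : ℝ := ∫ t in δ..1, ‖W t‖ ^ 2 with hκdef
  obtain ⟨M, hM1, hM⟩ : ∃ M : ℝ, 1 ≤ M ∧ ∀ n ∈ S, |(n : ℝ)| ≤ M := by
    refine ⟨1 + ∑ n ∈ S, |(n : ℝ)|, ?_, fun n hn => ?_⟩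
    · have : 0 ≤ ∑ n ∈ S, |(n : ℝ)| := Finset.sum_nonneg fun _ _ => abs_nonneg _
      linarith
    · have := Finset.single_le_sum (f := fun n : ℤ => |(n : ℝ)|) (fun _ _ => abs_nonneg _) hn
      linarith
  have hM0 : 0 < M := by linarith
  obtain ⟨ε, hεdef⟩ : ∃ ε : ℝ, ε = δ / M := ⟨_, rfl⟩
  have hε : 0 < ε := by rw [hεdef]; positivity
  have hε1 : ε ≤ 1 := by
    rw [hεdef, div_le_one hM0]
    linarith
  have hcont : ∀ n : ℤ, ContinuousOn (fun y : ℝ => ‖fc F n y‖ ^ 2 * y ^ (x - 2))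
      (Set.Icc ε 1) := by
    intro n
    apply ContinuousOn.mul
    · exact ((Sec_fc_continuousOn hE n).mono fun t ht => lt_of_lt_of_le hε ht.1).norm.pow 2
    · intro y hy
      exact (Real.continuousAt_rpow_const y (x - 2)
        (Or.inl (lt_of_lt_of_le hε hy.1).ne')).continuousWithinAt
  have hint : ∀ n : ℤ, IntervalIntegrable (fun y : ℝ => ‖fc F n y‖ ^ 2 * y ^ (x - 2))
      MeasureTheory.volume ε 1 := by
    intro n
    apply ContinuousOn.intervalIntegrable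
    rw [Set.uIcc_of_le hε1]
    exact hcont n
  have hterm : ∀ n ∈ S, κ * (‖c n‖ ^ 2 * |(n : ℝ)| ^ (-x)) ≤
      ∫ y in ε..1, ‖fc F n y‖ ^ 2 * y ^ (x - 2) := by
    intro n hn
    by_cases hn0 : n = 0
    · subst hn0
      rw [hE.zero]
      simp only [norm_zero, ne_eq, OfNat.ofNat_ne_zero, not_false_eq_true, zero_pow, zero_mul,
        mul_zero]
      apply intervalIntegral.integral_nonneg hε1
      intro y hy
      have := Real.rpow_nonneg (hε.le.trans hy.1) (x - 2)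
      positivity
    · apply Sec_term hE hδ hδ1 hx2 hn0 hε
      rw [hεdef]
      have ha0 : (0 : ℝ) < |(n : ℝ)| := abs_pos.mpr (by exact_mod_cast hn0)
      exact div_le_div_of_nonneg_left hδ.le ha0 (hM n hn)
  have hsum : κ * ∑ n ∈ S, ‖c n‖ ^ 2 * |(n : ℝ)| ^ (-x) ≤ C / (x - 1) := by
    rw [Finset.mul_sum]
    refine (Finset.sum_le_sum hterm).trans ?_
    rw [← intervalIntegral.integral_finsetSum fun n _ => hint n]
    have hle : ∫ y in ε..1, ∑ n ∈ S, ‖fc F n y‖ ^ 2 * y ^ (x - 2) ≤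
        ∫ y in ε..1, C * y ^ (x - 2) := by
      apply intervalIntegral.integral_mono_on hε1
      · apply ContinuousOn.intervalIntegrable
        rw [Set.uIcc_of_le hε1]
        exact continuousOn_finsetSum _ fun n _ => hcont n
      · apply ContinuousOn.intervalIntegrable
        rw [Set.uIcc_of_le hε1]
        apply continuousOn_const.mul
        intro y hy
        exact (Real.continuousAt_rpow_const y (x - 2)
          (Or.inl (lt_of_lt_of_le hε hy.1).ne')).continuousWithinAt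
      · intro y hy
        have hy0 : 0 < y := lt_of_lt_of_le hε hy.1
        rw [← Finset.sum_mul]
        exact mul_le_mul_of_nonneg_right (hB y hy0 S) (Real.rpow_nonneg hy0.le _)
    refine hle.trans ?_
    rw [intervalIntegral.integral_const_mul, integral_rpow (Or.inl (by linarith))]
    have e1 : x - 2 + 1 = x - 1 := by ring
    rw [e1, Real.one_rpow]
    have h3 : 0 ≤ ε ^ (x - 1) := Real.rpow_nonneg hε.le _
    have h4 : 0 < x - 1 := by linarith
    rw [← mul_div_assoc]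
    apply div_le_div_of_nonneg_right _ h4.le
    nlinarith
  rw [div_div, mul_comm κ (x - 1), ← div_div, le_div_iff₀ hκ]
  linarith [mul_comm κ (∑ n ∈ S, ‖c n‖ ^ 2 * |(n : ℝ)| ^ (-x))]

end Pool.Agent.Maass74
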