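import Pool.Agent.W_7742m_h74.ThomA

/-!
# The trace argument, conclusion
-/

set_option autoImplicit false

noncomputable section

namespace Pool.Agent.Maass74

open Filter Topology ComplexConjugate

open H74E H74E.SatakeSystem in
theorem thompson {K : Type} [Field K] [NumberField K] (N : ℕ) (hN : 0 < N) (a b : ℕ → K)
    (ha : ∀ p : ℕ, p.Prime → ¬ p ∣ N → IsIntegral ℤ (a p))
    (hint : ∀ p : ℕ, p.Prime → ¬ p ∣ N → IsIntegral ℤ (b p))
    (hu : ∀ (σ : K →+* ℂ) (p : ℕ), p.Prime → ¬ p ∣ N → conj (σ (a p)) = σ (b p))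
    (hb : ∀ σ : K →+* ℂ, ∃ (n₀ : ℤ) (B : ℝ), n₀ ≠ 0 ∧ ∀ x : ℝ, 1 < x → x ≤ 2 → ∀ Q : Finset ℕ,
      (∀ p ∈ Q, p.Prime ∧ ¬ p ∣ N ∧ ¬ (p : ℤ) ∣ n₀) →
      ∑ p ∈ Q, Real.log (1 + ‖σ (a p)‖ ^ 2 * (p : ℝ) ^ (-x)) ≤ -Real.log (x - 1) + B)
    (ε : ℝ) (hε : 0 < ε) : ∀ᶠ s in 𝓝[>] (1 : ℝ), (1 - ε) * primeSum (fun _ => True) s ≤
      3 * primeSum (fun p => ¬ p ∣ N ∧ a p = 0) s +
        primeSum (fun p => ¬ p ∣ N ∧ ∃ k : ℕ, 0 < k ∧ a p ^ k = 1) s := by
  classical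
  set d : ℝ := (Fintype.card (K →+* ℂ) : ℝ) with hd
  have hd1 : 1 ≤ d := by
    have σ0 : K →+* ℂ := Classical.choice inferInstance
    have : 0 < Fintype.card (K →+* ℂ) := Fintype.card_pos_iff.2 ⟨σ0⟩
    rw [hd]
    exact_mod_cast this
  have hdpos : 0 < d := by linarith
  choose n₀ B hn₀ hB using hb
  -- the bad primes
  set L : ℕ := N * ∏ σ : K →+* ℂ, (n₀ σ).natAbs with hL
  have hL0 : L ≠ 0 := by
    rw [hL]
    refine mul_ne_zero hN.ne' (Finset.prod_ne_zero_iff.2 fun σ _ => ?_)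
    exact Int.natAbs_ne_zero.2 (hn₀ σ)
  have hLN : ∀ p : ℕ, ¬ p ∣ L → ¬ p ∣ N := fun p h h' => h (h'.mul_right _)
  have hLn : ∀ p : ℕ, ¬ p ∣ L → ∀ σ, ¬ (p : ℤ) ∣ n₀ σ := by
    intro p h σ h'
    refine h ((Int.natCast_dvd.1 h').trans ?_ |>.mul_left _)
    exact Finset.dvd_prod_of_mem (fun σ : K →+* ℂ => (n₀ σ).natAbs) (Finset.mem_univ σ)
  set T2 : ℝ := d * (3 / 2 * d) ^ 2 with hT2
  have hT20 : 0 ≤ T2 := by rw [hT2]; positivity
  set PZ : ℕ → Prop := fun p => ¬ p ∣ N ∧ a p = 0 with hPZ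
  set PU : ℕ → Prop := fun p => ¬ p ∣ N ∧ ∃ k : ℕ, 0 < k ∧ a p ^ k = 1 with hPU
  set PB : ℕ → Prop := fun p => p ∣ L with hPB
  -- the sum of the bounds
  set BB : ℝ := ∑ σ : K →+* ℂ, B σ with hBB
  set R2 : ℝ := ∑' p : Nat.Primes, ((p : ℕ) : ℝ) ^ (-(2 : ℝ)) with hR2
  have hR2s : Summable fun p : Nat.Primes => ((p : ℕ) : ℝ) ^ (-(2 : ℝ)) :=
    summable_primes_rpow (by norm_num)
  obtain ⟨C0, hC0⟩ := neg_log_le_primes
  -- the main inequality
  have hmain : ∀ s : ℝ, 1 < s → s ≤ 2 →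
      3 / 2 * d * ∑' p : Nat.Primes, ((p : ℕ) : ℝ) ^ (-s) -
        (3 / 2 * d * ∑' p : Nat.Primes, ind PB p * ((p : ℕ) : ℝ) ^ (-s) +
        3 / 2 * d * ∑' p : Nat.Primes, ind PZ p * ((p : ℕ) : ℝ) ^ (-s) +
        1 / 2 * d * ∑' p : Nat.Primes, ind PU p * ((p : ℕ) : ℝ) ^ (-s)) - T2 * R2 ≤
        -(d * Real.log (s - 1)) + BB := by
    intro s hs hs2
    have hPsum := summable_primes_rpow hs
    have hind : ∀ Q : ℕ → Prop, Summable fun p : Nat.Primes =>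
        ind Q p * ((p : ℕ) : ℝ) ^ (-s) := by
      intro Q
      refine Summable.of_nonneg_of_le (fun p => mul_nonneg (ind_nonneg _ _) (by positivity))
        (fun p => ?_) hPsum
      exact mul_le_of_le_one_left (by positivity) (ind_le_one _ _)
    -- the summand
    let Φ : Nat.Primes → ℝ := fun p => 3 / 2 * d * ((p : ℕ) : ℝ) ^ (-s) -
        (3 / 2 * d * (ind PB p * ((p : ℕ) : ℝ) ^ (-s)) +
        3 / 2 * d * (ind PZ p * ((p : ℕ) : ℝ) ^ (-s)) +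
        1 / 2 * d * (ind PU p * ((p : ℕ) : ℝ) ^ (-s))) - T2 * ((p : ℕ) : ℝ) ^ (-(2 : ℝ))
    have hΦs : Summable Φ := (((hPsum.mul_left _).sub ((((hind PB).mul_left _).add
        ((hind PZ).mul_left _)).add ((hind PU).mul_left _))).sub (hR2s.mul_left _))
    have hΦ : ∑' p, Φ p = 3 / 2 * d * ∑' p : Nat.Primes, ((p : ℕ) : ℝ) ^ (-s) -
        (3 / 2 * d * ∑' p : Nat.Primes, ind PB p * ((p : ℕ) : ℝ) ^ (-s) +
        3 / 2 * d * ∑' p : Nat.Primes, ind PZ p * ((p : ℕ) : ℝ) ^ (-s) +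
        1 / 2 * d * ∑' p : Nat.Primes, ind PU p * ((p : ℕ) : ℝ) ^ (-s)) - T2 * R2 := by
      simp only [Φ]
      rw [((hPsum.mul_left _).sub ((((hind PB).mul_left _).add
        ((hind PZ).mul_left _)).add ((hind PU).mul_left _))).tsum_sub (hR2s.mul_left _),
        (hPsum.mul_left _).tsum_sub ((((hind PB).mul_left _).add
        ((hind PZ).mul_left _)).add ((hind PU).mul_left _)),
        (((hind PB).mul_left _).add ((hind PZ).mul_left _)).tsum_add ((hind PU).mul_left _),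
        ((hind PB).mul_left _).tsum_add ((hind PZ).mul_left _),
        tsum_mul_left, tsum_mul_left, tsum_mul_left, tsum_mul_left, tsum_mul_left]
    rw [← hΦ]
    refine hΦs.tsum_le_of_sum_le fun S => ?_
    -- the good primes in `S`
    let Q : Finset ℕ := (S.filter fun p : Nat.Primes => ¬ ((p : ℕ) ∣ L)).map
      ⟨fun p : Nat.Primes => (p : ℕ), Nat.Primes.coe_nat_injective⟩
    have hQ : ∀ p ∈ Q, p.Prime ∧ ¬ p ∣ L := by
      intro p hp
      simp only [Q, Finset.mem_map, Finset.mem_filter, Function.Embedding.coeFn_mk] at hp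
      obtain ⟨q, ⟨-, hq⟩, rfl⟩ := hp
      exact ⟨q.2, hq⟩
    have h1 : ∑ p ∈ S, Φ p ≤ ∑ p ∈ S.filter (fun p : Nat.Primes => ¬ ((p : ℕ) ∣ L)), Φ p := by
      rw [← Finset.sum_filter_add_sum_filter_not S (fun p : Nat.Primes => ¬ ((p : ℕ) ∣ L)) Φ]
      have : ∑ p ∈ S.filter (fun p : Nat.Primes => ¬ ¬ ((p : ℕ) ∣ L)), Φ p ≤ 0 := by
        refine Finset.sum_nonpos fun p hp => ?_
        have hpL : (p : ℕ) ∣ L := not_not.1 (Finset.mem_filter.1 hp).2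
        simp only [Φ]
        rw [ind_pos (P := PB) hpL]
        have e1 := mul_nonneg (ind_nonneg PZ p) (by positivity : (0:ℝ) ≤ ((p : ℕ) : ℝ) ^ (-s))
        have e2 := mul_nonneg (ind_nonneg PU p) (by positivity : (0:ℝ) ≤ ((p : ℕ) : ℝ) ^ (-s))
        have e3 : (0 : ℝ) ≤ T2 * ((p : ℕ) : ℝ) ^ (-(2 : ℝ)) := by positivity
        nlinarith [mul_nonneg hdpos.le e1, mul_nonneg hdpos.le e2]
      linarith
    have h2 : ∑ p ∈ S.filter (fun p : Nat.Primes => ¬ ((p : ℕ) ∣ L)), Φ p ≤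
        ∑ p ∈ Q, ∑ σ : K →+* ℂ, Real.log (1 + ‖σ (a p)‖ ^ 2 * (p : ℝ) ^ (-s)) := by
      rw [Finset.sum_map]
      refine Finset.sum_le_sum fun p hp => ?_
      have hpL : ¬ (p : ℕ) ∣ L := (Finset.mem_filter.1 hp).2
      have hpp : (0 : ℝ) ≤ ((p : ℕ) : ℝ) ^ (-s) := by positivity
      have h3 := pointwise ha hint hu p.2 (hLN p hpL) hd.symm hd1 hpp
      have h4 : (((p : ℕ) : ℝ) ^ (-s)) ^ 2 ≤ ((p : ℕ) : ℝ) ^ (-(2 : ℝ)) := by
        have h1p : (1 : ℝ) ≤ ((p : ℕ) : ℝ) := by exact_mod_cast p.2.one_lt.le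
        have hp0 : (0 : ℝ) < ((p : ℕ) : ℝ) := by linarith
        rw [← Real.rpow_natCast, ← Real.rpow_mul hp0.le]
        refine Real.rpow_le_rpow_of_exponent_le h1p ?_
        push_cast
        linarith
      have h5 : T2 * (((p : ℕ) : ℝ) ^ (-s)) ^ 2 ≤ T2 * ((p : ℕ) : ℝ) ^ (-(2 : ℝ)) :=
        mul_le_mul_of_nonneg_left h4 hT20
      simp only [Φ, Function.Embedding.coeFn_mk]
      rw [ind_neg (P := PB) hpL]
      rw [← hT2] at h3
      linarith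
    have h3 : ∑ p ∈ Q, ∑ σ : K →+* ℂ, Real.log (1 + ‖σ (a p)‖ ^ 2 * (p : ℝ) ^ (-s)) ≤
        -(d * Real.log (s - 1)) + BB := by
      rw [Finset.sum_comm]
      calc ∑ σ : K →+* ℂ, ∑ p ∈ Q, Real.log (1 + ‖σ (a p)‖ ^ 2 * (p : ℝ) ^ (-s))
          ≤ ∑ σ : K →+* ℂ, (-Real.log (s - 1) + B σ) := by
            refine Finset.sum_le_sum fun σ _ => hB σ s hs hs2 Q fun p hp => ?_
            exact ⟨(hQ p hp).1, hLN p (hQ p hp).2, hLn p (hQ p hp).2 σ⟩
        _ = _ := by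
            rw [Finset.sum_add_distrib, Finset.sum_const, Finset.card_univ, nsmul_eq_mul, ← hd]
            ring
    linarith
  -- the number of bad primes
  have hBad : ∀ s : ℝ, 1 < s → ∑' p : Nat.Primes, ind PB p * ((p : ℕ) : ℝ) ^ (-s) ≤
      ∑ p ∈ L.primeFactors, 1 := by
    intro s hs
    rw [← primeSum_eq, SatakeSystem.primeSum]
    have hset : {p : ℕ | p.Prime ∧ p ∣ L} = (L.primeFactors : Set ℕ) := by
      ext p
      simp [Nat.mem_primeFactors, hL0]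
    have e1 : ∑' p : {p : ℕ // p.Prime ∧ PB p}, ((p : ℕ) : ℝ) ^ (-s) =
        ∑' p : (L.primeFactors : Set ℕ), ((p : ℕ) : ℝ) ^ (-s) := by
      rw [← hset]
      rfl
    rw [e1, Finset.tsum_subtype' L.primeFactors (fun p : ℕ => (p : ℝ) ^ (-s))]
    refine Finset.sum_le_sum fun p hp => ?_
    have h1p : (1 : ℝ) ≤ (p : ℝ) := by
      exact_mod_cast (Nat.prime_of_mem_primeFactors hp).one_lt.le
    exact Real.rpow_le_one_of_one_le_of_nonpos h1p (by linarith)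
  set C : ℝ := BB + d * C0 + 3 / 2 * d * (∑ p ∈ L.primeFactors, 1 : ℕ) + T2 * R2 with hC
  have hlt2 : ∀ᶠ s in 𝓝[>] (1 : ℝ), s < 2 :=
    (eventually_lt_nhds (by norm_num : (1 : ℝ) < 2)).filter_mono nhdsWithin_le_nhds
  filter_upwards [hC0, tendsto_neg_log.eventually_ge_atTop (2 * C / (d * ε) + C0), hlt2,
    self_mem_nhdsWithin] with s h2 h3 h4 h5
  have hs : (1 : ℝ) < s := h5
  set P : ℝ := ∑' p : Nat.Primes, ((p : ℕ) : ℝ) ^ (-s) with hP
  have hall1 : primeSum (fun _ => True) s = P := by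
    have : primeSum (fun _ => True) s = SatakeSystem.primeSum (fun _ => True) s := rfl
    rw [this, primeSum_eq, hP]
    exact tsum_congr fun p => by rw [ind_pos (P := fun _ => True) trivial, one_mul]
  have hZZ : primeSum PZ s = ∑' p : Nat.Primes, ind PZ p * ((p : ℕ) : ℝ) ^ (-s) := by
    have : primeSum PZ s = SatakeSystem.primeSum PZ s := rfl
    rw [this, primeSum_eq]
  have hUU : primeSum PU s = ∑' p : Nat.Primes, ind PU p * ((p : ℕ) : ℝ) ^ (-s) := by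
    have : primeSum PU s = SatakeSystem.primeSum PU s := rfl
    rw [this, primeSum_eq]
  have h6 := hmain s hs h4.le
  have h7 := hBad s hs
  rw [← hP, ← hZZ, ← hUU] at h6
  set ZZ := primeSum PZ s
  set U := primeSum PU s
  rw [hall1]
  have h8 : 3 / 2 * d * (∑' p : Nat.Primes, ind PB p * ((p : ℕ) : ℝ) ^ (-s)) ≤
      3 / 2 * d * (∑ p ∈ L.primeFactors, 1 : ℕ) := by
    refine mul_le_mul_of_nonneg_left ?_ (by positivity)
    push_cast
    exact_mod_cast h7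
  have h9 : d * -Real.log (s - 1) ≤ d * (P + C0) := mul_le_mul_of_nonneg_left h2 hdpos.le
  have h10 : d * P ≤ 3 * d * ZZ + d * U + 2 * C := by
    rw [hC]
    linarith
  have h11 : 2 * C ≤ d * ε * P := by
    have h12 : 2 * C / (d * ε) ≤ P := by linarith
    have := mul_le_mul_of_nonneg_left h12 (by positivity : 0 ≤ d * ε)
    rwa [mul_div_cancel₀ _ (by positivity : d * ε ≠ 0)] at this
  have h13 : d * ((1 - ε) * P) ≤ d * (3 * ZZ + U) := by linarith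
  exact le_of_mul_le_mul_left h13 hdpos

end Pool.Agent.Maass74
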