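import Pool.Agent.W_7742m_h74.Coef
import Pool.Agent.W_7742m_h74.Heck
import Pool.Agent.W_7742m_h74.Sec
import Pool.Agent.W_7742m_h74.Prd
import Pool.Agent.W_7742m_h74.AdjB
import Pool.Agent.W_7742m_h74.Thom

/-!
# Assembly
-/

set_option autoImplicit false

noncomputable section

namespace Pool.Agent.Maass74

open UpperHalfPlane CongruenceSubgroup Filter Topology ComplexConjugate

theorem hecke_coord {N : ℕ} {χ : DirichletCharacter ℂ N} {f : ℍ → ℂ} {p : ℕ} (hp : 0 < p)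
    {a : ℂ} (h : ∀ z, hecke χ p f z = a * f z) (x y : ℝ) (hy : 0 < y) :
    χ p * coord f (p * x) (p * y) + ∑ b ∈ Finset.range p, coord f ((x + b) / p) (y / p) =
      (Real.sqrt p : ℂ) * a * coord f x y := by
  have hz : 0 < ((x : ℂ) + y * Complex.I).im := by simpa using hy
  have h1 := h ⟨(x : ℂ) + y * Complex.I, hz⟩
  have hsq : (Real.sqrt p : ℂ) ≠ 0 := by
    have : Real.sqrt (p : ℝ) ≠ 0 := Real.sqrt_ne_zero'.2 (by exact_mod_cast hp)
    exact_mod_cast this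
  unfold hecke at h1
  rw [div_eq_iff hsq] at h1
  have h2 : f ⟨(x : ℂ) + y * Complex.I, hz⟩ = coord f x y := by
    unfold coord
    rw [ofComplex_apply_of_im_pos hz]
  rw [h2] at h1
  have h3 : coord f (p * x) (p * y) =
      f (ofComplex (p * ((⟨(x : ℂ) + y * Complex.I, hz⟩ : ℍ) : ℂ))) := by
    unfold coord
    congr 2
    push_cast
    ring
  have h4 : ∀ b : ℕ, coord f ((x + b) / p) (y / p) =
      f (ofComplex (((⟨(x : ℂ) + y * Complex.I, hz⟩ : ℍ) + b) / p)) := by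
    intro b
    unfold coord
    congr 2
    push_cast
    ring
  rw [h3, Finset.sum_congr rfl fun b _ => h4 b, h1]
  ring

/-- The bound for the eigenvalues of a Maass form in the mean. -/
theorem eigensystem_bound {N : ℕ} [NeZero N] {χ : DirichletCharacter ℂ N} {a : ℕ → ℂ}
    (h : IsMaassEigensystem N χ a) : ∃ (n₀ : ℤ) (B : ℝ), n₀ ≠ 0 ∧ ∀ x : ℝ, 1 < x → x ≤ 2 →
      ∀ Q : Finset ℕ, (∀ p ∈ Q, p.Prime ∧ ¬ p ∣ N ∧ ¬ (p : ℤ) ∣ n₀) →
      ∑ p ∈ Q, Real.log (1 + ‖a p‖ ^ 2 * (p : ℝ) ^ (-x)) ≤ -Real.log (x - 1) + B := by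
  obtain ⟨f, hf, ⟨z, hz⟩, hT⟩ := h
  have hW := isWave_coord hf
  have hne : ∃ x y : ℝ, 0 < y ∧ coord f x y ≠ 0 := by
    refine ⟨z.re, z.im, z.im_pos, ?_⟩
    have : (z.re : ℂ) + z.im * Complex.I = (z : ℂ) := Complex.re_add_im _
    unfold coord
    rw [this, ofComplex_apply]
    exact hz
  obtain ⟨W, c, hE⟩ := exists_expansion hW hne
  obtain ⟨n₀, hn₀⟩ := hE.ne_zero
  have h0 : n₀ ≠ 0 := by
    rintro rfl
    exact hn₀ hE.zero
  obtain ⟨C, hC, hs⟩ := second_moment hW hE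
  obtain ⟨B, hB⟩ := prime_bound h0 hn₀ N (a := a) (fun p hp hpN n hn => by
    have := coeff_hecke hW hE hp.pos (hecke_coord hp.pos (hT p hp hpN)) n
    rwa [if_neg hn, mul_zero, add_zero] at this) hC hs
  exact ⟨n₀, B, h0, hB⟩

theorem main (K : Type) [Field K] [NumberField K] (N : ℕ) (hN : 0 < N) (a w : ℕ → K)
    (ha : ∀ p : ℕ, p.Prime → ¬ p ∣ N → IsIntegral ℤ (a p))
    (h : ∀ σ : K →+* ℂ, ∃ χ : DirichletCharacter ℂ N,
      (∀ p : ℕ, p.Prime → ¬ p ∣ N → χ p = σ (w p)) ∧ IsMaassEigensystem N χ fun p => σ (a p))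
    (ε : ℝ) (hε : 0 < ε) : ∀ᶠ s in 𝓝[>] (1 : ℝ), (1 - ε) * primeSum (fun _ => True) s ≤
      3 * primeSum (fun p => ¬ p ∣ N ∧ a p = 0) s +
        primeSum (fun p => ¬ p ∣ N ∧ ∃ k : ℕ, 0 < k ∧ a p ^ k = 1) s := by
  have : NeZero N := ⟨hN.ne'⟩
  have hw : ∀ p : ℕ, p.Prime → ¬ p ∣ N → ∃ k : ℕ, 0 < k ∧ w p ^ k = 1 := by
    intro p hp hpN
    obtain ⟨χ, hχ, -⟩ := h (Classical.choice inferInstance)
    have hcop : IsUnit ((p : ℕ) : ZMod N) := (ZMod.isUnit_prime_iff_not_dvd hp).2 hpN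
    refine ⟨Nat.card (ZMod N)ˣ, Nat.card_pos, ?_⟩
    have h1 : χ p ^ Nat.card (ZMod N)ˣ = 1 := by
      obtain ⟨u, hu⟩ := hcop
      rw [← hu, ← map_pow, ← Units.val_pow_eq_pow_val, pow_card_eq_one', Units.val_one, map_one]
    rw [hχ p hp hpN, ← map_pow] at h1
    exact (map_eq_one_iff _ (RingHom.injective _)).1 h1
  refine thompson N hN a (fun p => a p * (w p)⁻¹) ha ?_ ?_ ?_ ε hε
  · intro p hp hpN
    refine (ha p hp hpN).mul ?_
    obtain ⟨k, hk, hwk⟩ := hw p hp hpN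
    have hinv : (w p)⁻¹ = w p ^ (k - 1) := by
      refine (eq_inv_of_mul_eq_one_left ?_).symm
      rw [← pow_succ, Nat.sub_add_cancel hk, hwk]
    rw [hinv]
    refine IsIntegral.pow ?_ _
    exact IsIntegral.of_pow hk (by rw [hwk]; exact isIntegral_one)
  · intro σ p hp hpN
    obtain ⟨χ, hχ, f, hf, h0, hT⟩ := h σ
    have h1 := unitary hf h0 hp hpN (hT p hp hpN)
    rw [hχ p hp hpN] at h1
    obtain ⟨k, hk, hwk⟩ := hw p hp hpN
    have hw0 : w p ≠ 0 := by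
      intro h
      rw [h, zero_pow hk.ne'] at hwk
      exact zero_ne_one hwk
    have hσw : σ (w p) ≠ 0 := (map_ne_zero σ).2 hw0
    rw [map_mul, map_inv₀, eq_mul_inv_iff_mul_eq₀ hσw, mul_comm]
    exact h1
  · intro σ
    obtain ⟨χ, -, hE⟩ := h σ
    exact eigensystem_bound hE

end Pool.Agent.Maass74
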