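import Pool.Agent.W_7742m_h74.Defs

/-!
# Integral matrices of determinant `p`

`HM N p` is the set of the integral matrices `(a, b; c, d)` of determinant `p` with `N ∣ c`.  They
act on `ℍ` through `GL (Fin 2) ℝ`.

* `act_smul`, `act_adj`: `mul_smul` in `GL (Fin 2) ℝ`; the adjugate times the matrix is the scalar
  matrix `p`, which acts trivially.
* `act_diag`, `act_upper`: evaluate (`UpperHalfPlane.ext`, `coe_smul_of_det_pos` or similar).
* `measurePreserving_act`: `measurePreserving_smul` for the invariant measure on `ℍ`.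
* `bijective_reps` (`p` a prime not dividing `N`): let `δ = (a, b; c, d) ∈ HM N p`, `g = gcd (a, c)`,
  which divides `p`, so `g = 1` or `g = p`, and `N ∣ c / g` as `g` is prime to `N`.  Choose `u`, `v`
  with `u (a / g) + v (c / g) = 1`; then `γ = (u, v; -c / g, a / g) ∈ Γ₀(N)` and
  `γ δ = (g, *; 0, p / g)`.  Multiplying from the left by a power of `T` we get `(1, b; 0, p)` with
  `0 ≤ b < p` (if `g = 1`) or `(p, 0; 0, 1)` (if `g = p`).  Uniqueness: if `γ r = r'` for
  representatives `r`, `r'` compare the entries: `γ` has lower left entry `0`, so it is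
  `± (1, t; 0, 1)`, the sign is `+`, and then `t = 0`, `r = r'`.
-/

set_option autoImplicit false

noncomputable section

namespace Pool.Agent.Maass74

open UpperHalfPlane MeasureTheory CongruenceSubgroup
open scoped MatrixGroups

/-- The integral matrices of determinant `p` with lower left entry divisible by `N`. -/
def HM (N p : ℕ) : Type := {δ : Matrix (Fin 2) (Fin 2) ℤ // δ.det = p ∧ (N : ℤ) ∣ δ 1 0}

instance (N p : ℕ) : Countable (HM N p) := by
  have : Countable (Matrix (Fin 2) (Fin 2) ℤ) := inferInstanceAs (Countable (Fin 2 → Fin 2 → ℤ))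
  exact Subtype.countable

/-- The corresponding element of `GL (Fin 2) ℝ`, for `p ≠ 0`. -/
def HM.toGL {N p : ℕ} [NeZero p] (δ : HM N p) : GL (Fin 2) ℝ :=
  Matrix.GeneralLinearGroup.mkOfDetNeZero (δ.1.map (Int.cast : ℤ → ℝ)) (by
    have h : (δ.1.map (Int.cast : ℤ → ℝ)).det = ((δ.1.det : ℤ) : ℝ) :=
      (Int.cast_det δ.1).symm
    rw [h, δ.2.1]
    exact_mod_cast NeZero.ne p)

/-- The action on the upper half plane. -/
def HM.act {N p : ℕ} [NeZero p] (δ : HM N p) (z : ℍ) : ℍ := δ.toGL • z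

/-- Left multiplication by `Γ₀(N)`. -/
def HM.gm {N p : ℕ} (γ : Gamma0 N) (δ : HM N p) : HM N p :=
  ⟨((γ : SL(2, ℤ)) : Matrix (Fin 2) (Fin 2) ℤ) * δ.1, by
    refine ⟨by rw [Matrix.det_mul, δ.2.1, Matrix.SpecialLinearGroup.det_coe, one_mul], ?_⟩
    have h1 : (N : ℤ) ∣ (γ : SL(2, ℤ)) 1 0 :=
      (ZMod.intCast_zmod_eq_zero_iff_dvd _ _).1 (Gamma0_mem.1 γ.2)
    rw [Matrix.mul_apply, Fin.sum_univ_two]
    exact dvd_add (h1.mul_right _) (δ.2.2.mul_left _)⟩

/-- The adjugate matrix. -/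
def HM.adj {N p : ℕ} (δ : HM N p) : HM N p :=
  ⟨δ.1.adjugate, by
    refine ⟨?_, ?_⟩
    · rw [Matrix.det_adjugate, δ.2.1]
      simp
    · rw [Matrix.adjugate_fin_two]
      simpa using δ.2.2⟩

theorem HM.adj_adj {N p : ℕ} (δ : HM N p) : δ.adj.adj = δ := by
  apply Subtype.ext
  change (δ.1.adjugate).adjugate = δ.1
  rw [Matrix.adjugate_adjugate']
  simp

theorem HM.toGL_coe {N p : ℕ} [NeZero p] (δ : HM N p) :
    (δ.toGL : Matrix (Fin 2) (Fin 2) ℝ) = δ.1.map (Int.cast : ℤ → ℝ) := rfl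

theorem HM.toGL_det_pos {N p : ℕ} [NeZero p] (δ : HM N p) : 0 < δ.toGL.det.val := by
  rw [Matrix.GeneralLinearGroup.val_det_apply, HM.toGL_coe]
  have h : (δ.1.map (Int.cast : ℤ → ℝ)).det = ((δ.1.det : ℤ) : ℝ) := (Int.cast_det δ.1).symm
  rw [h, δ.2.1]
  have : 0 < p := Nat.pos_of_ne_zero (NeZero.ne p)
  exact_mod_cast this

theorem HM.act_gm {N p : ℕ} [NeZero p] (γ : Gamma0 N) (δ : HM N p) (z : ℍ) :
    (HM.gm γ δ).act z = (γ : SL(2, ℤ)) • δ.act z := by
  have h : (HM.gm γ δ).toGL = (((γ : SL(2, ℤ)) : SL(2, ℝ)) : GL (Fin 2) ℝ) * δ.toGL := by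
    apply Units.ext
    rw [Units.val_mul, HM.toGL_coe, HM.toGL_coe]
    change (((γ : SL(2, ℤ)) : Matrix (Fin 2) (Fin 2) ℤ) * δ.1).map (Int.cast : ℤ → ℝ) = _
    have := Matrix.map_mul (L := ((γ : SL(2, ℤ)) : Matrix (Fin 2) (Fin 2) ℤ)) (M := δ.1) (f := Int.castRingHom ℝ)
    exact this
  rw [HM.act, h, mul_smul]
  rfl

theorem HM.act_adj {N p : ℕ} [NeZero p] (δ : HM N p) (z : ℍ) : δ.adj.act (δ.act z) = z := by
  have hp : (p : ℝ) ≠ 0 := by exact_mod_cast NeZero.ne p
  have h : δ.adj.toGL * δ.toGL = Matrix.GeneralLinearGroup.scalar (Fin 2) (Units.mk0 (p : ℝ) hp) := by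
    apply Units.ext
    rw [Units.val_mul, HM.toGL_coe, HM.toGL_coe]
    change (δ.1.adjugate).map (Int.cast : ℤ → ℝ) * δ.1.map (Int.cast : ℤ → ℝ) = _
    have h1 := Matrix.map_mul (L := δ.1.adjugate) (M := δ.1) (f := Int.castRingHom ℝ)
    rw [Matrix.adjugate_mul, δ.2.1] at h1
    refine Eq.trans h1.symm ?_
    ext i j
    fin_cases i <;> fin_cases j <;> simp [Matrix.map_apply, Matrix.natCast_apply]
  rw [HM.act, HM.act, ← mul_smul, h, UpperHalfPlane.glScalar_smul]

theorem HM.measurePreserving_act {N p : ℕ} [NeZero p] (δ : HM N p) :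
    MeasurePreserving δ.act (volume : Measure ℍ) volume :=
  measurePreserving_smul δ.toGL (volume : Measure ℍ)

/-- The representatives: `none` gives `(p, 0; 0, 1)` and `some b` gives `(1, b; 0, p)`. -/
def HM.rep (N p : ℕ) : Option (Fin p) → HM N p
  | none => ⟨!![(p : ℤ), 0; 0, 1], by simp⟩
  | some b => ⟨!![1, ((b : ℕ) : ℤ); 0, (p : ℤ)], by simp⟩

theorem HM.act_rep_none {N p : ℕ} [NeZero p] (z : ℍ) :
    (HM.rep N p none).act z = ofComplex (p * z) := by
  have hp : (0 : ℝ) < p := by exact_mod_cast Nat.pos_of_ne_zero (NeZero.ne p)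
  have him : 0 < ((p : ℂ) * z).im := by
    have : ((p : ℂ) * z).im = p * z.im := by simp
    rw [this]
    exact mul_pos hp z.im_pos
  apply UpperHalfPlane.ext
  rw [ofComplex_apply_of_im_pos him]
  rw [HM.act, coe_smul_of_det_pos (HM.toGL_det_pos _)]
  simp [num, denom, HM.toGL_coe, HM.rep]

theorem HM.act_rep_some {N p : ℕ} [NeZero p] (b : Fin p) (z : ℍ) :
    (HM.rep N p (some b)).act z = ofComplex ((z + ((b : ℕ) : ℂ)) / p) := by
  have hp : (0 : ℝ) < p := by exact_mod_cast Nat.pos_of_ne_zero (NeZero.ne p)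
  have him : 0 < (((z : ℂ) + ((b : ℕ) : ℂ)) / p).im := by
    have : (((z : ℂ) + ((b : ℕ) : ℂ)) / p).im = z.im / p := by
      have h2 : (p : ℂ) = ((p : ℝ) : ℂ) := by simp
      rw [h2, Complex.div_ofReal_im]
      simp
    rw [this]
    exact div_pos z.im_pos hp
  apply UpperHalfPlane.ext
  rw [ofComplex_apply_of_im_pos him]
  rw [HM.act, coe_smul_of_det_pos (HM.toGL_det_pos _)]
  simp [num, denom, HM.toGL_coe, HM.rep]

end Pool.Agent.Maass74
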