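import Pool.Agent.W_7742m_h74.Defs

/-!
# The ordinary differential equation `w'' = (m - 1 / (4 y ^ 2)) w` on `y > 0`, part A

* `sol_eq_zero`: uniqueness for linear equations: if `w (y₀) = w' (y₀) = 0` then `w = 0` (for
  `y` in a compact interval `[a, b]` containing `y₀` the coefficient is bounded, so
  `E = ‖w‖ ^ 2 + ‖D‖ ^ 2` satisfies `|E'| ≤ (1 + M) E`, Gronwall in both directions; or
  `ODE_solution_unique_of_mem_Icc` and its relatives for the system `(w, D)`).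
* `sol_small`: if `w` vanishes on `(0, 1)` then so does `D` (derivative of a locally constant
  function), so `w = 0` by `sol_eq_zero` at `y₀ = 1 / 2`.
* `sol_scale`: chain rule.
-/

set_option autoImplicit false

noncomputable section

open Filter Topology

namespace Pool.Agent.Maass74

theorem sol_eq_zero {m : ℝ} {w D : ℝ → ℂ} (h : IsSol m w D) {y₀ : ℝ} (h0 : 0 < y₀)
    (h1 : w y₀ = 0) (h2 : D y₀ = 0) : ∀ y : ℝ, 0 < y → w y = 0 := by
  intro y hy
  obtain ⟨a, ha⟩ : ∃ a : ℝ, a = min y₀ y / 2 := ⟨_, rfl⟩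
  have hmin : 0 < min y₀ y := lt_min h0 hy
  have hm1 := min_le_left y₀ y
  have hm2 := min_le_right y₀ y
  have hm3 := le_max_left y₀ y
  have hm4 := le_max_right y₀ y
  have ha0 : 0 < a := by rw [ha]; linarith
  have ha1 : a < y₀ := by rw [ha]; linarith
  have ha2 : a < y := by rw [ha]; linarith
  obtain ⟨b, hb⟩ : ∃ b : ℝ, b = max y₀ y + 1 := ⟨_, rfl⟩
  have hb1 : y₀ < b := by rw [hb]; linarith
  have hb2 : y < b := by rw [hb]; linarith
  obtain ⟨K, hK⟩ : ∃ K : NNReal, (K : ℝ) = 1 + |m| + 1 / (4 * a ^ 2) :=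
    ⟨⟨1 + |m| + 1 / (4 * a ^ 2), by positivity⟩, rfl⟩
  have hc : ∀ t ∈ Set.Ioo a b, ‖((m - 1 / (4 * t ^ 2) : ℝ) : ℂ)‖ ≤ K := by
    intro t ht
    have ht0 : 0 < t := ha0.trans ht.1
    have e1 : 1 / (4 * t ^ 2) ≤ 1 / (4 * a ^ 2) := by
      refine one_div_le_one_div_of_le (by positivity) ?_
      have := ht.1
      nlinarith
    have e2 : 0 < 1 / (4 * t ^ 2) := by positivity
    rw [Complex.norm_real, Real.norm_eq_abs, hK]
    rw [abs_le]
    have e3 := neg_abs_le m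
    have e4 := le_abs_self m
    constructor <;> linarith
  have hK1 : 1 ≤ (K : ℝ) := by
    rw [hK]
    have e1 : 0 ≤ |m| := abs_nonneg m
    have e2 : 0 < 1 / (4 * a ^ 2) := by positivity
    linarith
  have key := ODE_solution_unique_of_mem_Ioo (E := ℂ × ℂ)
    (v := fun t p => (p.2, ((m - 1 / (4 * t ^ 2) : ℝ) : ℂ) * p.1)) (s := fun _ => Set.univ) (K := K)
    (f := fun t => (w t, D t)) (g := fun _ => ((0 : ℂ), (0 : ℂ))) (a := a) (b := b) (t₀ := y₀)
    (fun t ht => ?_) ⟨ha1, hb1⟩ (fun t ht => ⟨?_, Set.mem_univ _⟩) (fun t ht => ⟨?_, Set.mem_univ _⟩)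
    (by simp [h1, h2])
  · exact congrArg Prod.fst (key ⟨ha2, hb2⟩)
  · refine (LipschitzWith.of_dist_le_mul fun p q => ?_).lipschitzOnWith
    rw [Prod.dist_eq, Prod.dist_eq]
    have e1 : dist p.1 q.1 ≤ max (dist p.1 q.1) (dist p.2 q.2) := le_max_left _ _
    have e2 : dist p.2 q.2 ≤ max (dist p.1 q.1) (dist p.2 q.2) := le_max_right _ _
    have e0 : 0 ≤ max (dist p.1 q.1) (dist p.2 q.2) := dist_nonneg.trans e1
    refine max_le ?_ ?_
    · show dist p.2 q.2 ≤ _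
      nlinarith
    · show dist (((m - 1 / (4 * t ^ 2) : ℝ) : ℂ) * p.1) (((m - 1 / (4 * t ^ 2) : ℝ) : ℂ) * q.1) ≤ _
      rw [dist_eq_norm, ← mul_sub, norm_mul, ← dist_eq_norm]
      exact mul_le_mul (hc t ht) e1 dist_nonneg (by linarith)
  · have ht0 : 0 < t := ha0.trans ht.1
    exact (h t ht0).1.prodMk (h t ht0).2
  · show HasDerivAt (fun _ : ℝ => ((0 : ℂ), (0 : ℂ))) ((0 : ℂ), ((m - 1 / (4 * t ^ 2) : ℝ) : ℂ) * 0) t
    rw [mul_zero]
    exact hasDerivAt_const t ((0 : ℂ), (0 : ℂ))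

theorem sol_small {m : ℝ} {w D : ℝ → ℂ} (h : IsSol m w D) (h0 : ∃ y : ℝ, 0 < y ∧ w y ≠ 0) :
    ∃ y : ℝ, 0 < y ∧ y < 1 ∧ w y ≠ 0 := by
  by_contra hcon
  push Not at hcon
  obtain ⟨y, hy, hwy⟩ := h0
  have h1 : w (1 / 2) = 0 := hcon (1 / 2) (by norm_num) (by norm_num)
  have h2 : D (1 / 2) = 0 := by
    have e1 := (h (1 / 2) (by norm_num)).1
    have e2 : w =ᶠ[𝓝 (1 / 2 : ℝ)] fun _ => (0 : ℂ) := by
      filter_upwards [Ioo_mem_nhds (show (0 : ℝ) < 1 / 2 by norm_num) (show (1 / 2 : ℝ) < 1 by norm_num)]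
        with t ht
      exact hcon t ht.1 ht.2
    have e3 : HasDerivAt w 0 (1 / 2) := (hasDerivAt_const (1 / 2 : ℝ) (0 : ℂ)).congr_of_eventuallyEq e2
    exact e1.unique e3
  exact hwy (sol_eq_zero h (by norm_num) h1 h2 y hy)

theorem sol_scale {m r : ℝ} (hr : 0 < r) {w D : ℝ → ℂ} (h : IsSol (m * r ^ 2) w D) :
    IsSol m (fun y => w (y / r)) (fun y => D (y / r) / r) := by
  intro y hy
  have hyr : 0 < y / r := div_pos hy hr
  have e1 : HasDerivAt (fun t : ℝ => t / r) (1 / r) y := (hasDerivAt_id y).div_const r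
  obtain ⟨h1, h2⟩ := h (y / r) hyr
  have hrc : (r : ℂ) ≠ 0 := by exact_mod_cast hr.ne'
  have hyc : (y : ℂ) ≠ 0 := by exact_mod_cast hy.ne'
  constructor
  · have e2 := HasDerivAt.scomp y h1 e1
    have e3 : (1 / r) • D (y / r) = D (y / r) / r := by
      rw [Complex.real_smul]
      push_cast
      field_simp
    rw [e3] at e2
    exact e2
  · have e2 := (HasDerivAt.scomp y h2 e1).div_const (r : ℂ)
    have e3 : (1 / r) • (((m * r ^ 2 - 1 / (4 * (y / r) ^ 2) : ℝ) : ℂ) * w (y / r)) / (r : ℂ) =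
        ((m - 1 / (4 * y ^ 2) : ℝ) : ℂ) * w (y / r) := by
      rw [Complex.real_smul]
      push_cast
      field_simp
    rw [e3] at e2
    exact e2

end Pool.Agent.Maass74
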