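import Pool.Agent.W_7742x_h74.QDef

/-! # The complex conjugate of a cusp form -/

set_option autoImplicit false

noncomputable section

namespace Pool.Agent.GLForm74

open MeasureTheory ComplexConjugate

variable {n N : ℕ}

/-- The conjugate character. -/
def conjChar (χ : DirichletCharacter ℂ N) : DirichletCharacter ℂ N :=
  χ.ringHomComp (starRingEnd ℂ)

theorem conjChar_apply (χ : DirichletCharacter ℂ N) (a : ZMod N) : conjChar χ a = conj (χ a) :=
  rfl

theorem IsCuspForm.conj {χ : DirichletCharacter ℂ N} {f : Matrix (Fin n) (Fin n) ℝ → ℂ}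
    (h : IsCuspForm N χ f) : IsCuspForm N (conjChar χ) (fun g => starRingEnd ℂ (f g)) where
  bounded := by
    obtain ⟨C, hC⟩ := h.bounded
    exact ⟨C, fun g hg => by rw [Complex.norm_conj]; exact hC g hg⟩
  lipschitz := by
    obtain ⟨C, hC⟩ := h.lipschitz
    refine ⟨C, fun g x hg hx => ?_⟩
    rw [← map_sub, Complex.norm_conj]
    exact hC g x hg hx
  scale := fun t g ht hg => by rw [h.scale t g ht hg]
  automorphic := fun γ hγ hγ2 i hi g hg => by
    rw [h.automorphic γ hγ hγ2 i hi g hg, map_mul, conjChar_apply]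
  cuspidal := fun k hk hk2 g hg => by
    have h1 := h.cuspidal k hk hk2 g hg
    rw [integral_conj, h1, map_zero]

theorem hecke_conj (χ : DirichletCharacter ℂ N) (p k : ℕ) (f : Matrix (Fin n) (Fin n) ℝ → ℂ)
    (g : Matrix (Fin n) (Fin n) ℝ) :
    hecke (conjChar χ) p k (fun g => starRingEnd ℂ (f g)) g = starRingEnd ℂ (hecke χ p k f g) := by
  unfold hecke
  rw [map_sum]
  refine Finset.sum_congr rfl fun S _ => ?_
  rw [map_mul, map_sum]
  congr 1
  split_ifs with h
  · rw [conjChar_apply]
  · rw [map_one]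

theorem IsCuspidalSystem.conj {P : ℕ → Polynomial ℂ} (h : IsCuspidalSystem N P n) :
    IsCuspidalSystem N (fun p => (P p).map (starRingEnd ℂ)) n := by
  obtain ⟨χ, f, hf, ⟨g₀, hg₀, hne⟩, he⟩ := h
  refine ⟨conjChar χ, fun g => starRingEnd ℂ (f g), hf.conj, ⟨g₀, hg₀, ?_⟩,
    fun p hp hpN k hk1 hk2 g hg => ?_⟩
  · intro h0
    apply hne
    have := congrArg (starRingEnd ℂ) h0
    simpa using this
  · rw [hecke_conj, he p hp hpN k hk1 hk2 g hg, Polynomial.coeff_map]
    simp only [map_mul, map_pow, map_neg, map_one, Complex.conj_ofReal]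

end Pool.Agent.GLForm74
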