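import Pool.Agent.W_7742m_h74.VMain
import Pool.Agent.W_7742m_h74.VConj

/-! Galois representations attached to cusp forms on `GL_n` with integral Hecke polynomials, from
representations modulo one ideal (or finitely many ideals) of explicit norm. -/

namespace Pool.Agent.Results.MP_7742d9_nt.OneIdeal

open NumberField Polynomial Pool.Agent.GLForm74 Pool.Agent.Art74

/-- Let `K` be a number field of degree `d`, `n ≥ 2`, `N ≥ 1` and `P p`, `p` prime, monic polynomials of
degree `n` over `𝓞 K` (if `p` does not divide `N`), such that for every embedding `σ` of `K`, up to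
complex conjugation, the polynomials `σ (P p)` are the Hecke polynomials of a cusp form on `GL_n` over
`ℚ` of level `N` (if `K` is `ℚ` or an imaginary quadratic field then it suffices to assume this for one
embedding).

(1) Let `V` be a set of primes which do not divide `N` (for instance the empty set, or the set of all of
them).  The following are equivalent.

(a) There are a number field `E ⊇ K` and an absolutely irreducible representation `R : G_ℚ → GL_n(E)` with
open kernel such that `tr R(F p)` is the trace of `P p` for all primes `p` outside a set of density zero,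
and such that `R` is unramified at `p` and `char R(F p) = P p` for all `p ∈ V`.

(b) For every ideal `𝔞 ≠ 0` of `𝓞 K` there are a commutative ring `A ⊇ 𝓞 K / 𝔞` and a representation
`r : G_ℚ → GL_n(A)` with open kernel with the same properties in `A`.

(c) There are finitely many ideals `𝔞_1, ..., 𝔞_m`, such that the norm of their intersection is at least
`(2 n) ^ (3 (n ^ 2 + 1) d)`, with representations as in (b) for the empty set instead of `V`, and for
every `p ∈ V` there are finitely many ideals `𝔞_1, ..., 𝔞_m`, such that the norm of their intersection is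
at least `((2 n) ^ (3 (n ^ 2 + 1)) p ^ (n / 2)) ^ d`, with representations as in (b) for the set `{p}`
instead of `V`.

(2) Let `A` be a commutative ring and `ι : 𝓞 K → A` a ring homomorphism whose kernel has norm at least
`(2 n) ^ (3 (n ^ 2 + 1) d)`, and `r` a representation as in (b) over `A`, for the empty set.  Then there
is `R` as in (a), for the empty set, with kernel containing the kernel of `r`, such that
`char R(g) = Q` for all `g` and all monic polynomials `Q` of degree `n` over `𝓞 K` with `char r(g) = ι Q`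
such that the roots of all conjugates of `Q` have absolute value at most `y`, where `y ≥ 1` and
`(n ^ (2 n ^ 2 + 1) (y ^ n + 1)) ^ d < norm of ker ι`; and if `char r(F p) = ι (P p)` for all `p` not
dividing `N` outside a finite set `S` and the Dedekind zeta functions of the subfields of the field which
belongs to the kernel of `r` have no zeros in the interval `(0, 1)` then `char R(F p) = P p` for all `p`
not dividing `N`, `p ∉ S`.

(3) With `A`, `ι` as in (2), there are no representations `r₁`, `r₂` of `G_ℚ` over `A` of dimensions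
`a, b ≥ 1`, `a + b = n`, with open kernels such that `tr r₁(F p) + tr r₂(F p)` is the image of the trace
of `P p` for all `p` outside a set of density zero. -/
theorem result (K : Type) [Field K] [NumberField K] (n N : ℕ) (hn : 2 ≤ n) (hN : 0 < N)
    (P : ℕ → (𝓞 K)[X]) (hP : ∀ p : ℕ, p.Prime → ¬ p ∣ N → (P p).Monic ∧ (P p).natDegree = n)
    (hc : ∀ σ : K →+* ℂ,
      IsCuspidalSystem N (fun p => ((P p).map (algebraMap (𝓞 K) K)).map σ) n ∨
      IsCuspidalSystem N (fun p => ((P p).map (algebraMap (𝓞 K) K)).map
        ((starRingEnd ℂ).comp σ)) n)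
    (F : Nat.Primes → GQ) (hF : IsFrobeniusChoice F) :
    (∀ V : Set Nat.Primes, (∀ p ∈ V, ¬ (p : ℕ) ∣ N) →
      [HasMotive n F P V,
        ∀ 𝔞 : Ideal (𝓞 K), 𝔞 ≠ ⊥ → HasMod n F P V 𝔞,
        (∃ (m : ℕ) (𝔞 : Fin m → Ideal (𝓞 K)),
          (2 * n) ^ (3 * (n ^ 2 + 1) * Module.finrank ℚ K) ≤ Ideal.absNorm (⨅ l, 𝔞 l) ∧
          ∀ l, HasMod n F P ∅ (𝔞 l)) ∧
        ∀ p ∈ V, ∃ (m : ℕ) (𝔞 : Fin m → Ideal (𝓞 K)),
          ((2 * n) ^ (6 * (n ^ 2 + 1)) * (p : ℕ) ^ n) ^ Module.finrank ℚ K ≤
            Ideal.absNorm (⨅ l, 𝔞 l) ^ 2 ∧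
          ∀ l, HasMod n F P {p} (𝔞 l)].TFAE) ∧
    ∀ (A : Type) [CommRing A] (ι : 𝓞 K →+* A),
      (2 * n) ^ (3 * (n ^ 2 + 1) * Module.finrank ℚ K) ≤ Ideal.absNorm (RingHom.ker ι) →
      (∀ r : GQ →* GL (Fin n) A, Attached F P ∅ ι r → Lifts N F P ι r) ∧
      ∀ a b : ℕ, 0 < a → 0 < b → a + b = n → ∀ (r₁ : GQ →* GL (Fin a) A)
        (r₂ : GQ →* GL (Fin b) A), IsOpen (r₁.ker : Set GQ) → IsOpen (r₂.ker : Set GQ) →
          ¬ DensityZero {p : Nat.Primes |
            (r₁ (F p)).val.trace + (r₂ (F p)).val.trace ≠ ι (-(P p).coeff (n - 1))} := by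
  have hc' : ∀ σ : K →+* ℂ, IsCuspidalSystem N
      (fun p => ((P p).map (algebraMap (𝓞 K) K)).map σ) n := by
    intro σ
    rcases hc σ with h | h
    · exact h
    · have h1 := h.conj
      have h2 : (fun p => (((P p).map (algebraMap (𝓞 K) K)).map
          ((starRingEnd ℂ).comp σ)).map (starRingEnd ℂ)) =
          fun p => ((P p).map (algebraMap (𝓞 K) K)).map σ := by
        funext p
        have h3 : (starRingEnd ℂ).comp ((starRingEnd ℂ).comp σ) = σ :=
          RingHom.ext fun x => Complex.conj_conj _
        rw [Polynomial.map_map ((starRingEnd ℂ).comp σ) (starRingEnd ℂ), h3]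
      rwa [h2] at h1
  have hY : (2 * n) ^ (3 * (n ^ 2 + 1) * Module.finrank ℚ K) =
      Pool.Agent.OneJ74.YY n ^ Module.finrank ℚ K := by
    rw [Pool.Agent.OneJ74.YY, ← pow_mul]
  have hY2 : (2 * n) ^ (6 * (n ^ 2 + 1)) = Pool.Agent.OneJ74.YY n ^ 2 := by
    rw [Pool.Agent.OneJ74.YY, ← pow_mul]
    congr 1
    ring
  rw [hY, hY2]
  exact ⟨fun V hV => main_tfae hn hN hP hc' hF hV, fun A _ ι hι =>
    ⟨fun r hr => main_lifts hn hN hP hc' hF hι hr, fun a b ha hb hab r₁ r₂ h₁ h₂ =>
      main_sum hn hN hP hc' hF hι ha hb hab r₁ r₂ h₁ h₂⟩⟩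

end Pool.Agent.Results.MP_7742d9_nt.OneIdeal
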