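import Pool.Agent.W_7742m_h74.Defs
import Pool.Agent.W_7742c_h74.Thompson

/-!
# The trace argument
-/

set_option autoImplicit false

noncomputable section

namespace Pool.Agent.Maass74

open Filter Topology ComplexConjugate

open H74E H74E.SatakeSystem in
/-- The sum over the primes is at least `log (1 / (s - 1))` up to a constant. -/
theorem neg_log_le_primes : ∃ C : ℝ, ∀ᶠ s in 𝓝[>] (1 : ℝ),
    -Real.log (s - 1) ≤ ∑' p : Nat.Primes, ((p : ℕ) : ℝ) ^ (-s) + C := by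
  have hlow : ∀ᶠ s in 𝓝[>] (1 : ℝ), Real.log (z1 1 / 2) - Real.log (s - 1) ≤ ∑' x, pk s x := by
    have hc : Tendsto z1 (𝓝[>] 1) (𝓝 (z1 1)) :=
      (z1_analytic one_pos).continuousAt.tendsto.mono_left nhdsWithin_le_nhds
    have hz := z1_pos one_pos
    have hlt : ∀ᶠ s in 𝓝[>] (1 : ℝ), z1 1 / 2 < z1 s := hc.eventually_const_lt (by linarith)
    filter_upwards [hlt, self_mem_nhdsWithin] with s hs1 hs2
    have hs2' : (1 : ℝ) < s := hs2
    have hpos : 0 < s - 1 := by linarith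
    have e2 : Real.exp (∑' x, pk s x) = z1 s / (s - 1) := by
      rw [z1_pk hs2']
      field_simp
    rw [← Real.log_div (by positivity) hpos.ne', ← Real.log_exp (∑' x, pk s x), e2]
    exact Real.log_le_log (by positivity) (div_le_div_of_nonneg_right hs1.le hpos.le)
  -- the higher prime powers
  set R : ℝ := ∑' x : Nat.Primes × ℕ, ((x.1 : ℕ) : ℝ) ^ (-(2 : ℝ)) * (1 / 2) ^ x.2 with hR
  have hRs : Summable fun x : Nat.Primes × ℕ => ((x.1 : ℕ) : ℝ) ^ (-(2 : ℝ)) * (1 / 2) ^ x.2 :=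
    Summable.mul_of_nonneg (f := fun p : Nat.Primes => ((p : ℕ) : ℝ) ^ (-(2 : ℝ)))
      (g := fun k : ℕ => (1 / 2 : ℝ) ^ k) (summable_primes_rpow (by norm_num))
      (summable_geometric_of_lt_one (by norm_num) (by norm_num))
      (fun p => by positivity) (fun k => by positivity)
  have hzeta : ∀ s : ℝ, 1 < s → ∑' x, pk s x ≤ ∑' p : Nat.Primes, ((p : ℕ) : ℝ) ^ (-s) + R := by
    intro s hs
    have hsum := summable_pk hs
    have hfib : ∀ p : Nat.Primes, Summable fun k => pk s (p, k) := fun p =>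
      (hasSum_pk (by linarith) p).summable
    have hfib' : ∀ p : Nat.Primes, ∑' k, pk s (p, k) = ((p : ℕ) : ℝ) ^ (-s) +
        ∑' k, pk s (p, k + 1) := by
      intro p
      rw [(hfib p).tsum_eq_zero_add]
      congr 1
      rw [pk_eq]
      simp
    have hle : ∀ x : Nat.Primes × ℕ, pk s (x.1, x.2 + 1) ≤
        ((x.1 : ℕ) : ℝ) ^ (-(2 : ℝ)) * (1 / 2) ^ x.2 := by
      intro x
      rw [pk_eq]
      have hp : (0 : ℝ) < ((x.1 : ℕ) : ℝ) := by exact_mod_cast x.1.2.pos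
      have h1p : (1 : ℝ) ≤ ((x.1 : ℕ) : ℝ) := by exact_mod_cast x.1.2.one_lt.le
      have h2p : (2 : ℝ) ≤ ((x.1 : ℕ) : ℝ) := by exact_mod_cast x.1.2.two_le
      have h1 : ((x.1 : ℕ) : ℝ) ^ (-s) ≤ ((x.1 : ℕ) : ℝ) ^ (-(1 : ℝ)) :=
        Real.rpow_le_rpow_of_exponent_le h1p (by linarith)
      have h2 : (((x.1 : ℕ) : ℝ) ^ (-s)) ^ (x.2 + 1 + 1) ≤
          (((x.1 : ℕ) : ℝ) ^ (-(1 : ℝ))) ^ (x.2 + 1 + 1) :=
        pow_le_pow_left₀ (by positivity) h1 _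
      have h3 : (((x.1 : ℕ) : ℝ) ^ (-(1 : ℝ))) ^ (x.2 + 1 + 1) =
          ((x.1 : ℕ) : ℝ) ^ (-(2 : ℝ)) * (((x.1 : ℕ) : ℝ) ^ (-(1 : ℝ))) ^ x.2 := by
        rw [show x.2 + 1 + 1 = 2 + x.2 by ring, pow_add, ← Real.rpow_natCast (_ ^ _) 2,
          ← Real.rpow_mul hp.le]
        norm_num
      have h4 : ((x.1 : ℕ) : ℝ) ^ (-(1 : ℝ)) ≤ 1 / 2 := by
        rw [Real.rpow_neg_one, one_div]
        exact inv_anti₀ (by norm_num) h2p
      have h5 : (((x.1 : ℕ) : ℝ) ^ (-(1 : ℝ))) ^ x.2 ≤ (1 / 2) ^ x.2 :=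
        pow_le_pow_left₀ (by positivity) h4 _
      have h6 : 0 ≤ (((x.1 : ℕ) : ℝ) ^ (-s)) ^ (x.2 + 1 + 1) := by positivity
      have h7 : (1 : ℝ) ≤ ((x.2 + 1 : ℕ) : ℝ) + 1 := by
        have : (0 : ℝ) ≤ ((x.2 + 1 : ℕ) : ℝ) := Nat.cast_nonneg _
        linarith
      calc (((x.1 : ℕ) : ℝ) ^ (-s)) ^ (x.2 + 1 + 1) / (((x.2 + 1 : ℕ) : ℝ) + 1)
          ≤ (((x.1 : ℕ) : ℝ) ^ (-s)) ^ (x.2 + 1 + 1) := div_le_self h6 h7
        _ ≤ ((x.1 : ℕ) : ℝ) ^ (-(2 : ℝ)) * (((x.1 : ℕ) : ℝ) ^ (-(1 : ℝ))) ^ x.2 := h2.trans_eq h3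
        _ ≤ _ := mul_le_mul_of_nonneg_left h5 (by positivity)
    have hs2 : Summable fun x : Nat.Primes × ℕ => pk s (x.1, x.2 + 1) :=
      Summable.of_nonneg_of_le (fun x => pk_nonneg _ _) hle hRs
    rw [hsum.tsum_prod]
    simp only [hfib']
    rw [(summable_primes_rpow hs).tsum_add (hs2.prod)]
    have e : ∑' p : Nat.Primes, ∑' k, pk s (p, k + 1) = ∑' x : Nat.Primes × ℕ, pk s (x.1, x.2 + 1) :=
      hs2.tsum_prod.symm
    rw [e]
    have := hs2.tsum_le_tsum hle hRs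
    linarith
  refine ⟨R - Real.log (z1 1 / 2), ?_⟩
  filter_upwards [hlow, self_mem_nhdsWithin] with s h1 h2
  have := hzeta s h2
  linarith

theorem tendsto_neg_log : Tendsto (fun s : ℝ => -Real.log (s - 1)) (𝓝[>] 1) atTop := by
  have h1 : Tendsto (fun s : ℝ => s - 1) (𝓝[>] 1) (𝓝[>] 0) := by
    refine tendsto_nhdsWithin_iff.2 ⟨?_, ?_⟩
    · have : Tendsto (fun s : ℝ => s - 1) (𝓝 1) (𝓝 (1 - 1)) := by
        exact (continuous_id.sub continuous_const).tendsto 1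
      rw [sub_self] at this
      exact this.mono_left nhdsWithin_le_nhds
    · filter_upwards [self_mem_nhdsWithin] with s hs
      have : (1 : ℝ) < s := hs
      exact sub_pos.2 this
  exact tendsto_neg_atBot_atTop.comp (Real.tendsto_log_nhdsGT_zero.comp h1)

/-- The sum of `p ^ (-s)` over the primes with the property `P`. -/
def primeSum (P : ℕ → Prop) (s : ℝ) : ℝ :=
  ∑' p : {p : ℕ // p.Prime ∧ P p}, ((p : ℕ) : ℝ) ^ (-s)

theorem sub_sq_le_log {z : ℝ} (hz : 0 ≤ z) : z - z ^ 2 ≤ Real.log (1 + z) := by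
  have h1 : 0 < 1 + z := by linarith
  have h2 := Real.one_sub_inv_le_log_of_pos h1
  have h3 : z - z ^ 2 ≤ 1 - (1 + z)⁻¹ := by
    rw [le_sub_iff_add_le, ← le_sub_iff_add_le', inv_le_iff_one_le_mul₀ h1]
    nlinarith [pow_nonneg hz 3]
  linarith

/-- The lower bound for the sum of the logarithms. -/
theorem sum_log_lower {ι : Type*} [Fintype ι] (u : ι → ℝ) (hu : ∀ i, 0 ≤ u i) {d : ℝ}
    (hd : (Fintype.card ι : ℝ) = d) (hd1 : 1 ≤ d) (h : 3 / 2 * d ≤ ∑ i, u i) {t : ℝ}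
    (ht : 0 ≤ t) :
    3 / 2 * d * t - d * (3 / 2 * d) ^ 2 * t ^ 2 ≤ ∑ i, Real.log (1 + u i * t) := by
  classical
  set T : ℝ := 3 / 2 * d with hT
  have hT0 : 0 ≤ T := by rw [hT]; linarith
  let v : ι → ℝ := fun i => min (u i) T
  have hv0 : ∀ i, 0 ≤ v i := fun i => le_min (hu i) hT0
  have hvT : ∀ i, v i ≤ T := fun i => min_le_right _ _
  have hsum : T ≤ ∑ i, v i := by
    by_cases hall : ∀ i, u i ≤ T
    · have : ∑ i, v i = ∑ i, u i := Finset.sum_congr rfl fun i _ => min_eq_left (hall i)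
      rw [this]
      exact h
    · push Not at hall
      obtain ⟨i, hi⟩ := hall
      have h1 : v i = T := min_eq_right hi.le
      rw [← h1]
      exact Finset.single_le_sum (fun j _ => hv0 j) (Finset.mem_univ i)
  have hterm : ∀ i, v i * t - T ^ 2 * t ^ 2 ≤ Real.log (1 + u i * t) := by
    intro i
    have h1 : v i * t - (v i * t) ^ 2 ≤ Real.log (1 + v i * t) :=
      sub_sq_le_log (mul_nonneg (hv0 i) ht)
    have h2 : Real.log (1 + v i * t) ≤ Real.log (1 + u i * t) := by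
      refine Real.log_le_log (by nlinarith [mul_nonneg (hv0 i) ht]) ?_
      have : v i * t ≤ u i * t := mul_le_mul_of_nonneg_right (min_le_left _ _) ht
      linarith
    have h3 : (v i * t) ^ 2 ≤ T ^ 2 * t ^ 2 := by
      rw [mul_pow]
      exact mul_le_mul_of_nonneg_right (pow_le_pow_left₀ (hv0 i) (hvT i) 2) (sq_nonneg t)
    linarith
  calc T * t - d * T ^ 2 * t ^ 2 ≤ ∑ i, v i * t - d * T ^ 2 * t ^ 2 := by
        rw [← Finset.sum_mul]
        have := mul_le_mul_of_nonneg_right hsum ht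
        linarith
    _ = ∑ i, (v i * t - T ^ 2 * t ^ 2) := by
        rw [Finset.sum_sub_distrib, Finset.sum_const, Finset.card_univ, nsmul_eq_mul, hd]
        ring
    _ ≤ _ := Finset.sum_le_sum fun i _ => hterm i

open H74E H74E.SatakeSystem in
/-- The pointwise bound. -/
theorem pointwise {K : Type} [Field K] [NumberField K] {N : ℕ} {a b : ℕ → K}
    (ha : ∀ p : ℕ, p.Prime → ¬ p ∣ N → IsIntegral ℤ (a p))
    (hb : ∀ p : ℕ, p.Prime → ¬ p ∣ N → IsIntegral ℤ (b p))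
    (hu : ∀ (σ : K →+* ℂ) (p : ℕ), p.Prime → ¬ p ∣ N → conj (σ (a p)) = σ (b p))
    {p : ℕ} (hp : p.Prime) (hpN : ¬ p ∣ N) {d : ℝ} (hd : (Fintype.card (K →+* ℂ) : ℝ) = d)
    (hd1 : 1 ≤ d) {t : ℝ} (ht : 0 ≤ t) :
    3 / 2 * d * t - (3 / 2 * d * (ind (fun p => ¬ p ∣ N ∧ a p = 0) p * t) +
      1 / 2 * d * (ind (fun p => ¬ p ∣ N ∧ ∃ k : ℕ, 0 < k ∧ a p ^ k = 1) p * t)) -
      d * (3 / 2 * d) ^ 2 * t ^ 2 ≤ ∑ σ : K →+* ℂ, Real.log (1 + ‖σ (a p)‖ ^ 2 * t) := by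
  classical
  have hd0 : 0 ≤ d := by linarith
  have i1 := ind_nonneg (fun p => ¬ p ∣ N ∧ a p = 0) p
  have i2 := ind_nonneg (fun p => ¬ p ∣ N ∧ ∃ k : ℕ, 0 < k ∧ a p ^ k = 1) p
  have hlog0 : 0 ≤ ∑ σ : K →+* ℂ, Real.log (1 + ‖σ (a p)‖ ^ 2 * t) :=
    Finset.sum_nonneg fun σ _ => Real.log_nonneg (by nlinarith [mul_nonneg (sq_nonneg ‖σ (a p)‖) ht])
  have hrest : 0 ≤ d * (3 / 2 * d) ^ 2 * t ^ 2 := by positivity
  by_cases h0 : a p = 0
  · rw [ind_pos (P := fun p => ¬ p ∣ N ∧ a p = 0) ⟨hpN, h0⟩]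
    nlinarith [mul_nonneg hd0 (mul_nonneg i2 ht)]
  rw [ind_neg (P := fun p => ¬ p ∣ N ∧ a p = 0) (fun h => h0 h.2)]
  by_cases huu : ∃ k : ℕ, 0 < k ∧ a p ^ k = 1
  · rw [ind_pos (P := fun p => ¬ p ∣ N ∧ ∃ k : ℕ, 0 < k ∧ a p ^ k = 1) ⟨hpN, huu⟩]
    obtain ⟨k, hk, hpow⟩ := huu
    have hn1 : ∀ σ : K →+* ℂ, ‖σ (a p)‖ = 1 := by
      intro σ
      have h1 : ‖σ (a p)‖ ^ k = 1 := by
        rw [← norm_pow, ← map_pow, hpow, map_one, norm_one]
      exact (pow_eq_one_iff_of_nonneg (norm_nonneg _) hk.ne').1 h1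
    have h2 : ∑ σ : K →+* ℂ, Real.log (1 + ‖σ (a p)‖ ^ 2 * t) = d * Real.log (1 + t) := by
      simp only [hn1, one_pow, one_mul]
      rw [Finset.sum_const, Finset.card_univ, nsmul_eq_mul, hd]
    rw [h2]
    have h3 := mul_le_mul_of_nonneg_left (sub_sq_le_log ht) hd0
    have h4 : d * t ^ 2 ≤ d * (3 / 2 * d) ^ 2 * t ^ 2 := by
      have : 1 ≤ (3 / 2 * d) ^ 2 := by nlinarith
      have h5 : d * t ^ 2 * 1 ≤ d * t ^ 2 * (3 / 2 * d) ^ 2 :=
        mul_le_mul_of_nonneg_left this (by positivity)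
      linarith
    linarith
  rw [ind_neg (P := fun p => ¬ p ∣ N ∧ ∃ k : ℕ, 0 < k ∧ a p ^ k = 1) (fun h => huu h.2)]
  -- the general case: the trace bound
  have hint := ha p hp hpN
  have hunit : ∀ σ : K →+* ℂ, σ (a p * b p) = ((‖σ (a p)‖ ^ 2 : ℝ) : ℂ) := by
    intro σ
    rw [map_mul, ← hu σ p hp hpN, Complex.mul_conj, Complex.normSq_eq_norm_sq]
  have σ0 : K →+* ℂ := Classical.choice inferInstance
  have hy0 : a p * b p ≠ 0 := by
    intro h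
    have := hunit σ0
    rw [h, map_zero] at this
    have h2 : ‖σ0 (a p)‖ ^ 2 = 0 := by exact_mod_cast this.symm
    have h3 : ‖σ0 (a p)‖ = 0 := by simpa using h2
    rw [norm_eq_zero, map_eq_zero] at h3
    exact h0 h3
  have hy1 : a p * b p ≠ 1 := by
    intro h
    have hn1 : ∀ σ : K →+* ℂ, ‖σ (a p)‖ = 1 := by
      intro σ
      have := hunit σ
      rw [h, map_one] at this
      have h2 : ‖σ (a p)‖ ^ 2 = 1 := by exact_mod_cast this.symm
      exact (pow_eq_one_iff_of_nonneg (norm_nonneg _) two_ne_zero).1 h2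
    obtain ⟨k, hk, hpow⟩ := NumberField.Embeddings.pow_eq_one_of_norm_eq_one K ℂ hint hn1
    exact huu ⟨k, hk, hpow⟩
  have hs := siegel (hint.mul (hb p hp hpN)) hy0 hy1 (r := fun σ => ‖σ (a p)‖ ^ 2) hunit
    (fun σ => by positivity)
  rw [hd] at hs
  have := sum_log_lower (fun σ : K →+* ℂ => ‖σ (a p)‖ ^ 2) (fun σ => by positivity) hd hd1
    (by linarith) ht
  linarith

end Pool.Agent.Maass74
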