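import Pool.Agent.W_7742m_h74.USta
import Pool.Agent.W_7742k_h74.FIdn

/-! # Uniqueness

Two representations with open kernels over number fields `E ⊇ K`, `E' ⊇ K` with the traces `t p ∈ K` at the
Frobenius elements of the primes `p` outside sets of density zero.

Choose `s : K → ℂ` and extensions `τ : E → ℂ`, `τ' : E' → ℂ` of it (`τ ∘ i = s = τ' ∘ i'`; `E / K` is
algebraic and `ℂ` algebraically closed, `IsAlgClosed.lift` with the algebra structures `i.toAlgebra`,
`s.toAlgebra`).  The representations `R ^ τ`, `R' ^ τ'` over `ℂ` (`GeneralLinearGroup.map τ`) have open kernels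
(the same kernels, `τ` is injective) and the same traces outside a set of density zero (the union,
`OneP74.density_union'`), so by `DZ74.same_charpoly` (both ways) the same kernels and the same
characteristic polynomials. -/

set_option autoImplicit false

noncomputable section

namespace Pool.Agent.OneM74

open NumberField Pool.Agent.Cheb Pool.Agent.GalSide Pool.Agent.H74V Pool.Agent.OneI74

theorem UUni_ext {K E : Type} [Field K] [NumberField K] [Field E] [NumberField E]
    (i : K →+* E) (s : K →+* ℂ) : ∃ τ : E →+* ℂ, τ.comp i = s := by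
  let _ : Algebra K E := i.toAlgebra
  let _ : Algebra K ℂ := s.toAlgebra
  have h1 : Algebra.IsAlgebraic K E := Algebra.IsAlgebraic.tower_top (K := ℚ) K
  exact ⟨(IsAlgClosed.lift (R := K) (S := E) (M := ℂ)).toRingHom,
    (IsAlgClosed.lift (R := K) (S := E) (M := ℂ)).comp_algebraMap⟩

/-- The representation over `ℂ`. -/
def UUni_map {E : Type} [Field E] {n : ℕ} (R : AbsGal ℚ →* GL (Fin n) E) (τ : E →+* ℂ) :
    AbsGal ℚ →* GL (Fin n) ℂ := (Matrix.GeneralLinearGroup.map τ).comp R

theorem UUni_map_val {E : Type} [Field E] {n : ℕ} (R : AbsGal ℚ →* GL (Fin n) E) (τ : E →+* ℂ)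
    (g : AbsGal ℚ) : (UUni_map R τ g).val = (R g).val.map τ := rfl

theorem UUni_ker {E : Type} [Field E] {n : ℕ} (R : AbsGal ℚ →* GL (Fin n) E) (τ : E →+* ℂ) :
    (UUni_map R τ).ker = R.ker := by
  ext g
  rw [MonoidHom.mem_ker, MonoidHom.mem_ker]
  constructor
  · intro h
    apply Units.ext
    refine Matrix.map_injective τ.injective ?_
    change (R g).val.map τ = (1 : Matrix (Fin n) (Fin n) E).map τ
    rw [← UUni_map_val, h, Matrix.map_one τ (map_zero τ) (map_one τ)]
    rfl
  · intro h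
    apply Units.ext
    rw [UUni_map_val, h, Units.val_one, Matrix.map_one τ (map_zero τ) (map_one τ)]
    rfl

theorem UUni_charpoly {E : Type} [Field E] {n : ℕ} (R : AbsGal ℚ →* GL (Fin n) E) (τ : E →+* ℂ)
    (g : AbsGal ℚ) : (UUni_map R τ g).val.charpoly = (R g).val.charpoly.map τ := by
  rw [UUni_map_val, Matrix.charpoly_map]

theorem UUni_trace {E : Type} [Field E] {n : ℕ} (R : AbsGal ℚ →* GL (Fin n) E) (τ : E →+* ℂ)
    (g : AbsGal ℚ) : (UUni_map R τ g).val.trace = τ (R g).val.trace := by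
  rw [UUni_map_val]
  exact (AddMonoidHom.map_trace (τ : E →+ ℂ) _).symm

theorem same_charpoly_E {K E E' : Type} [Field K] [NumberField K] [Field E] [NumberField E]
    [Field E'] [NumberField E'] {n : ℕ} {Fr : Nat.Primes → AbsGal ℚ}
    (hFr : Pool.Agent.OneP74.IsFrobeniusFamily Fr) (i : K →+* E) (i' : K →+* E')
    {R : AbsGal ℚ →* GL (Fin n) E} {R' : AbsGal ℚ →* GL (Fin n) E'}
    (hR : IsOpen (R.ker : Set (AbsGal ℚ))) (hR' : IsOpen (R'.ker : Set (AbsGal ℚ)))
    (t : Nat.Primes → K)
    (h : HasDensity {p : Nat.Primes | (R (Fr p)).val.trace ≠ i (t p)} 0)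
    (h' : HasDensity {p : Nat.Primes | (R' (Fr p)).val.trace ≠ i' (t p)} 0) :
    R.ker = R'.ker ∧ ∀ (g : AbsGal ℚ) (P : Polynomial K),
      (R g).val.charpoly = P.map i → (R' g).val.charpoly = P.map i' := by
  obtain ⟨τ⟩ : Nonempty (E →+* ℂ) := inferInstance
  obtain ⟨τ', hτ'⟩ := UUni_ext i' (τ.comp i)
  have ho : IsOpen ((UUni_map R τ).ker : Set (AbsGal ℚ)) := by
    rw [UUni_ker]
    exact hR
  have ho' : IsOpen ((UUni_map R' τ').ker : Set (AbsGal ℚ)) := by
    rw [UUni_ker]
    exact hR'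
  have hZ := Pool.Agent.OneP74.density_union' h h' (subset_refl _)
  have htr : ∀ p : Nat.Primes, p ∉ ({p : Nat.Primes | (R (Fr p)).val.trace ≠ i (t p)} ∪
      {p : Nat.Primes | (R' (Fr p)).val.trace ≠ i' (t p)} : Set Nat.Primes) →
      (UUni_map R τ (Fr p)).val.trace = (UUni_map R' τ' (Fr p)).val.trace := by
    intro p hp
    rw [Set.mem_union, not_or] at hp
    have e1 : (R (Fr p)).val.trace = i (t p) := not_not.1 hp.1
    have e2 : (R' (Fr p)).val.trace = i' (t p) := not_not.1 hp.2
    rw [UUni_trace, UUni_trace, e1, e2]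
    exact (RingHom.congr_fun hτ' (t p)).symm
  have k1 := fun g => Pool.Agent.DZ74.same_charpoly hFr ho ho' hZ htr g
  have k2 := fun g => Pool.Agent.DZ74.same_charpoly hFr ho' ho hZ (fun p hp => (htr p hp).symm) g
  refine ⟨?_, fun g P hP => ?_⟩
  · rw [← UUni_ker R τ, ← UUni_ker R' τ']
    ext g
    rw [MonoidHom.mem_ker, MonoidHom.mem_ker]
    exact ⟨(k2 g).2, (k1 g).2⟩
  · refine Polynomial.map_injective τ' τ'.injective ?_
    rw [← UUni_charpoly, ← (k1 g).1, UUni_charpoly, hP, Polynomial.map_map, Polynomial.map_map,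
      hτ']

end Pool.Agent.OneM74
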