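import Pool.Agent.W_7742m_h74.UMod
import Pool.Agent.W_7742m_h74.UUni
import Pool.Agent.W_7742m_h74.MAsm

/-! # Assembly

`hasMod_of_on`: forget the primes of `T`.

`hasModOn_of_hasArtinOn`: `exists_mod_ch`; `r` is unramified where `R` is (`R.ker ≤ r.ker`); traces as in
`hasMod_of_hasArtin` (`MAsm.lean`); characteristic polynomials by `exists_poly`.

`hasModOn_single`: restrict from `T` to `{p}`.

`artinAt`: `final_E` for the ring with `ker ι = 𝔞` gives `R` with `LiftsChE`, apply it to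
`g = Fr p` and the polynomial `P` of `A p`, the roots of all conjugates of `P` have absolute value at most
`ρ = p ^ (1 / 2)` (`DZ74.js_bound`); `P` is monic of degree `n`
(`algebraMap` is injective).  The inequality `(n ^ (2 n ^ 2 + 1) (p ^ (n / 2) + 1)) ^ d < N(𝔞)` follows from
`(YY n ^ 2 p ^ n) ^ d ≤ N(𝔞) ^ 2`, `YY n = (2 n) ^ (3 (n ^ 2 + 1))`:
`n ^ (2 n ^ 2 + 1) (p ^ (n / 2) + 1) ≤ 2 n ^ (2 n ^ 2 + 1) p ^ (n / 2) < YY n p ^ (n / 2)`, and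
`YY n ^ d ≤ N(𝔞)` since `p ^ n ≥ 1`.  `R` is unramified at `p` since `r.ker ≤ R.ker`.

`hasArtinOn_of_local`: `R` from `hasArtin_of_family`; for `p ∈ T` the ideal `⨅ l, 𝔞 l` has `HasModOn {p}`
(`exists_prod_at`), and `artinAt` gives `R'` which is associated with `π` at density one, unramified at
`p`, with `char R'(Fr p) = char A p`; by `same_charpoly_E` the kernels of `R`, `R'` are equal and
`char R(Fr p) = char A p`. -/

set_option autoImplicit false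

noncomputable section

namespace Pool.Agent.OneM74

open NumberField Pool.Agent.Cheb Pool.Agent.GalSide Pool.Agent.H74V Pool.Agent.OneI74
open Pool.Agent.OneJ74 (YY)

variable {K : Type} [Field K] [NumberField K] {n : ℕ}

theorem hasMod_of_on (π : SatakeSystem K n) (Fr : Nat.Primes → AbsGal ℚ) {T : Set Nat.Primes}
    {𝔞 : Ideal (𝓞 K)} (h : HasModOn π Fr T 𝔞) : HasMod π Fr 𝔞 := by
  obtain ⟨A, iA, ι, r, h1, h2, h3, _⟩ := h
  exact ⟨A, iA, ι, r, h1, h2, h3⟩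

theorem hasModOn_mono (π : SatakeSystem K n) (Fr : Nat.Primes → AbsGal ℚ) {T T' : Set Nat.Primes}
    (hT : T' ⊆ T) {𝔞 : Ideal (𝓞 K)} (h : HasModOn π Fr T 𝔞) : HasModOn π Fr T' 𝔞 := by
  obtain ⟨A, iA, ι, r, h1, h2, h3, h4⟩ := h
  exact ⟨A, iA, ι, r, h1, h2, h3, fun p hp => h4 p (hT hp)⟩

theorem hasModOn_of_hasArtinOn (hn : 2 ≤ n) (π : SatakeSystem K n) (Fr : Nat.Primes → AbsGal ℚ)
    {T : Set Nat.Primes} (hT : ∀ p ∈ T, π.Good p) (ha : HasArtinOn π Fr T) {𝔞 : Ideal (𝓞 K)}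
    (h𝔞 : 𝔞 ≠ ⊥) : HasModOn π Fr T 𝔞 := by
  obtain ⟨E, iE, iN, i, R, hRa, hd, hT'⟩ := ha
  obtain ⟨A, iA, ι, r, hk, hker, htr, hch⟩ := exists_mod_ch i R hRa.1 𝔞 h𝔞
  refine ⟨A, iA, ι, r, hk, Subgroup.isOpen_mono hker hRa.1, ?_, ?_⟩
  · obtain ⟨b, hb, -⟩ := Pool.Agent.OneP74.exists_trace (by omega : 0 < n) π
    refine Pool.Agent.OneP74.density_union hd (Pool.Agent.OneP74.finite_level π.level_pos) ?_
    intro p hp
    by_contra hcon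
    rw [Set.mem_union, not_or] at hcon
    obtain ⟨hc1, hc2⟩ := hcon
    have e1 : (b p : K) = (π.A p).trace := hb p hc2
    have e2 : (R (Fr p)).val.trace = i (π.A p).trace := by
      by_contra hne
      exact hc1 hne
    exact hp ⟨b p, e1, htr (Fr p) (b p) (by rw [e2, e1])⟩
  · intro p hp
    obtain ⟨hu, hc⟩ := hT' p hp
    obtain ⟨P, hP⟩ := exists_poly π (hT p hp)
    refine ⟨fun 𝔓 h1 h2 => (hu 𝔓 h1 h2).trans hker, P, hP, hch (Fr p) P ?_⟩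
    rw [hP]
    exact hc

theorem artinAt (hn : 2 ≤ n) (π : SatakeSystem K n) (h : ∀ σ : K →+* ℂ, π.IsCuspidal σ)
    (Fr : Nat.Primes → AbsGal ℚ) (hFr : Pool.Agent.OneP74.IsFrobeniusFamily Fr)
    {p : Nat.Primes} (hp : π.Good p) {𝔞 : Ideal (𝓞 K)}
    (hN : (YY n ^ 2 * (p : ℕ) ^ n) ^ Module.finrank ℚ K ≤ Ideal.absNorm 𝔞 ^ 2)
    (hm : HasModOn π Fr {p} 𝔞) : HasArtinOn π Fr {p} := by
  obtain ⟨A, iA, ι, r, hk, hro, hc, hmp⟩ := hm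
  obtain ⟨hru, P, hP, hrP⟩ := hmp p rfl
  have hd0 : Module.finrank ℚ K ≠ 0 := (Module.finrank_pos (R := ℚ) (M := K)).ne'
  have hp1 : 1 ≤ (p : ℕ) := p.2.one_le
  have hN' : YY n ^ Module.finrank ℚ K ≤ Ideal.absNorm (RingHom.ker ι) := by
    rw [hk]
    have h1 : (YY n ^ Module.finrank ℚ K) ^ 2 ≤ Ideal.absNorm 𝔞 ^ 2 := by
      refine le_trans ?_ hN
      rw [← pow_mul, mul_comm, pow_mul]
      refine Nat.pow_le_pow_left ?_ _
      exact Nat.le_mul_of_pos_right _ (pow_pos hp1 n)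
    exact (Nat.pow_le_pow_iff_left (by norm_num)).1 h1
  obtain ⟨E, iE, iN, i, R, hRa, hker, hd, -, -, -, hch, -⟩ :=
    final_E hn π h Fr hFr ι hN' r hro hc
  refine ⟨E, iE, iN, i, R, hRa, hd, ?_⟩
  intro q hq
  rw [Set.mem_singleton_iff] at hq
  subst hq
  refine ⟨fun 𝔓 h1 h2 => (hru 𝔓 h1 h2).trans hker, ?_⟩
  have hinj : Function.Injective (algebraMap (𝓞 K) K) := FaithfulSMul.algebraMap_injective _ _
  have hmon : P.Monic := Polynomial.monic_of_injective hinj (by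
    rw [hP]
    exact Matrix.charpoly_monic _)
  have hdeg : P.natDegree = n := by
    rw [← Polynomial.natDegree_map_eq_of_injective hinj, hP,
      Matrix.charpoly_natDegree_eq_dim, Fintype.card_fin]
  have hq1 : (1 : ℝ) ≤ ((q : ℕ) : ℝ) := by exact_mod_cast hp1
  have hq0 : (0 : ℝ) < ((q : ℕ) : ℝ) := by linarith
  obtain ⟨ρ, hρ⟩ : ∃ ρ : ℝ, ρ = ((q : ℕ) : ℝ) ^ ((1 : ℝ) / 2) := ⟨_, rfl⟩
  have hρ1 : 1 ≤ ρ := by
    rw [hρ]
    exact Real.one_le_rpow hq1 (by norm_num)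
  have hρ2 : ρ ^ 2 = ((q : ℕ) : ℝ) := by
    rw [hρ, ← Real.rpow_natCast, ← Real.rpow_mul hq0.le]
    norm_num
  have hmain : ((n : ℝ) ^ (2 * n ^ 2 + 1) * (ρ ^ n + 1)) ^ Module.finrank ℚ K <
      (Ideal.absNorm (RingHom.ker ι) : ℝ) := by
    rw [hk]
    have h1 : ((YY n : ℝ) * ρ ^ n) ^ Module.finrank ℚ K ≤ (Ideal.absNorm 𝔞 : ℝ) := by
      have h2 : (((YY n : ℝ) * ρ ^ n) ^ Module.finrank ℚ K) ^ 2 ≤ (Ideal.absNorm 𝔞 : ℝ) ^ 2 := by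
        have h3 : (((YY n ^ 2 * (q : ℕ) ^ n) ^ Module.finrank ℚ K : ℕ) : ℝ) ≤
            ((Ideal.absNorm 𝔞 ^ 2 : ℕ) : ℝ) := Nat.cast_le.2 hN
        push_cast at h3
        refine le_trans (le_of_eq ?_) h3
        rw [← hρ2, ← pow_mul, ← pow_mul, mul_comm _ 2, pow_mul, mul_pow, ← pow_mul, mul_comm n 2]
      exact (pow_le_pow_iff_left₀ (by positivity) (by positivity) (by norm_num)).1 h2
    refine lt_of_lt_of_le (pow_lt_pow_left₀ ?_ (by positivity) hd0) h1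
    have hn1 : (1 : ℝ) ≤ n := by exact_mod_cast (by omega : 1 ≤ n)
    have hρn : 1 ≤ ρ ^ n := one_le_pow₀ hρ1
    have h4 : 2 * (n : ℝ) ^ (2 * n ^ 2 + 1) < (YY n : ℝ) := by
      unfold Pool.Agent.OneJ74.YY
      push_cast
      rw [mul_pow]
      have h5 : (n : ℝ) ^ (2 * n ^ 2 + 1) ≤ (n : ℝ) ^ (3 * (n ^ 2 + 1)) :=
        pow_le_pow_right₀ hn1 (by nlinarith)
      have h6 : (2 : ℝ) < 2 ^ (3 * (n ^ 2 + 1)) := by
        calc (2 : ℝ) < 2 ^ 3 := by norm_num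
          _ ≤ 2 ^ (3 * (n ^ 2 + 1)) := pow_le_pow_right₀ (by norm_num) (by nlinarith)
      have h7 : (0 : ℝ) < (n : ℝ) ^ (2 * n ^ 2 + 1) := by positivity
      calc 2 * (n : ℝ) ^ (2 * n ^ 2 + 1) < 2 ^ (3 * (n ^ 2 + 1)) * (n : ℝ) ^ (2 * n ^ 2 + 1) :=
            mul_lt_mul_of_pos_right h6 h7
        _ ≤ 2 ^ (3 * (n ^ 2 + 1)) * (n : ℝ) ^ (3 * (n ^ 2 + 1)) :=
            mul_le_mul_of_nonneg_left h5 (by positivity)
    have h8 : (0 : ℝ) < (n : ℝ) ^ (2 * n ^ 2 + 1) := by positivity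
    calc (n : ℝ) ^ (2 * n ^ 2 + 1) * (ρ ^ n + 1) ≤ (n : ℝ) ^ (2 * n ^ 2 + 1) * (2 * ρ ^ n) :=
          mul_le_mul_of_nonneg_left (by linarith) h8.le
      _ = (2 * (n : ℝ) ^ (2 * n ^ 2 + 1)) * ρ ^ n := by ring
      _ < (YY n : ℝ) * ρ ^ n := mul_lt_mul_of_pos_right h4 (by linarith)
  have hfin := hch (Fr q) P ρ hmon hdeg hρ1 (by
    intro σ α hα
    rw [hP] at hα
    rw [hρ]
    exact Pool.Agent.DZ74.js_bound hn (h σ) hp hα) hmain hrP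
  rw [hfin, hP]

theorem hasArtinOn_of_local (hn : 2 ≤ n) (π : SatakeSystem K n)
    (h : ∀ σ : K →+* ℂ, π.IsCuspidal σ) (Fr : Nat.Primes → AbsGal ℚ)
    (hFr : Pool.Agent.OneP74.IsFrobeniusFamily Fr) {T : Set Nat.Primes}
    (hT : ∀ p ∈ T, π.Good p) (ha : HasArtin π Fr)
    (hl : ∀ p ∈ T, ∃ (m : ℕ) (𝔞 : Fin m → Ideal (𝓞 K)),
      (YY n ^ 2 * (p : ℕ) ^ n) ^ Module.finrank ℚ K ≤ Ideal.absNorm (⨅ l, 𝔞 l) ^ 2 ∧
      ∀ l, HasModOn π Fr {p} (𝔞 l)) : HasArtinOn π Fr T := by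
  obtain ⟨E, iE, iN, i, R, hRa, hd⟩ := ha
  refine ⟨E, iE, iN, i, R, hRa, hd, ?_⟩
  intro p hp
  obtain ⟨m, 𝔞, hN, hm⟩ := hl p hp
  have h1 := exists_prod_at (by omega : 0 < n) π Fr 𝔞 (hT p hp) hm
  obtain ⟨E', iE', iN', i', R', hRa', hd', h'⟩ := artinAt hn π h Fr hFr (hT p hp) hN h1
  obtain ⟨hu, hc⟩ := h' p rfl
  obtain ⟨hk, hs⟩ := same_charpoly_E hFr i' i hRa'.1 hRa.1 (fun p => (π.A p).trace) hd' hd
  refine ⟨fun 𝔓 h1 h2 => ?_, hs (Fr p) _ hc⟩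
  rw [← hk]
  exact hu 𝔓 h1 h2

end Pool.Agent.OneM74
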