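import Pool.Agent.W_7742m_h74.MSta

/-! # Definitions for the statement: a set `T` of primes at which the representation is associated with
the system in the strong sense -/

set_option autoImplicit false

noncomputable section

namespace Pool.Agent.OneM74

open NumberField Pool.Agent.Cheb Pool.Agent.GalSide Pool.Agent.H74V Pool.Agent.OneI74

variable {K : Type} [Field K] [NumberField K] {n : ℕ}

/-- `r` is unramified at `p`: it is trivial on the inertia groups of all primes `𝔓` above `p`. -/
def Unram {G : Type} [Group G] (r : AbsGal ℚ →* G) (p : Nat.Primes) : Prop :=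
  ∀ 𝔓 : Ideal (Zbar ℚ), 𝔓.IsPrime → ((p : ℕ) : Zbar ℚ) ∈ 𝔓 → inertiaAt 𝔓 ≤ r.ker

/-- `r` is unramified at `p` and the characteristic polynomial of `r (Fr p)` is the image under `ι` of
that of `A p`. -/
def ModAt (π : SatakeSystem K n) (Fr : Nat.Primes → AbsGal ℚ) {A : Type} [CommRing A]
    (ι : 𝓞 K →+* A) (r : AbsGal ℚ →* GL (Fin n) A) (p : Nat.Primes) : Prop :=
  Unram r p ∧ ∃ P : Polynomial (𝓞 K), P.map (algebraMap (𝓞 K) K) = (π.A p).charpoly ∧
    (r (Fr p)).val.charpoly = P.map ι

/-- There is an absolutely irreducible representation `R` over a number field `E ⊇ K` (an Artin motive of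
rank `n` with coefficients in `E`) such that `tr R(Fr p) = tr A p` for all primes `p` outside a set of
density zero, and `R` is unramified at `p` and `char R(Fr p) = char A p` for all primes `p` of `T`. -/
def HasArtinOn (π : SatakeSystem K n) (Fr : Nat.Primes → AbsGal ℚ) (T : Set Nat.Primes) : Prop :=
  ∃ (E : Type) (_ : Field E) (_ : NumberField E) (i : K →+* E) (R : AbsGal ℚ →* GL (Fin n) E),
    IsArtinE R ∧ HasDensity {p : Nat.Primes | (R (Fr p)).val.trace ≠ i (π.A p).trace} 0 ∧
    ∀ p ∈ T, Unram R p ∧ (R (Fr p)).val.charpoly = (π.A p).charpoly.map i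

/-- There is a representation `r` modulo the ideal `𝔞` (with values in a commutative ring which contains
`𝓞 K ⧸ 𝔞`) such that `tr r(Fr p) = tr A p` modulo `𝔞` for all primes `p` outside a set of density zero,
and `r` is unramified at `p` and `char r(Fr p) = char A p` modulo `𝔞` for all primes `p` of `T`. -/
def HasModOn (π : SatakeSystem K n) (Fr : Nat.Primes → AbsGal ℚ) (T : Set Nat.Primes)
    (𝔞 : Ideal (𝓞 K)) : Prop :=
  ∃ (A : Type) (_ : CommRing A) (ι : 𝓞 K →+* A) (r : AbsGal ℚ →* GL (Fin n) A),
    RingHom.ker ι = 𝔞 ∧ IsOpen (r.ker : Set (AbsGal ℚ)) ∧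
      (Congruent π Fr ι fun g => (r g).val.trace) ∧ ∀ p ∈ T, ModAt π Fr ι r p

end Pool.Agent.OneM74
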