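import Pool.Agent.W_7742m_h74.VSta
import Pool.Agent.W_7742m_h74.UAsm
import Pool.Agent.W_7742g_h15.PowA

/-! # Translation of the definitions -/

set_option autoImplicit false

noncomputable section

namespace Pool.Agent.Art74

open NumberField Polynomial ComplexConjugate
open Pool.Agent.H74V Pool.Agent.OneM74 Pool.Agent.GalSide Pool.Agent.OneI74
open Pool.Agent.GL74 Pool.Agent.GLForm74

variable {K : Type} [Field K] [NumberField K] {n N : ℕ}

theorem exists_system (hn : 2 ≤ n) (hN : 0 < N) (P : ℕ → (𝓞 K)[X])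
    (hP : ∀ p : ℕ, p.Prime → ¬ p ∣ N → (P p).Monic ∧ (P p).natDegree = n)
    (hc : ∀ σ : K →+* ℂ, IsCuspidalSystem N
      (fun p => ((P p).map (algebraMap (𝓞 K) K)).map σ) n) :
    ∃ π : SatakeSystem K n, π.level = N ∧ (∀ σ, π.IsCuspidal σ) ∧
      ∀ p : ℕ, p.Prime → ¬ p ∣ N → (π.A p).charpoly = (P p).map (algebraMap (𝓞 K) K) := by
  classical
  have hC : ∀ p : ℕ, ∃ C : Matrix (Fin n) (Fin n) K, p.Prime → ¬ p ∣ N →
      C.charpoly = (P p).map (algebraMap (𝓞 K) K) := by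
    intro p
    by_cases h : p.Prime ∧ ¬ p ∣ N
    · obtain ⟨C, hC⟩ := Pool.Agent.GalMaass.exists_matrix_charpoly (P p) (hP p h.1 h.2).1 n
        (hP p h.1 h.2).2
      exact ⟨C.map (algebraMap (𝓞 K) K), fun _ _ => by rw [Matrix.charpoly_map, hC]⟩
    · exact ⟨0, fun h1 h2 => absurd ⟨h1, h2⟩ h⟩
  choose A hA using hC
  have hdet : ∀ p, p.Prime → ¬ p ∣ N → (A p).det ≠ 0 := by
    intro p hp hpN h0
    obtain ⟨σ⟩ : Nonempty (K →+* ℂ) := inferInstance
    obtain ⟨χ, f, hf, hne, he⟩ := hc σ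
    obtain ⟨s, rfl⟩ : ∃ s, n = s + 2 := ⟨n - 2, by omega⟩
    have h1 := (adj_rel hN hf hne hp hpN
      (fun k => (-1) ^ k * (((P p).map (algebraMap (𝓞 K) K)).map σ).coeff (s + 2 - k))
      (he p hp hpN)).1
    simp only [Nat.sub_self] at h1
    rw [← hA p hp hpN, Polynomial.coeff_map] at h1
    have h2 : σ (A p).det = conj (χ p) := by
      rw [← h1, Matrix.det_eq_sign_charpoly_coeff, Fintype.card_fin, map_mul, map_pow, map_neg,
        map_one]
    rw [h0, map_zero] at h2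
    have hu : IsUnit ((p : ℕ) : ZMod N) := (ZMod.isUnit_iff_coprime p _).2
      ((Nat.Prime.coprime_iff_not_dvd hp).2 hpN)
    obtain ⟨u, hu⟩ := hu
    have h3 : ‖conj (χ p)‖ = 1 := by
      rw [← hu, Complex.norm_conj]
      exact DirichletCharacter.unit_norm_eq_one χ u
    rw [← h2, norm_zero] at h3
    exact zero_ne_one h3
  refine ⟨⟨N, hN, A, hdet, fun p hp hpN i => ?_⟩, rfl, fun σ => ?_, hA⟩
  · rw [hA p hp hpN, Polynomial.coeff_map]
    exact RingOfIntegers.isIntegral_coe _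
  · obtain ⟨χ, f, hf, hne, he⟩ := hc σ
    refine ⟨χ, f, hf, hne, fun p hp hpN k hk1 hk2 g hg => ?_⟩
    have h1 := he p hp hpN k hk1 hk2 g hg
    simp only at h1 ⊢
    rw [hA p hp hpN]
    exact h1

variable {π : SatakeSystem K n} {P : ℕ → (𝓞 K)[X]} {F : Nat.Primes → GQ}

theorem dens_iff (X : Set Nat.Primes) : HasDensity X 0 ↔ DensityZero X := Iff.rfl

theorem frob_iff : Pool.Agent.OneP74.IsFrobeniusFamily F ↔ IsFrobeniusChoice F := Iff.rfl

theorem unram_iff {H : Type} [Group H] (r : GQ →* H) (p : Nat.Primes) :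
    Unram r p ↔ Unramified r p := by
  constructor
  · intro h 𝔓 σ h1 h2 h3
    refine MonoidHom.mem_ker.1 (h 𝔓 h1 h2 ?_)
    intro x
    obtain ⟨y, hy, hxy⟩ := h3 x
    exact ⟨y, hy, hxy.trans (by rw [pow_one])⟩
  · intro h 𝔓 h1 h2 σ h3
    refine MonoidHom.mem_ker.2 (h 𝔓 σ h1 h2 ?_)
    intro x
    obtain ⟨y, hy, hxy⟩ := h3 x
    exact ⟨y, hy, hxy.trans (by rw [pow_one])⟩

theorem noZeros_iff (U : Subgroup GQ) : Pool.Agent.DZ74.NoZeros U 0 ↔ NoRealZeros U := by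
  unfold Pool.Agent.DZ74.NoZeros NoRealZeros Pool.Agent.DZ74.ZeroFree Pool.Agent.DZ74.ZetaExt
  constructor
  · intro h L _ _ i hi z h1 h2 x hx hx1
    exact h L i hi z ⟨h1, h2⟩ x hx hx1
  · intro h L _ _ i hi z hz x hx hx1
    exact h L i hi z hz.1 hz.2 x hx hx1

/-- The trace. -/
theorem trace_eq (hn : 0 < n) {p : ℕ}
    (h : (π.A p).charpoly = (P p).map (algebraMap (𝓞 K) K)) :
    (π.A p).trace = ((-(P p).coeff (n - 1) : 𝓞 K) : K) := by
  have : Nonempty (Fin n) := ⟨⟨0, hn⟩⟩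
  rw [Matrix.trace_eq_neg_charpoly_coeff, h, Polynomial.coeff_map, Fintype.card_fin]
  rfl

theorem dens_congr {X Y : Set Nat.Primes} (hN : 0 < N)
    (h : ∀ p : Nat.Primes, ¬ (p : ℕ) ∣ N → (p ∈ X ↔ p ∈ Y)) : HasDensity X 0 ↔ DensityZero Y := by
  rw [← dens_iff]
  have hfin := Pool.Agent.OneP74.finite_level hN
  constructor
  · intro h1
    refine Pool.Agent.OneP74.density_union h1 hfin fun p hp => ?_
    by_cases hpN : (p : ℕ) ∣ N
    · exact Or.inr hpN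
    · exact Or.inl ((h p hpN).2 hp)
  · intro h1
    refine Pool.Agent.OneP74.density_union h1 hfin fun p hp => ?_
    by_cases hpN : (p : ℕ) ∣ N
    · exact Or.inr hpN
    · exact Or.inl ((h p hpN).1 hp)

theorem congruent_iff (hn : 0 < n) (hN : 0 < N)
    (hπ : ∀ p : ℕ, p.Prime → ¬ p ∣ N → (π.A p).charpoly = (P p).map (algebraMap (𝓞 K) K))
    {A : Type} [CommRing A] (ι : 𝓞 K →+* A) (T : GQ → A) :
    Congruent π F ι T ↔
      DensityZero {p : Nat.Primes | T (F p) ≠ ι (-(P p).coeff (n - 1))} := by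
  refine dens_congr hN fun p hp => ?_
  have h1 := trace_eq (π := π) hn (hπ p p.2 hp)
  simp only [Set.mem_setOf_eq]
  refine not_congr ⟨?_, fun h2 => ⟨_, h1.symm, h2⟩⟩
  rintro ⟨x, hx, h2⟩
  rw [h1] at hx
  rw [h2, RingOfIntegers.coe_injective hx]

theorem modAt_iff {p : Nat.Primes}
    (hπ : (π.A p).charpoly = (P p).map (algebraMap (𝓞 K) K))
    {A : Type} [CommRing A] (ι : 𝓞 K →+* A) (r : GQ →* GL (Fin n) A) :
    ModAt π F ι r p ↔ Unramified r p ∧ (r (F p)).val.charpoly = (P p).map ι := by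
  unfold ModAt
  rw [unram_iff]
  refine and_congr_right fun _ => ⟨?_, fun h => ⟨P p, hπ.symm, h⟩⟩
  rintro ⟨Q, h1, h2⟩
  rw [hπ] at h1
  exact h2.trans (by rw [Polynomial.map_injective _ RingOfIntegers.coe_injective h1])

theorem attached_iff (hn : 0 < n) (hN : 0 < N)
    (hπ : ∀ p : ℕ, p.Prime → ¬ p ∣ N → (π.A p).charpoly = (P p).map (algebraMap (𝓞 K) K))
    {V : Set Nat.Primes} (hV : ∀ p ∈ V, ¬ (p : ℕ) ∣ N)
    {A : Type} [CommRing A] (ι : 𝓞 K →+* A) (r : GQ →* GL (Fin n) A) :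
    (IsOpen (r.ker : Set GQ) ∧ (Congruent π F ι fun g => (r g).val.trace) ∧
      ∀ p ∈ V, ModAt π F ι r p) ↔ Attached F P V ι r := by
  unfold Attached
  rw [congruent_iff hn hN hπ]
  refine and_congr_right fun _ => and_congr_right fun _ => forall₂_congr fun p hp => ?_
  exact modAt_iff (hπ p p.2 (hV p hp)) ι r

theorem hasMod_iff (hn : 0 < n) (hN : 0 < N)
    (hπ : ∀ p : ℕ, p.Prime → ¬ p ∣ N → (π.A p).charpoly = (P p).map (algebraMap (𝓞 K) K))
    {V : Set Nat.Primes} (hV : ∀ p ∈ V, ¬ (p : ℕ) ∣ N) (𝔞 : Ideal (𝓞 K)) :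
    HasModOn π F V 𝔞 ↔ Art74.HasMod n F P V 𝔞 := by
  unfold HasModOn Art74.HasMod
  constructor
  · rintro ⟨A, hA, ι, r, h1, h2⟩
    exact ⟨A, hA, ι, r, h1, (attached_iff hn hN hπ hV ι r).1 h2⟩
  · rintro ⟨A, hA, ι, r, h1, h2⟩
    exact ⟨A, hA, ι, r, h1, (attached_iff hn hN hπ hV ι r).2 h2⟩

theorem attachedE_iff (hn : 0 < n) (hN : 0 < N)
    (hπ : ∀ p : ℕ, p.Prime → ¬ p ∣ N → (π.A p).charpoly = (P p).map (algebraMap (𝓞 K) K))
    {V : Set Nat.Primes} (hV : ∀ p ∈ V, ¬ (p : ℕ) ∣ N)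
    {E : Type} [Field E] [NumberField E] (i : K →+* E) (R : GQ →* GL (Fin n) E) :
    (IsArtinE R ∧ HasDensity {p : Nat.Primes | (R (F p)).val.trace ≠ i (π.A p).trace} 0 ∧
      ∀ p ∈ V, Unram R p ∧ (R (F p)).val.charpoly = (π.A p).charpoly.map i) ↔
    ((∀ (τ : E →+* ℂ) (W : Submodule ℂ (Fin n → ℂ)),
      (∀ g, ∀ w ∈ W, ((R g).val.map τ).mulVec w ∈ W) → W = ⊥ ∨ W = ⊤) ∧
    Attached F P V (i.comp (algebraMap (𝓞 K) K)) R) := by
  have h1 : HasDensity {p : Nat.Primes | (R (F p)).val.trace ≠ i (π.A p).trace} 0 ↔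
      DensityZero {p : Nat.Primes | (R (F p)).val.trace ≠
        (i.comp (algebraMap (𝓞 K) K)) (-(P p).coeff (n - 1))} := by
    refine dens_congr hN fun p hp => ?_
    have h1 := trace_eq (π := π) hn (hπ p p.2 hp)
    simp only [Set.mem_setOf_eq]
    rw [h1]
    rfl
  have h2 : (∀ p ∈ V, Unram R p ∧ (R (F p)).val.charpoly = (π.A p).charpoly.map i) ↔
      ∀ p ∈ V, Unramified R p ∧
        (R (F p)).val.charpoly = (P p).map (i.comp (algebraMap (𝓞 K) K)) := by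
    refine forall₂_congr fun p hp => ?_
    rw [unram_iff, hπ p p.2 (hV p hp), Polynomial.map_map]
  unfold IsArtinE Attached
  rw [h1, h2]
  tauto

theorem hasMotive_iff (hn : 0 < n) (hN : 0 < N)
    (hπ : ∀ p : ℕ, p.Prime → ¬ p ∣ N → (π.A p).charpoly = (P p).map (algebraMap (𝓞 K) K))
    {V : Set Nat.Primes} (hV : ∀ p ∈ V, ¬ (p : ℕ) ∣ N) :
    HasArtinOn π F V ↔ HasMotive n F P V := by
  unfold HasArtinOn HasMotive
  constructor
  · rintro ⟨E, h1, h2, i, R, h⟩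
    exact ⟨E, h1, h2, i, R, (attachedE_iff hn hN hπ hV i R).1 h⟩
  · rintro ⟨E, h1, h2, i, R, h⟩
    exact ⟨E, h1, h2, i, R, (attachedE_iff hn hN hπ hV i R).2 h⟩

end Pool.Agent.Art74
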