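import Pool.Agent.W_7742m_h74.VFin

/-! # The main statements in terms of the polynomials -/

set_option autoImplicit false

noncomputable section

namespace Pool.Agent.Art74

open NumberField Polynomial ComplexConjugate
open Pool.Agent.H74V Pool.Agent.OneM74 Pool.Agent.GalSide Pool.Agent.OneI74
open Pool.Agent.GL74 Pool.Agent.GLForm74
open Pool.Agent.OneJ74 (YY final_pair)

variable {K : Type} [Field K] [NumberField K] {n N : ℕ}

/-- One representation modulo one ideal. -/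
theorem main_lifts (hn : 2 ≤ n) (hN : 0 < N) {P : ℕ → (𝓞 K)[X]}
    (hP : ∀ p : ℕ, p.Prime → ¬ p ∣ N → (P p).Monic ∧ (P p).natDegree = n)
    (hc : ∀ σ : K →+* ℂ, IsCuspidalSystem N
      (fun p => ((P p).map (algebraMap (𝓞 K) K)).map σ) n)
    {F : Nat.Primes → GQ} (hF : IsFrobeniusChoice F) {A : Type} [CommRing A] {ι : 𝓞 K →+* A}
    (hι : YY n ^ Module.finrank ℚ K ≤ Ideal.absNorm (RingHom.ker ι))
    {r : GQ →* GL (Fin n) A} (hr : Attached F P ∅ ι r) : Lifts N F P ι r := by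
  obtain ⟨π, rfl, hcusp, hπ⟩ := exists_system hn hN P hP hc
  have hn0 : 0 < n := by omega
  have hr' := (attached_iff (π := π) hn0 hN hπ (V := ∅) (by simp) ι r).2 hr
  obtain ⟨E, hE1, hE2, i, R, h1, h2, h3, -, -, -, h4, h5⟩ :=
    final_E hn π hcusp F (frob_iff.2 hF) ι hι r hr'.1 hr'.2.1
  have h6 := (attachedE_iff (π := π) (F := F) hn0 hN hπ (V := ∅) (by simp) i R).1
    ⟨h1, h3, by simp⟩
  refine ⟨E, hE1, hE2, i, R, h6.1, h6.2, h2, h4, fun hz S hS hch p hp hpS => ?_⟩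
  have hthin : ∀ x : ℝ, (0 : ℝ) < x → Pool.Agent.DZ74.Thin S x := by
    intro x _
    have : Finite S := hS
    exact Summable.of_finite
  have hout : Pool.Agent.DZ74.CongruentOutside π F ι r S := by
    intro q hqS hq
    exact ⟨P q, (hπ q hq.1 hq.2).symm, (hch q hq.2 hqS).symm⟩
  have h7 := (h5 S 0 le_rfl one_pos hthin hout ((noZeros_iff _).2 hz)).2.2 rfl p ⟨p.2, hp⟩
  have h8 := h7.2 hpS
  rw [hπ p p.2 hp] at h8
  exact h8

/-- No sum of two representations. -/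
theorem main_sum (hn : 2 ≤ n) (hN : 0 < N) {P : ℕ → (𝓞 K)[X]}
    (hP : ∀ p : ℕ, p.Prime → ¬ p ∣ N → (P p).Monic ∧ (P p).natDegree = n)
    (hc : ∀ σ : K →+* ℂ, IsCuspidalSystem N
      (fun p => ((P p).map (algebraMap (𝓞 K) K)).map σ) n)
    {F : Nat.Primes → GQ} (hF : IsFrobeniusChoice F) {A : Type} [CommRing A] {ι : 𝓞 K →+* A}
    (hι : YY n ^ Module.finrank ℚ K ≤ Ideal.absNorm (RingHom.ker ι)) {a b : ℕ} (ha : 0 < a)
    (hb : 0 < b) (hab : a + b = n) (r₁ : GQ →* GL (Fin a) A) (r₂ : GQ →* GL (Fin b) A)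
    (h₁ : IsOpen (r₁.ker : Set GQ)) (h₂ : IsOpen (r₂.ker : Set GQ)) :
    ¬ DensityZero {p : Nat.Primes |
      (r₁ (F p)).val.trace + (r₂ (F p)).val.trace ≠ ι (-(P p).coeff (n - 1))} := by
  obtain ⟨π, rfl, hcusp, hπ⟩ := exists_system hn hN P hP hc
  intro h
  exact final_pair hn π hcusp F (frob_iff.2 hF) ι hι ha hb hab r₁ r₂ h₁ h₂
    ((congruent_iff (π := π) (by omega) hN hπ ι
      fun g => (r₁ g).val.trace + (r₂ g).val.trace).2 h)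

/-- The equivalence. -/
theorem main_tfae (hn : 2 ≤ n) (hN : 0 < N) {P : ℕ → (𝓞 K)[X]}
    (hP : ∀ p : ℕ, p.Prime → ¬ p ∣ N → (P p).Monic ∧ (P p).natDegree = n)
    (hc : ∀ σ : K →+* ℂ, IsCuspidalSystem N
      (fun p => ((P p).map (algebraMap (𝓞 K) K)).map σ) n)
    {F : Nat.Primes → GQ} (hF : IsFrobeniusChoice F) {V : Set Nat.Primes}
    (hV : ∀ p ∈ V, ¬ (p : ℕ) ∣ N) :
    [HasMotive n F P V,
      ∀ 𝔞 : Ideal (𝓞 K), 𝔞 ≠ ⊥ → Art74.HasMod n F P V 𝔞,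
      (∃ (m : ℕ) (𝔞 : Fin m → Ideal (𝓞 K)),
        YY n ^ Module.finrank ℚ K ≤ Ideal.absNorm (⨅ l, 𝔞 l) ∧
        ∀ l, Art74.HasMod n F P ∅ (𝔞 l)) ∧
      ∀ p ∈ V, ∃ (m : ℕ) (𝔞 : Fin m → Ideal (𝓞 K)),
        (YY n ^ 2 * (p : ℕ) ^ n) ^ Module.finrank ℚ K ≤ Ideal.absNorm (⨅ l, 𝔞 l) ^ 2 ∧
        ∀ l, Art74.HasMod n F P {p} (𝔞 l)].TFAE := by
  obtain ⟨π, rfl, hcusp, hπ⟩ := exists_system hn hN P hP hc
  have hn0 : 0 < n := by omega
  have hg : ∀ p ∈ V, π.Good p := fun p hp => ⟨p.2, hV p hp⟩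
  have hFr := frob_iff.2 hF
  have e1 := hasMotive_iff (π := π) (F := F) hn0 hN hπ hV
  have e2 := fun 𝔞 => hasMod_iff (π := π) (F := F) hn0 hN hπ hV 𝔞
  have e3 := fun 𝔞 => hasMod_iff (π := π) (F := F) hn0 hN hπ (V := ∅) (by simp) 𝔞
  have e4 : ∀ p ∈ V, ∀ 𝔞, HasModOn π F {p} 𝔞 ↔ Art74.HasMod n F P {p} 𝔞 := fun p hp 𝔞 =>
    hasMod_iff (π := π) (F := F) hn0 hN hπ (V := {p}) (by
      intro q hq
      rw [Set.mem_singleton_iff.1 hq]
      exact hV p hp) 𝔞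
  have hpos : 0 < YY n := Nat.pow_pos (by omega)
  have hnorm : ∀ k : ℕ, (⨅ _ : Fin 1, Ideal.span {(k : 𝓞 K)}).absNorm =
      k ^ Module.finrank ℚ K := fun k => by
    rw [ciInf_const, Ideal.absNorm_span_natCast, RingOfIntegers.rank K]
  have hne : ∀ k : ℕ, 0 < k → Ideal.span {(k : 𝓞 K)} ≠ ⊥ := fun k hk => by
    rw [Ne, Ideal.span_singleton_eq_bot]
    exact Nat.cast_ne_zero.2 hk.ne'
  tfae_have 1 → 2 := fun ha 𝔞 h𝔞 =>
    (e2 𝔞).1 (hasModOn_of_hasArtinOn hn π F hg (e1.2 ha) h𝔞)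
  tfae_have 2 → 3 := by
    intro hb
    refine ⟨⟨1, fun _ => Ideal.span {(YY n : 𝓞 K)}, (hnorm _).ge, fun _ => (e3 _).1
      (hasModOn_mono π F (Set.empty_subset V) ((e2 _).2 (hb _ (hne _ hpos))))⟩, fun p hp =>
      ⟨1, fun _ => Ideal.span {((YY n * (p : ℕ) ^ n : ℕ) : 𝓞 K)}, ?_, fun _ => (e4 p hp _).1
        (hasModOn_mono π F (Set.singleton_subset_iff.2 hp)
          ((e2 _).2 (hb _ (hne _ (Nat.mul_pos hpos (Nat.pow_pos p.2.pos))))))⟩⟩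
    rw [hnorm, ← pow_mul, mul_comm (Module.finrank ℚ K), pow_mul]
    refine Nat.pow_le_pow_left ?_ _
    rw [mul_pow]
    exact Nat.mul_le_mul_left _ (Nat.le_self_pow two_ne_zero _)
  tfae_have 3 → 1 := by
    rintro ⟨⟨m, 𝔞, hι, hm⟩, hl⟩
    refine e1.1 (hasArtinOn_of_local hn π hcusp F hFr hg
      (hasArtin_of_family hn π hcusp F hFr 𝔞 hι fun l => hasMod_of_on π F ((e3 _).2 (hm l)))
      fun p hp => ?_)
    obtain ⟨m, 𝔞, h1, h2⟩ := hl p hp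
    exact ⟨m, 𝔞, h1, fun l => (e4 p hp _).2 (h2 l)⟩
  tfae_finish

end Pool.Agent.Art74
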