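import Pool.Agent.W_7742x_h74.QDef

/-! # Definitions for the statement: Galois representations over a ring attached to polynomials -/

set_option autoImplicit false

noncomputable section

namespace Pool.Agent.Art74

open NumberField Polynomial Filter Topology

/-- The absolute Galois group of `k`. -/
abbrev AbsGal (k : Type) [Field k] : Type := AlgebraicClosure k ≃ₐ[k] AlgebraicClosure k

/-- The ring of the algebraic integers in the algebraic closure of `k`. -/
abbrev IntClosure (k : Type) [Field k] : Type := integralClosure ℤ (AlgebraicClosure k)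

/-- The absolute Galois group of `ℚ`. -/
abbrev GQ : Type := AbsGal ℚ

/-- The ring of all algebraic integers. -/
abbrev Zbar : Type := IntClosure ℚ

/-- `σ x ≡ x ^ q` modulo `𝔓` for all algebraic integers `x`.  For a prime ideal `𝔓` above `p` the `σ`
with this property for `q = p` are the Frobenius elements at `𝔓`, those for `q = 1` the elements of the
inertia group of `𝔓`. -/
def PowAt (𝔓 : Ideal Zbar) (q : ℕ) (σ : GQ) : Prop :=
  ∀ x : Zbar, ∃ y ∈ 𝔓, σ (x : AlgebraicClosure ℚ) = (x : AlgebraicClosure ℚ) ^ q + y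

/-- `F p` is a Frobenius element at a prime ideal above `p`, for all primes `p`. -/
def IsFrobeniusChoice (F : Nat.Primes → GQ) : Prop :=
  ∀ p : Nat.Primes, ∃ 𝔓 : Ideal Zbar, 𝔓.IsPrime ∧ ((p : ℕ) : Zbar) ∈ 𝔓 ∧ PowAt 𝔓 p (F p)

/-- The homomorphism `r` is unramified at `p`. -/
def Unramified {H : Type} [Group H] (r : GQ →* H) (p : Nat.Primes) : Prop :=
  ∀ (𝔓 : Ideal Zbar) (σ : GQ), 𝔓.IsPrime → ((p : ℕ) : Zbar) ∈ 𝔓 → PowAt 𝔓 1 σ → r σ = 1

/-- The set `X` of primes has Dirichlet density zero. -/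
def DensityZero (X : Set Nat.Primes) : Prop :=
  Tendsto (fun s : ℝ => (∑' p : Nat.Primes, X.indicator
    (fun q : Nat.Primes => ((q : ℕ) : ℝ) ^ (-s)) p) / Real.log (1 / (s - 1))) (𝓝[>] 1) (𝓝 0)

variable {K : Type} [Field K] [NumberField K] {n : ℕ}

/-- The representation `r` over the ring `A` with `ι : 𝓞 K → A` has open kernel and is attached to the
polynomials `P p` over `𝓞 K` (characteristic polynomials of degree `n`; the trace is the coefficient of
degree `n - 1` up to the sign): the trace of `r (F p)` is that of `P p` for all primes `p` outside a set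
of density zero, and `r` is unramified at `p` and the characteristic polynomial of `r (F p)` is `P p` for
all `p` in `V`. -/
def Attached (F : Nat.Primes → GQ) (P : ℕ → (𝓞 K)[X]) (V : Set Nat.Primes) {A : Type} [CommRing A]
    (ι : 𝓞 K →+* A) (r : GQ →* GL (Fin n) A) : Prop :=
  IsOpen (r.ker : Set GQ) ∧
    DensityZero {p : Nat.Primes | (r (F p)).val.trace ≠ ι (-(P p).coeff (n - 1))} ∧
    ∀ p ∈ V, Unramified r p ∧ (r (F p)).val.charpoly = (P p).map ι

/-- There is an absolutely irreducible representation over a number field `E` which contains `K`,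
attached to the polynomials `P p`. -/
def HasMotive (n : ℕ) (F : Nat.Primes → GQ) (P : ℕ → (𝓞 K)[X]) (V : Set Nat.Primes) : Prop :=
  ∃ (E : Type) (_ : Field E) (_ : NumberField E) (i : K →+* E) (R : GQ →* GL (Fin n) E),
    (∀ (τ : E →+* ℂ) (W : Submodule ℂ (Fin n → ℂ)),
      (∀ g, ∀ w ∈ W, ((R g).val.map τ).mulVec w ∈ W) → W = ⊥ ∨ W = ⊤) ∧
    Attached F P V (i.comp (algebraMap (𝓞 K) K)) R

/-- There is a representation over a ring which contains `𝓞 K ⧸ 𝔞`, attached to the polynomials `P p`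
modulo the ideal `𝔞`. -/
def HasMod (n : ℕ) (F : Nat.Primes → GQ) (P : ℕ → (𝓞 K)[X]) (V : Set Nat.Primes)
    (𝔞 : Ideal (𝓞 K)) : Prop :=
  ∃ (A : Type) (_ : CommRing A) (ι : 𝓞 K →+* A) (r : GQ →* GL (Fin n) A),
    RingHom.ker ι = 𝔞 ∧ Attached F P V ι r

/-- The Dedekind zeta functions of the number fields `L` which have an embedding in the algebraic closure
of `ℚ` with image fixed by `U` have no zeros in `(0, 1)`; here `z x = (x - 1) * ζ_L(x)`, continued
analytically to `(0, ∞)`. -/
def NoRealZeros (U : Subgroup GQ) : Prop :=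
  ∀ (L : Type) [Field L] [NumberField L] (i : L →+* AlgebraicClosure ℚ),
    (∀ g ∈ U, ∀ a : L, g (i a) = i a) → ∀ z : ℝ → ℝ, (∀ x : ℝ, 0 < x → AnalyticAt ℝ z x) →
      (∀ x : ℝ, 1 < x → (z x : ℂ) = ((x : ℂ) - 1) * dedekindZeta L (x : ℂ)) →
      ∀ x : ℝ, 0 < x → x < 1 → z x ≠ 0

/-- The characteristic polynomial of `R g` is `Q` for all `g` and all monic polynomials `Q` of degree `n`
over `𝓞 K` such that the characteristic polynomial of `r g` is `ι Q` and the roots of all conjugates of
`Q` have absolute value at most `y`, where `y ≥ 1` and `(n ^ (2 n ^ 2 + 1) (y ^ n + 1)) ^ d` is smaller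
than the norm of `ker ι`, `d = [K : ℚ]`. -/
def LiftsCharpoly {A E : Type} [CommRing A] [Field E] (ι : 𝓞 K →+* A) (r : GQ →* GL (Fin n) A)
    (i : K →+* E) (R : GQ →* GL (Fin n) E) : Prop :=
  ∀ (g : GQ) (Q : (𝓞 K)[X]) (y : ℝ), Q.Monic → Q.natDegree = n → 1 ≤ y →
    (∀ σ : K →+* ℂ, ∀ α ∈ ((Q.map (algebraMap (𝓞 K) K)).map σ).roots, ‖α‖ ≤ y) →
    ((n : ℝ) ^ (2 * n ^ 2 + 1) * (y ^ n + 1)) ^ Module.finrank ℚ K <
      (Ideal.absNorm (RingHom.ker ι) : ℝ) →
    (r g).val.charpoly = Q.map ι → (R g).val.charpoly = (Q.map (algebraMap (𝓞 K) K)).map i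

/-- What one representation `r` modulo one ideal `𝔞 = ker ι` gives: an absolutely irreducible
representation `R` over a number field `E ⊇ K` with open kernel which contains the kernel of `r`, attached
to the polynomials `P p` (outside a set of density zero), such that `LiftsCharpoly` holds; and if the
characteristic polynomial of `r (F p)` is `ι (P p)` for all `p` not dividing `N` outside a finite set `S`
and `NoRealZeros` holds for the kernel of `r` then the characteristic polynomial of `R (F p)` is `P p` for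
these `p`. -/
def Lifts (N : ℕ) (F : Nat.Primes → GQ) (P : ℕ → (𝓞 K)[X]) {A : Type} [CommRing A]
    (ι : 𝓞 K →+* A) (r : GQ →* GL (Fin n) A) : Prop :=
  ∃ (E : Type) (_ : Field E) (_ : NumberField E) (i : K →+* E) (R : GQ →* GL (Fin n) E),
    (∀ (τ : E →+* ℂ) (W : Submodule ℂ (Fin n → ℂ)),
      (∀ g, ∀ w ∈ W, ((R g).val.map τ).mulVec w ∈ W) → W = ⊥ ∨ W = ⊤) ∧
    Attached F P ∅ (i.comp (algebraMap (𝓞 K) K)) R ∧ r.ker ≤ R.ker ∧ LiftsCharpoly ι r i R ∧
    (NoRealZeros r.ker → ∀ S : Set Nat.Primes, S.Finite →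
      (∀ p : Nat.Primes, ¬ (p : ℕ) ∣ N → p ∉ S → (r (F p)).val.charpoly = (P p).map ι) →
      ∀ p : Nat.Primes, ¬ (p : ℕ) ∣ N → p ∉ S →
        (R (F p)).val.charpoly = ((P p).map (algebraMap (𝓞 K) K)).map i)

end Pool.Agent.Art74
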